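import Pool.Agent.V7H88.DZ.C

/-! The local formula with more freedom for the length of the window. -/

set_option autoImplicit false

open Complex Filter Topology Set MeasureTheory

namespace Pool.Agent.V7H88.DT

open Pool.Agent.V7H88.DZ
open SG (hh nn dd dl ord NZ)
open SP (RHs ZZ mu wt Mk Par Eb PS chi qq tt)

/-- elementary asymptotics for the error terms -/
theorem ev_loc2 (a b σ C : ℝ) (ha : 0 ≤ a) (hb : b < 1) (hσ : 1 + σ < 2 * a) (hC : 0 < C) :
    ∃ T0 : ℝ, 10 ≤ T0 ∧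
    ∀ T : ℝ, T0 ≤ T → 4 ≤ Real.log T ∧ Real.log T ≤ T / 40 ∧ ∀ D : ℝ, T ^ a ≤ D → D ≤ T ^ b →
    C * (T * Real.log T) * (T ^ σ * (C * Real.log T * (4 * D) *
      Real.exp (-((T / 20) ^ 2 / (4 * D ^ 2))) + 24 * (C * Real.log T) / D +
      6 * Real.exp (-(Real.log T ^ 2 / 4)))) ≤ D := by
  have ev0 : ∀ᶠ T : ℝ in atTop, 4 ≤ Real.log T := Real.tendsto_log_atTop.eventually_ge_atTop _
  have ev6 : ∀ᶠ T : ℝ in atTop, Real.log T ≤ T / 40 := by
    have h := Real.isLittleO_log_id_atTop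
    rw [Asymptotics.isLittleO_iff] at h
    filter_upwards [h (show (0 : ℝ) < 1 / 40 by norm_num), eventually_ge_atTop 1] with T hT h1
    simp only [id] at hT
    rw [Real.norm_of_nonneg (Real.log_nonneg h1), Real.norm_of_nonneg (by linarith)] at hT
    linarith
  have ev2 : ∀ᶠ T : ℝ in atTop, 24 * 3 * (C * C) * (Real.log T) ^ 2 ≤
      T ^ (2 * a - 1 - σ) := by
    have h := isLittleO_log_rpow_atTop (show 0 < (2 * a - 1 - σ) / 2 by linarith)
    rw [Asymptotics.isLittleO_iff] at h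
    set e : ℝ := Real.sqrt (1 / (24 * 3 * (C * C))) with he
    have he0 : 0 < e := Real.sqrt_pos.2 (by positivity)
    have he2 : e ^ 2 = 1 / (24 * 3 * (C * C)) := Real.sq_sqrt (by positivity)
    filter_upwards [h he0, eventually_ge_atTop 1] with T hT h1
    rw [Real.norm_of_nonneg (Real.log_nonneg h1),
      Real.norm_of_nonneg (Real.rpow_nonneg (by linarith) _)] at hT
    have h2 := pow_le_pow_left₀ (Real.log_nonneg h1) hT 2
    rw [mul_pow, he2, ← Real.rpow_natCast (T ^ ((2 * a - 1 - σ) / 2)),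
      ← Real.rpow_mul (by linarith)] at h2
    have e1 : (2 * a - 1 - σ) / 2 * ((2 : ℕ) : ℝ) = 2 * a - 1 - σ := by push_cast; ring
    rw [e1] at h2
    calc 24 * 3 * (C * C) * (Real.log T) ^ 2 ≤ 24 * 3 * (C * C) *
          (1 / (24 * 3 * (C * C)) * T ^ (2 * a - 1 - σ)) := by gcongr
      _ = _ := by field_simp
  have ev3 : ∀ᶠ T : ℝ in atTop, T ^ (1 + 1 + 1 + |σ| : ℝ) *
      Real.exp (-(1 / 1600) * T ^ (2 - 2 * b)) ≤ 1 / (12 * (C * C)) := by
    have h := SG.Deep.tendsto_pow_exp (1 + 1 + 1 + |σ|) (1 / 1600) (2 * (2 - 2 * b)) (by norm_num)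
      (by linarith)
    have e : 2 * (2 - 2 * b) / 2 = 2 - 2 * b := by ring
    rw [e] at h
    exact (h.eventually_lt_const (by positivity : (0:ℝ) < 1 / (12 * (C * C)))).mono fun T hT => hT.le
  have ev4 : ∀ᶠ T : ℝ in atTop, 6 * C * T ^ (1 + 1 + |σ| : ℝ) * Real.exp (-(Real.log T ^ 2 / 4)) ≤
      1 / 3 := by
    have hlog := Real.tendsto_log_atTop
    filter_upwards [hlog.eventually_ge_atTop (4 * (1 + 1 + |σ| + 1)),
      eventually_ge_atTop (18 * C), eventually_gt_atTop 1] with T h1 h2 h3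
    have hT0 : 0 < T := by linarith
    have h4 : Real.exp (-(Real.log T ^ 2 / 4)) ≤ T ^ (-(1 + 1 + |σ| + 1) : ℝ) := by
      rw [Real.rpow_def_of_pos hT0]
      apply Real.exp_le_exp.2
      have h5 : 0 < Real.log T := Real.log_pos h3
      nlinarith
    have h6 : T ^ (1 + 1 + |σ| : ℝ) * T ^ (-(1 + 1 + |σ| + 1) : ℝ) = T⁻¹ := by
      rw [← Real.rpow_add hT0, ← Real.rpow_neg_one]
      congr 1
      ring
    calc 6 * C * T ^ (1 + 1 + |σ| : ℝ) * Real.exp (-(Real.log T ^ 2 / 4))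
        ≤ 6 * C * T ^ (1 + 1 + |σ| : ℝ) * T ^ (-(1 + 1 + |σ| + 1) : ℝ) := by gcongr
      _ = 6 * C * (T ^ (1 + 1 + |σ| : ℝ) * T ^ (-(1 + 1 + |σ| + 1) : ℝ)) := by ring
      _ = 6 * C * T⁻¹ := by rw [h6]
      _ ≤ 1 / 3 := by
        rw [← div_eq_mul_inv, div_le_div_iff₀ hT0 (by norm_num)]
        linarith
  obtain ⟨T0, hT0⟩ := Filter.eventually_atTop.1 (ev0.and (ev6.and (ev2.and (ev3.and ev4))))
  refine ⟨max 10 T0, le_max_left _ _, fun T hT => ?_⟩
  obtain ⟨h0, h6, h2, h3, h4⟩ := hT0 T ((le_max_right _ _).trans hT)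
  have hT10 : 10 ≤ T := (le_max_left _ _).trans hT
  have hTp : 0 < T := by linarith
  refine ⟨h0, h6, fun D hD1 hD2 => ?_⟩
  set L := Real.log T with hL
  have hTσ : T ^ σ ≤ T ^ |σ| := Real.rpow_le_rpow_of_exponent_le (by linarith) (le_abs_self σ)
  have hTσ0 : 0 < T ^ σ := Real.rpow_pos_of_pos hTp _
  have hTa : 1 ≤ T ^ a := Real.one_le_rpow (by linarith) ha
  have hLT : L ≤ T := by linarith
  have hL0 : 0 < L := by linarith
  have hD0 : 0 < D := by linarith
  have hD3 : 1 ≤ D := by linarith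
  have e3 : T ^ (1 + 1 + 1 + |σ| : ℝ) = T * T * T * T ^ |σ| := by
    rw [Real.rpow_add hTp, Real.rpow_add hTp, Real.rpow_add hTp, Real.rpow_one]
  have e2 : T ^ (1 + 1 + |σ| : ℝ) = T * T * T ^ |σ| := by
    rw [Real.rpow_add hTp, Real.rpow_add hTp, Real.rpow_one]
  rw [e3] at h3
  rw [e2] at h4
  -- first term
  have t1 : C * (T * L) * (T ^ σ * (C * L * (4 * D) * Real.exp (-((T / 20) ^ 2 / (4 * D ^ 2))))) ≤
      D / 3 := by
    have e4 : (1 / 1600) * T ^ (2 - 2 * b) ≤ (T / 20) ^ 2 / (4 * D ^ 2) := by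
      have h7 : D ^ 2 * T ^ (2 - 2 * b) ≤ T ^ 2 := by
        have h8 : D ^ 2 ≤ T ^ (2 * b) := by
          have h9 := pow_le_pow_left₀ hD0.le hD2 2
          refine h9.trans (le_of_eq ?_)
          rw [← Real.rpow_natCast, ← Real.rpow_mul hTp.le]
          congr 1
          push_cast
          ring
        calc D ^ 2 * T ^ (2 - 2 * b) ≤ T ^ (2 * b) * T ^ (2 - 2 * b) := by gcongr
          _ = T ^ 2 := by
            rw [← Real.rpow_add hTp, ← Real.rpow_natCast]
            congr 1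
            push_cast
            ring
      rw [le_div_iff₀ (by positivity)]
      calc 1 / 1600 * T ^ (2 - 2 * b) * (4 * D ^ 2) = 1 / 400 * (D ^ 2 * T ^ (2 - 2 * b)) := by ring
        _ ≤ 1 / 400 * T ^ 2 := by gcongr
        _ = _ := by ring
    have e5 : Real.exp (-((T / 20) ^ 2 / (4 * D ^ 2))) ≤
        Real.exp (-(1 / 1600) * T ^ (2 - 2 * b)) := by
      apply Real.exp_le_exp.2
      linarith
    set E := Real.exp (-(1 / 1600) * T ^ (2 - 2 * b)) with hE
    have hE0 : 0 < E := Real.exp_pos _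
    calc C * (T * L) * (T ^ σ * (C * L * (4 * D) * Real.exp (-((T / 20) ^ 2 / (4 * D ^ 2)))))
        ≤ C * (T * L) * (T ^ σ * (C * L * (4 * D) * E)) := by gcongr
      _ = 4 * (C * C) * D * (T * L * L * T ^ σ * E) := by ring
      _ ≤ 4 * (C * C) * D * (T * T * T * T ^ |σ| * E) := by gcongr
      _ ≤ 4 * (C * C) * D * (1 / (12 * (C * C))) := by gcongr
      _ = D / 3 := by
        field_simp
        norm_num
  have t2 : C * (T * L) * (T ^ σ * (24 * (C * L) / D)) ≤ D / 3 := by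
    have e4 : C * (T * L) * (T ^ σ * (24 * (C * L) / D)) =
        (24 * 3 * (C * C) * L ^ 2) * (T * T ^ σ) / 3 / D := by
      field_simp
    rw [e4, div_le_iff₀ hD0]
    have h7 : T ^ (2 * a) ≤ D * D := by
      calc T ^ (2 * a) = T ^ a * T ^ a := by
            rw [← Real.rpow_add hTp]
            congr 1
            ring
        _ ≤ D * D := by gcongr
    calc (24 * 3 * (C * C) * L ^ 2) * (T * T ^ σ) / 3 ≤ T ^ (2 * a - 1 - σ) * (T * T ^ σ) / 3 := by
          gcongr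
      _ = (1 / 3) * T ^ (2 * a) := by
          have : T * T ^ σ = T ^ (1 + σ) := by
            rw [Real.rpow_add hTp, Real.rpow_one]
          rw [this, ← Real.rpow_add hTp]
          have e6 : 2 * a - 1 - σ + (1 + σ) = 2 * a := by ring
          rw [e6]
          ring
      _ ≤ (1 / 3) * (D * D) := by gcongr
      _ = D / 3 * D := by ring
  have t3 : C * (T * L) * (T ^ σ * (6 * Real.exp (-(L ^ 2 / 4)))) ≤ D / 3 := by
    calc C * (T * L) * (T ^ σ * (6 * Real.exp (-(L ^ 2 / 4))))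
        = 6 * C * (T * L * T ^ σ) * Real.exp (-(L ^ 2 / 4)) := by ring
      _ ≤ 6 * C * (T * T * T ^ |σ|) * Real.exp (-(L ^ 2 / 4)) := by gcongr
      _ ≤ 1 / 3 := h4
      _ ≤ D / 3 := by linarith
  calc _ = C * (T * L) * (T ^ σ * (C * L * (4 * D) * Real.exp (-((T / 20) ^ 2 / (4 * D ^ 2))))) +
        C * (T * L) * (T ^ σ * (24 * (C * L) / D)) +
        C * (T * L) * (T ^ σ * (6 * Real.exp (-(L ^ 2 / 4)))) := by ring
    _ ≤ D := by linarith

/-- the local formula -/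
theorem loc2 (hRH : RHs) (a b σ K : ℝ) (ha : 0 ≤ a) (hb : b < 1) (hσ : 1 + σ < 2 * a)
    (hK : 0 ≤ K) :
    ∃ C T0 : ℝ, 0 < C ∧ 10 ≤ T0 ∧ ∀ T : ℝ, T0 ≤ T →
    ∀ (ι : Type) (F : Finset ι) (c : ι → ℂ) (l : ι → ℝ) (t0 D : ℝ),
    (∑ i ∈ F, ‖c i‖) ^ 2 ≤ T ^ σ → (∀ i ∈ F, ∀ j ∈ F, |l i - l j| ≤ K * Real.log T) →
    T ^ a ≤ D → D ≤ T ^ b → T + Real.log T + T / 20 ≤ t0 →
    t0 + T / 20 ≤ 2 * T - Real.log T →
    |Real.pi * (∑ᶠ s ∈ ZZ T, (mu s : ℝ) * (wt t0 D s.im * ‖PP F c l s.im‖ ^ 2)) -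
      (Real.log T / 2 * (∫ t in (T + Real.log T)..(2 * T - Real.log T),
        wt t0 D t * ‖PP F c l t‖ ^ 2) -
      1 / Real.sqrt (2 * Real.pi) * (∑' n : ℕ, (ph ((K + 1) * Real.log T) n : ℂ) *
        JJ F c l t0 D (T + Real.log T) (2 * T - Real.log T) n).re)| ≤
    C * ((∫ t in (T + Real.log T)..(2 * T - Real.log T), wt t0 D t * ‖PP F c l t‖ ^ 2) + D) := by
  classical
  obtain ⟨C1, T1, hC1, hT1, h1⟩ := efk hRH
  obtain ⟨C2, T2, hC2, hT2, h2⟩ := ZZ_count
  obtain ⟨T3, hT3, h3⟩ := ev_loc2 a b σ (max C2 (K + 1)) ha hb hσ (by positivity)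
  refine ⟨C1 + 1 + 3, max (max T1 T2) (max T3 (Real.exp (16 * (K + 1)))), by positivity,
    hT1.trans ((le_max_left _ _).trans (le_max_left _ _)), ?_⟩
  intro T hT ι F c l t0 D hc hl hD1 hD2 ht1 ht2
  simp only [max_le_iff] at hT
  obtain ⟨⟨hTT1, hTT2⟩, hTT3, hTe⟩ := hT
  obtain ⟨hL4, hLT, herr0⟩ := h3 T hTT3
  have herr := herr0 D hD1 hD2
  have hT10 : 10 ≤ T := hT1.trans hTT1
  have hTp : 0 < T := by linarith
  have hLe : 16 * (K + 1) ≤ Real.log T := by
    rw [Real.le_log_iff_exp_le hTp]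
    exact hTe
  set L := Real.log T with hL
  have hL0 : 0 < L := by linarith
  set Λ := (K + 1) * L with hΛ
  have hΛL : L ≤ Λ := by
    rw [hΛ]
    nlinarith
  have hΛ0 : 0 ≤ Λ := by linarith
  have hΛ2 : Λ ≤ L ^ 2 / 16 := by
    rw [hΛ]
    nlinarith
  have hD0 : 0 < D := lt_of_lt_of_le (Real.rpow_pos_of_pos hTp _) hD1
  set V1 := T + L with hV1
  set V2 := 2 * T - L with hV2
  have hV : V1 ≤ V2 := by
    rw [hV1, hV2]
    linarith
  have hwc := LG.MeanAux.wt_cont t0 D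
  have hPc := PP_cont F c l
  set g : ℝ → ℝ := fun t => wt t0 D t * ‖PP F c l t‖ ^ 2 with hg
  have hgc : Continuous g := by
    rw [hg]
    fun_prop
  have hg0 : ∀ t, 0 ≤ g t := fun t =>
    mul_nonneg (LG.MeanAux.wt_pos t0 D t).le (sq_nonneg _)
  set S : ℝ → ℝ := fun t =>
    (∑' n : ℕ, (ph Λ n : ℂ) * cexp (-(I * ((t * Real.log n : ℝ) : ℂ)))).re with hS
  have hSc : Continuous S := by
    rw [hS]
    apply Complex.continuous_re.comp
    apply continuous_tsum (u := fun n => ph Λ n) _ (ph_sum Λ hΛ0)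
    · intro n t
      rw [norm_mul, LG.MeanAux.norm_osc, mul_one, Complex.norm_real,
        Real.norm_of_nonneg (ph_nn Λ hΛ0 n)]
    · intro n
      fun_prop
  set a : ℝ := 1 / Real.sqrt (2 * Real.pi) with ha
  have hfin := ZZ_fin (show (1 : ℝ) ≤ T by linarith)
  set k : ℂ → ℝ → ℝ := fun s t => Real.exp (-(s.im - t) ^ 2 / 2) *
    ∫ u in (0 : ℝ)..Λ, Real.cos (u * (s.im - t)) with hk
  have hkc : ∀ s, Continuous (k s) := by
    intro s
    rw [hk]
    exact Continuous.mul (by fun_prop) ((cosint_cont Λ).comp (by fun_prop))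
  have hzk : ∀ t, zk T Λ t = ∑ s ∈ hfin.toFinset, (mu s : ℝ) * k s t := by
    intro t
    unfold zk
    rw [finsum_mem_eq_finite_toFinset_sum _ hfin]
    refine Finset.sum_congr rfl fun s _ => ?_
    rw [hk]
    ring
  have hzc : Continuous (fun t => zk T Λ t) := by
    simp_rw [hzk]
    apply continuous_finsetSum
    intro s _
    exact continuous_const.mul (hkc s)
  -- pointwise
  have hpt : ∀ t ∈ Set.Icc V1 V2, |zk T Λ t - (L / 2 - a * S t)| ≤ C1 + 1 := by
    intro t ht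
    have h4 := (h1 T hTT1 Λ hΛ0 hΛ2 t ht.1 ht.2).1
    have h5 := half_gauss Λ L hL4 hΛL
    have e : zk T Λ t - (L / 2 - a * S t) =
        (zk T Λ t - a * (L * (∫ u in (0 : ℝ)..Λ, Real.exp (-u ^ 2 / 2)) - S t)) +
        (L * (a * ∫ u in (0 : ℝ)..Λ, Real.exp (-u ^ 2 / 2)) - L / 2) := by ring
    rw [e]
    exact (abs_add_le _ _).trans (add_le_add h4 h5)
  set I0 : ℝ := ∫ t in V1..V2, g t with hI0
  have hI00 : 0 ≤ I0 := intervalIntegral.integral_nonneg hV fun t _ => hg0 t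
  have hint1 : |(∫ t in V1..V2, g t * zk T Λ t) - (L / 2 * I0 -
      a * (∑' n : ℕ, (ph Λ n : ℂ) * JJ F c l t0 D V1 V2 n).re)| ≤ (C1 + 1) * I0 := by
    have e1 : (∑' n : ℕ, (ph Λ n : ℂ) * JJ F c l t0 D V1 V2 n).re = ∫ t in V1..V2, g t * S t :=
      (swap F c l t0 D V1 V2 Λ hΛ0).symm
    rw [e1]
    have i1 : IntervalIntegrable (fun t => g t * zk T Λ t) volume V1 V2 :=
      (hgc.mul hzc).intervalIntegrable _ _
    have i2 : IntervalIntegrable (fun t => g t * (L / 2 - a * S t)) volume V1 V2 :=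
      (hgc.mul (continuous_const.sub (continuous_const.mul hSc))).intervalIntegrable _ _
    have e2 : L / 2 * I0 - a * (∫ t in V1..V2, g t * S t) =
        ∫ t in V1..V2, g t * (L / 2 - a * S t) := by
      rw [hI0, ← intervalIntegral.integral_const_mul, ← intervalIntegral.integral_const_mul,
        ← intervalIntegral.integral_sub]
      · apply intervalIntegral.integral_congr
        intro t _
        simp only
        ring
      · exact (continuous_const.mul hgc).intervalIntegrable _ _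
      · exact (continuous_const.mul (hgc.mul hSc)).intervalIntegrable _ _
    rw [e2, ← intervalIntegral.integral_sub i1 i2, ← Real.norm_eq_abs]
    have i3 : IntervalIntegrable (fun t => (C1 + 1) * g t) volume V1 V2 :=
      (continuous_const.mul hgc).intervalIntegrable _ _
    refine (intervalIntegral.norm_integral_le_of_norm_le hV
      (Eventually.of_forall fun t ht => ?_) i3).trans (le_of_eq ?_)
    · have e3 : g t * zk T Λ t - g t * (L / 2 - a * S t) =
          g t * (zk T Λ t - (L / 2 - a * S t)) := by ring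
      rw [e3, Real.norm_eq_abs, abs_mul, abs_of_nonneg (hg0 t), mul_comm]
      exact mul_le_mul_of_nonneg_right (hpt t ⟨ht.1.le, ht.2⟩) (hg0 t)
    · rw [intervalIntegral.integral_const_mul]
  -- zero side
  have hint2 : |(∫ t in V1..V2, g t * zk T Λ t) - Real.pi * (∑ᶠ s ∈ ZZ T,
      (mu s : ℝ) * (wt t0 D s.im * ‖PP F c l s.im‖ ^ 2))| ≤ 3 * D := by
    rw [finsum_mem_eq_finite_toFinset_sum _ hfin]
    have e1 : (∫ t in V1..V2, g t * zk T Λ t) =
        ∑ s ∈ hfin.toFinset, (mu s : ℝ) * ∫ t in V1..V2, g t * k s t := by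
      simp_rw [hzk, Finset.mul_sum]
      rw [intervalIntegral.integral_finsetSum]
      · refine Finset.sum_congr rfl fun s _ => ?_
        rw [← intervalIntegral.integral_const_mul]
        apply intervalIntegral.integral_congr
        intro t _
        simp only
        ring
      · intro s _
        exact (hgc.mul (continuous_const.mul (hkc s))).intervalIntegrable _ _
    rw [e1, Finset.mul_sum, ← Finset.sum_sub_distrib]
    have h6 : ∀ s ∈ hfin.toFinset, |(mu s : ℝ) * (∫ t in V1..V2, g t * k s t) -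
        Real.pi * ((mu s : ℝ) * (wt t0 D s.im * ‖PP F c l s.im‖ ^ 2))| ≤
        (mu s : ℝ) * ((∑ i ∈ F, ‖c i‖) ^ 2 * (Λ * (4 * D) *
          Real.exp (-((T / 20) ^ 2 / (4 * D ^ 2))) + 24 * Λ / D + 6 * Real.exp (-(L ^ 2 / 4)))) := by
      intro s _
      have h7 := zero_pt F c l t0 D Λ L s.im V1 V2 (T / 20) hD0 hΛ0 hL0.le (by
        intro i hi j hj
        have := hl i hi j hj
        rw [hΛ]
        linarith) (by positivity) hV ht1 ht2
      have e2 : (mu s : ℝ) * (∫ t in V1..V2, g t * k s t) -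
        Real.pi * ((mu s : ℝ) * (wt t0 D s.im * ‖PP F c l s.im‖ ^ 2)) =
        (mu s : ℝ) * ((∫ t in V1..V2, g t * k s t) -
        Real.pi * (wt t0 D s.im * ‖PP F c l s.im‖ ^ 2)) := by ring
      rw [e2, abs_mul, abs_of_nonneg (by positivity : (0 : ℝ) ≤ mu s)]
      exact mul_le_mul_of_nonneg_left h7 (by positivity)
    refine (Finset.abs_sum_le_sum_abs _ _).trans ((Finset.sum_le_sum h6).trans ?_)
    rw [← Finset.sum_mul]
    have h8 := h2 T hTT2
    rw [finsum_mem_eq_finite_toFinset_sum _ hfin] at h8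
    have h9 : 0 ≤ Λ * (4 * D) * Real.exp (-((T / 20) ^ 2 / (4 * D ^ 2))) + 24 * Λ / D +
        6 * Real.exp (-(L ^ 2 / 4)) := by positivity
    set Cm := max C2 (K + 1) with hCm
    have hCm1 : C2 ≤ Cm := le_max_left _ _
    have hCm2 : K + 1 ≤ Cm := le_max_right _ _
    have hCm0 : 0 < Cm := lt_of_lt_of_le hC2 hCm1
    have hTσ0 : 0 < T ^ σ := Real.rpow_pos_of_pos hTp _
    have hΛm : Λ ≤ Cm * L := by
      rw [hΛ]
      gcongr
    calc (∑ s ∈ hfin.toFinset, (mu s : ℝ)) * ((∑ i ∈ F, ‖c i‖) ^ 2 * (Λ * (4 * D) *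
          Real.exp (-((T / 20) ^ 2 / (4 * D ^ 2))) + 24 * Λ / D + 6 * Real.exp (-(L ^ 2 / 4))))
        ≤ (Cm * (T * L)) * (T ^ σ * (Cm * L * (4 * D) *
          Real.exp (-((T / 20) ^ 2 / (4 * D ^ 2))) + 24 * (Cm * L) / D +
            6 * Real.exp (-(L ^ 2 / 4)))) := by
          gcongr
          exact h8.trans (by gcongr)
      _ ≤ D := herr
      _ ≤ 3 * D := by linarith
  have e9 : Real.pi * (∑ᶠ s ∈ ZZ T, (mu s : ℝ) * (wt t0 D s.im * ‖PP F c l s.im‖ ^ 2)) -
      (L / 2 * I0 - a * (∑' n : ℕ, (ph Λ n : ℂ) * JJ F c l t0 D V1 V2 n).re) =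
      -((∫ t in V1..V2, g t * zk T Λ t) - Real.pi * (∑ᶠ s ∈ ZZ T,
      (mu s : ℝ) * (wt t0 D s.im * ‖PP F c l s.im‖ ^ 2))) +
      ((∫ t in V1..V2, g t * zk T Λ t) - (L / 2 * I0 -
      a * (∑' n : ℕ, (ph Λ n : ℂ) * JJ F c l t0 D V1 V2 n).re)) := by ring
  rw [e9]
  refine (abs_add_le _ _).trans ?_
  rw [abs_neg]
  have h10 : 0 ≤ C1 * D := by positivity
  nlinarith [hint1, hint2]

end Pool.Agent.V7H88.DT
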