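import Pool.Agent.V7H88.DT.A
import Pool.Agent.V7H88.DZ.G2

/-! Twisted mean values of short prime polynomials. -/

set_option autoImplicit false

open Complex Filter Topology Set MeasureTheory

namespace Pool.Agent.V7H88.DT

open Pool.Agent.V7H88.DZ
open SG (hh nn dd dl ord NZ)
open SP (RHs ZZ mu wt Mk Par Eb PS chi qq tt)

/-- the frequencies -/
noncomputable def lg (k : ℕ) : ℝ := Real.log k

theorem freq_sep (B : Finset ℕ) (Y : ℝ) (hB : ∀ p ∈ B, p.Prime ∧ (p : ℝ) ≤ Y) (hY : 1 ≤ Y)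
    (n i j : ℕ) (hn : 2 ≤ n) (hi : i ∈ insert 1 B) (hj : j ∈ insert 1 B)
    (hne : ¬ (i = n ∧ j = 1)) : 1 / (2 * Y ^ 2) ≤ |lg i - lg j - Real.log n| := by
  have hpos : ∀ k ∈ insert 1 B, 1 ≤ k ∧ (k : ℝ) ≤ Y := by
    intro k hk
    rw [Finset.mem_insert] at hk
    rcases hk with rfl | hk
    · exact ⟨le_rfl, by simpa using hY⟩
    · exact ⟨(hB k hk).1.one_lt.le, (hB k hk).2⟩
  obtain ⟨hi1, hiY⟩ := hpos i hi
  obtain ⟨hj1, hjY⟩ := hpos j hj
  have hY2 : 1 ≤ Y ^ 2 := one_le_pow₀ hY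
  have hne2 : i ≠ n * j := by
    intro h
    rw [Finset.mem_insert] at hi
    rcases hi with hi | hi
    · rw [hi] at h
      have : 2 * 1 ≤ n * j := Nat.mul_le_mul hn hj1
      omega
    · have hp := (hB i hi).1
      rw [h, Nat.prime_mul_iff] at hp
      rcases hp with ⟨_, h1⟩ | ⟨_, h1⟩
      · apply hne
        rw [h1, mul_one] at h
        exact ⟨h, h1⟩
      · omega
  have hn0 : (0 : ℝ) < n := by exact_mod_cast (by omega : 0 < n)
  have hj0 : (0 : ℝ) < j := by exact_mod_cast hj1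
  have hi0 : (0 : ℝ) < i := by exact_mod_cast hi1
  rcases le_or_gt (n : ℝ) (2 * Y) with h | h
  · have h1 := log_dist i (n * j) (2 * Y ^ 2) hi1 (by
      have : 1 * 1 ≤ n * j := Nat.mul_le_mul (by omega) hj1
      omega) hne2 (by nlinarith) (by
        push_cast
        calc (n : ℝ) * j ≤ 2 * Y * Y := by gcongr
          _ = _ := by ring)
    have e : lg i - lg j - Real.log n = Real.log i - Real.log ((n * j : ℕ) : ℝ) := by
      unfold lg
      push_cast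
      rw [Real.log_mul hn0.ne' hj0.ne']
      ring
    rw [e]
    exact h1
  · have h1 : Real.log 2 + Real.log Y ≤ Real.log n := by
      rw [← Real.log_mul (by norm_num) (by linarith)]
      exact Real.log_le_log (by positivity) h.le
    have h2 : Real.log i ≤ Real.log Y := Real.log_le_log hi0 hiY
    have h3 : 0 ≤ Real.log j := Real.log_natCast_nonneg j
    have h4 : (1 : ℝ) / 2 ≤ Real.log 2 := by
      have := Real.log_two_gt_d9
      linarith
    have h5 : 1 / (2 * Y ^ 2) ≤ 1 / 2 := by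
      apply one_div_le_one_div_of_le (by norm_num)
      linarith
    have h6 := neg_le_abs (lg i - lg j - Real.log n)
    unfold lg at h6 ⊢
    linarith

/-- twisted mean values of a short prime polynomial -/
theorem JJ_val (B : Finset ℕ) (c : ℕ → ℂ) (Y t0 D V1 V2 R : ℝ)
    (hB : ∀ p ∈ B, p.Prime ∧ (p : ℝ) ≤ Y) (hY : 1 ≤ Y) (hD : 0 < D) (hR : 0 ≤ R) (hV : V1 ≤ V2)
    (h1 : V1 + R ≤ t0) (h2 : t0 + R ≤ V2) (n : ℕ) (hn : 2 ≤ n) :
    ‖JJ (insert 1 B) c lg t0 D V1 V2 n -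
      (if n ∈ B then ((Real.sqrt (2 * Real.pi) * D : ℝ) : ℂ) * (c n * (starRingEnd ℂ) (c 1))
        else 0)‖ ≤
    D * ((∑ i ∈ insert 1 B, ‖c i‖) ^ 2 * (3 * Real.exp (-(D ^ 2 * (1 / (2 * Y ^ 2)) ^ 2 / 2)) +
      4 * Real.exp (-(R ^ 2 / (4 * D ^ 2))))) := by
  classical
  set F := insert 1 B with hF
  set M := (∑ i ∈ F, ‖c i‖) ^ 2 with hM
  set E := Real.exp (-(D ^ 2 * (1 / (2 * Y ^ 2)) ^ 2 / 2)) with hE
  have ht := trunc_gen F c lg t0 D V1 V2 R (Real.log n) hD hR hV h1 h2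
  have hJ : JJ F c lg t0 D V1 V2 n = ∫ t in V1..V2, ((wt t0 D t * ‖PP F c lg t‖ ^ 2 : ℝ) : ℂ) *
      cexp (-(I * ((t * Real.log n : ℝ) : ℂ))) := rfl
  rw [← hJ, full_gen F c lg t0 D (Real.log n) hD] at ht
  have hcase : (if n ∈ B then ((Real.sqrt (2 * Real.pi) * D : ℝ) : ℂ) *
      (c n * (starRingEnd ℂ) (c 1)) else 0) = ∑ i ∈ F, ∑ j ∈ F, if i = n ∧ j = 1 then
        ((Real.sqrt (2 * Real.pi) * D : ℝ) : ℂ) * (c n * (starRingEnd ℂ) (c 1)) else 0 := by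
    have e1 : ∀ i ∈ F, (∑ j ∈ F, if i = n ∧ j = 1 then
        ((Real.sqrt (2 * Real.pi) * D : ℝ) : ℂ) * (c n * (starRingEnd ℂ) (c 1)) else 0) =
        if i = n then ((Real.sqrt (2 * Real.pi) * D : ℝ) : ℂ) *
          (c n * (starRingEnd ℂ) (c 1)) else 0 := by
      intro i _
      by_cases hin : i = n
      · simp only [hin, true_and, if_true]
        rw [Finset.sum_ite_eq' F 1, if_pos (Finset.mem_insert_self _ _)]
      · simp [hin]
    rw [Finset.sum_congr rfl e1, Finset.sum_ite_eq' F n]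
    have e2 : n ∈ F ↔ n ∈ B := by
      rw [hF, Finset.mem_insert]
      constructor
      · rintro (h | h)
        · omega
        · exact h
      · exact Or.inr
    simp only [e2]
  have hfull : ‖(∑ i ∈ F, ∑ j ∈ F, (c i * (starRingEnd ℂ) (c j)) *
      (((D * Real.sqrt (2 * Real.pi) : ℝ) : ℂ) *
        (cexp (I * ((lg i - lg j - Real.log n : ℝ) : ℂ) * t0) *
          ((Real.exp (-(D ^ 2 * (lg i - lg j - Real.log n) ^ 2 / 2)) : ℝ) : ℂ)))) -
      (if n ∈ B then ((Real.sqrt (2 * Real.pi) * D : ℝ) : ℂ) * (c n * (starRingEnd ℂ) (c 1))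
        else 0)‖ ≤ 3 * D * (M * E) := by
    have e3 : 3 * D * (M * E) = ∑ i ∈ F, ∑ j ∈ F, 3 * D * (‖c i‖ * ‖c j‖ * E) := by
      rw [hM, sq, Finset.sum_mul_sum, Finset.sum_mul, Finset.mul_sum]
      refine Finset.sum_congr rfl fun i _ => ?_
      rw [Finset.sum_mul, Finset.mul_sum]
    rw [e3, hcase, ← Finset.sum_sub_distrib]
    refine norm_sum_le_of_le _ fun i hi => ?_
    rw [← Finset.sum_sub_distrib]
    refine norm_sum_le_of_le _ fun j hj => ?_
    by_cases hij : i = n ∧ j = 1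
    · obtain ⟨rfl, rfl⟩ := hij
      rw [if_pos ⟨rfl, rfl⟩]
      have e4 : lg i - lg 1 - Real.log i = 0 := by
        unfold lg
        simp
      have e5 : (c i * (starRingEnd ℂ) (c 1)) * (((D * Real.sqrt (2 * Real.pi) : ℝ) : ℂ) *
          (cexp (I * ((lg i - lg 1 - Real.log i : ℝ) : ℂ) * t0) *
            ((Real.exp (-(D ^ 2 * (lg i - lg 1 - Real.log i) ^ 2 / 2)) : ℝ) : ℂ))) =
          ((Real.sqrt (2 * Real.pi) * D : ℝ) : ℂ) * (c i * (starRingEnd ℂ) (c 1)) := by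
        rw [e4]
        simp
        ring
      rw [e5, sub_self, norm_zero]
      positivity
    · rw [if_neg hij, sub_zero, norm_mul, norm_mul, norm_mul, norm_mul, RCLike.norm_conj,
        norm_osc', Complex.norm_real, Complex.norm_real, Real.norm_of_nonneg (by positivity),
        Real.norm_of_nonneg (Real.exp_pos _).le, one_mul]
      have h3 := freq_sep B Y hB hY n i j hn hi hj hij
      have h4 : Real.exp (-(D ^ 2 * (lg i - lg j - Real.log n) ^ 2 / 2)) ≤ E := by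
        apply Real.exp_le_exp.2
        have h5 : (1 / (2 * Y ^ 2)) ^ 2 ≤ (lg i - lg j - Real.log n) ^ 2 := by
          rw [← sq_abs (lg i - lg j - Real.log n)]
          exact pow_le_pow_left₀ (by positivity) h3 2
        have h6 : D ^ 2 * (1 / (2 * Y ^ 2)) ^ 2 ≤ D ^ 2 * (lg i - lg j - Real.log n) ^ 2 := by
          gcongr
        linarith
      have h5 : Real.sqrt (2 * Real.pi) ≤ 3 := s2pi_le
      calc ‖c i‖ * ‖c j‖ * (D * Real.sqrt (2 * Real.pi) *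
            Real.exp (-(D ^ 2 * (lg i - lg j - Real.log n) ^ 2 / 2)))
          ≤ ‖c i‖ * ‖c j‖ * (D * 3 * E) := by gcongr
        _ = 3 * D * (‖c i‖ * ‖c j‖ * E) := by ring
  calc _ ≤ M * (4 * D) * Real.exp (-(R ^ 2 / (4 * D ^ 2))) + 3 * D * (M * E) := by
        refine le_trans (norm_sub_le_norm_sub_add_norm_sub _ _ _) (add_le_add ht hfull)
    _ = _ := by ring

/-- the mean square of a short prime polynomial -/
theorem PP_msq (B : Finset ℕ) (c : ℕ → ℂ) (Y t0 D V1 V2 R : ℝ)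
    (hB : ∀ p ∈ B, p.Prime ∧ (p : ℝ) ≤ Y) (hY : 1 ≤ Y) (hD : 0 < D) (hR : 0 ≤ R) (hV : V1 ≤ V2)
    (h1 : V1 + R ≤ t0) (h2 : t0 + R ≤ V2) :
    |(∫ t in V1..V2, wt t0 D t * ‖PP (insert 1 B) c lg t‖ ^ 2) -
      Real.sqrt (2 * Real.pi) * D * ∑ i ∈ insert 1 B, ‖c i‖ ^ 2| ≤
    D * ((∑ i ∈ insert 1 B, ‖c i‖) ^ 2 * (3 * Real.exp (-(D ^ 2 * (1 / (2 * Y ^ 2)) ^ 2 / 2)) +
      4 * Real.exp (-(R ^ 2 / (4 * D ^ 2))))) := by
  classical
  set F := insert 1 B with hF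
  set M := (∑ i ∈ F, ‖c i‖) ^ 2 with hM
  have hM0 : 0 ≤ M := sq_nonneg _
  have hpos : ∀ k ∈ F, 1 ≤ k ∧ (k : ℝ) ≤ Y := by
    intro k hk
    rw [hF, Finset.mem_insert] at hk
    rcases hk with rfl | hk
    · exact ⟨le_rfl, by simpa using hY⟩
    · exact ⟨(hB k hk).1.one_lt.le, (hB k hk).2⟩
  have hY2 : Y ≤ 2 * Y ^ 2 := by nlinarith
  have h3 := trunc_gen_sq F c lg t0 D V1 V2 R hD hR hV h1 h2
  have h4 := full_sq F c lg t0 D (1 / (2 * Y ^ 2)) hD (by positivity) (by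
    intro i hi j hj hij
    obtain ⟨a1, a2⟩ := hpos i hi
    obtain ⟨b1, b2⟩ := hpos j hj
    exact log_dist i j (2 * Y ^ 2) a1 b1 hij (a2.trans hY2) (b2.trans hY2))
  have h5 : Real.sqrt (2 * Real.pi) ≤ 3 := s2pi_le
  calc _ ≤ M * (4 * D) * Real.exp (-(R ^ 2 / (4 * D ^ 2))) + Real.sqrt (2 * Real.pi) * D *
        (M * Real.exp (-(D ^ 2 * (1 / (2 * Y ^ 2)) ^ 2 / 2))) :=
        (abs_sub_le _ _ _).trans (add_le_add h3 h4)
    _ ≤ M * (4 * D) * Real.exp (-(R ^ 2 / (4 * D ^ 2))) + 3 * D *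
        (M * Real.exp (-(D ^ 2 * (1 / (2 * Y ^ 2)) ^ 2 / 2))) := by gcongr
    _ = _ := by ring

end Pool.Agent.V7H88.DT
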