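import Pool.Agent.V7H88.DT.B

/-! Mean squares of short prime polynomials over the zeros. -/

set_option autoImplicit false

open Complex Filter Topology Set MeasureTheory

namespace Pool.Agent.V7H88.DT

open Pool.Agent.V7H88.DZ
open SG (hh nn dd dl ord NZ)
open SP (RHs ZZ mu wt Mk Par Eb PS chi qq tt)

theorem ev_pg (a b σ η C : ℝ) (hη : 0 ≤ η) (haη : 2 * η < a) (hb : b < 1) (hC : 0 < C) :
    ∃ T0 : ℝ, 10 ≤ T0 ∧ ∀ T : ℝ, T0 ≤ T → ∀ D : ℝ, T ^ a ≤ D → D ≤ T ^ b →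
    (1 + Real.log T + C * T ^ (4 * (η + 1))) *
      (T ^ σ * (3 * Real.exp (-(D ^ 2 * (1 / (2 * (T ^ η) ^ 2)) ^ 2 / 2)) +
      4 * Real.exp (-((T / 20) ^ 2 / (4 * D ^ 2))))) ≤ 1 := by
  set m : ℝ := 1 + |σ| + 4 * (η + 1) with hm
  have ev1 : ∀ᶠ T : ℝ in atTop, T ^ m * Real.exp (-(1 / 8) * T ^ (2 * a - 4 * η)) ≤
      1 / (6 * (1 + C)) := by
    have h := SG.Deep.tendsto_pow_exp m (1 / 8) (2 * (2 * a - 4 * η)) (by norm_num)
      (by linarith)
    have e : 2 * (2 * a - 4 * η) / 2 = 2 * a - 4 * η := by ring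
    rw [e] at h
    exact (h.eventually_lt_const (by positivity : (0:ℝ) < 1 / (6 * (1 + C)))).mono
      fun T hT => hT.le
  have ev2 : ∀ᶠ T : ℝ in atTop, T ^ m * Real.exp (-(1 / 1600) * T ^ (2 - 2 * b)) ≤
      1 / (8 * (1 + C)) := by
    have h := SG.Deep.tendsto_pow_exp m (1 / 1600) (2 * (2 - 2 * b)) (by norm_num)
      (by linarith)
    have e : 2 * (2 - 2 * b) / 2 = 2 - 2 * b := by ring
    rw [e] at h
    exact (h.eventually_lt_const (by positivity : (0:ℝ) < 1 / (8 * (1 + C)))).mono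
      fun T hT => hT.le
  obtain ⟨T0, hT0⟩ := Filter.eventually_atTop.1 (ev1.and ev2)
  refine ⟨max 10 T0, le_max_left _ _, fun T hT D hD1 hD2 => ?_⟩
  obtain ⟨h1, h2⟩ := hT0 T ((le_max_right _ _).trans hT)
  have hT10 : 10 ≤ T := (le_max_left _ _).trans hT
  have hTp : 0 < T := by linarith
  have hD0 : 0 < D := lt_of_lt_of_le (Real.rpow_pos_of_pos hTp _) hD1
  have hlog : 1 + Real.log T ≤ T := by
    have := Real.log_le_sub_one_of_pos hTp
    linarith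
  have hσ : T ^ σ ≤ T ^ |σ| := Real.rpow_le_rpow_of_exponent_le (by linarith) (le_abs_self σ)
  have hσ0 : 0 < T ^ σ := Real.rpow_pos_of_pos hTp _
  have h4 : 1 ≤ T ^ (4 * (η + 1)) := Real.one_le_rpow (by linarith) (by positivity)
  have hTm : T ^ m = T * T ^ |σ| * T ^ (4 * (η + 1)) := by
    rw [hm, Real.rpow_add hTp, Real.rpow_add hTp, Real.rpow_one]
  have hσ1 : 1 ≤ T ^ |σ| := Real.one_le_rpow (by linarith) (abs_nonneg _)
  have hlog0 : 0 ≤ Real.log T := Real.log_nonneg (by linarith)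
  have hpre : (1 + Real.log T + C * T ^ (4 * (η + 1))) * T ^ σ ≤ (1 + C) * T ^ m := by
    rw [hTm]
    calc (1 + Real.log T + C * T ^ (4 * (η + 1))) * T ^ σ
        ≤ (T * T ^ (4 * (η + 1)) + C * (T * T ^ (4 * (η + 1)))) * T ^ |σ| := by
          have h5 : T ^ (4 * (η + 1)) ≤ T * T ^ (4 * (η + 1)) :=
            le_mul_of_one_le_left (by positivity) (by linarith)
          have h6 : 1 + Real.log T ≤ T * T ^ (4 * (η + 1)) :=
            hlog.trans (le_mul_of_one_le_right hTp.le h4)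
          gcongr
      _ = _ := by ring
  have e1 : Real.exp (-(D ^ 2 * (1 / (2 * (T ^ η) ^ 2)) ^ 2 / 2)) ≤
      Real.exp (-(1 / 8) * T ^ (2 * a - 4 * η)) := by
    apply Real.exp_le_exp.2
    have h5 : T ^ (2 * a - 4 * η) * (T ^ η) ^ 4 ≤ D ^ 2 := by
      calc T ^ (2 * a - 4 * η) * (T ^ η) ^ 4 = (T ^ a) ^ 2 := by
            rw [← Real.rpow_natCast (T ^ η), ← Real.rpow_mul hTp.le, ← Real.rpow_add hTp,
              ← Real.rpow_natCast, ← Real.rpow_mul hTp.le]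
            congr 1
            push_cast
            ring
        _ ≤ D ^ 2 := by gcongr
    have h6 : 0 < T ^ η := Real.rpow_pos_of_pos hTp _
    have e2 : D ^ 2 * (1 / (2 * (T ^ η) ^ 2)) ^ 2 / 2 = D ^ 2 / (T ^ η) ^ 4 / 8 := by
      field_simp
      norm_num
    rw [e2]
    have h7 : T ^ (2 * a - 4 * η) ≤ D ^ 2 / (T ^ η) ^ 4 := by
      rw [le_div_iff₀ (by positivity)]
      exact h5
    linarith
  have e2 : Real.exp (-((T / 20) ^ 2 / (4 * D ^ 2))) ≤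
      Real.exp (-(1 / 1600) * T ^ (2 - 2 * b)) := by
    apply Real.exp_le_exp.2
    have h7 : D ^ 2 * T ^ (2 - 2 * b) ≤ T ^ 2 := by
      have h8 : D ^ 2 ≤ T ^ (2 * b) := by
        have h9 := pow_le_pow_left₀ hD0.le hD2 2
        refine h9.trans (le_of_eq ?_)
        rw [← Real.rpow_natCast, ← Real.rpow_mul hTp.le]
        congr 1
        push_cast
        ring
      calc D ^ 2 * T ^ (2 - 2 * b) ≤ T ^ (2 * b) * T ^ (2 - 2 * b) := by gcongr
        _ = T ^ 2 := by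
          rw [← Real.rpow_add hTp, ← Real.rpow_natCast]
          congr 1
          push_cast
          ring
    have h8 : (1 / 1600) * T ^ (2 - 2 * b) ≤ (T / 20) ^ 2 / (4 * D ^ 2) := by
      rw [le_div_iff₀ (by positivity)]
      calc 1 / 1600 * T ^ (2 - 2 * b) * (4 * D ^ 2) = 1 / 400 * (D ^ 2 * T ^ (2 - 2 * b)) := by ring
        _ ≤ 1 / 400 * T ^ 2 := by gcongr
        _ = _ := by ring
    linarith
  calc (1 + Real.log T + C * T ^ (4 * (η + 1))) *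
      (T ^ σ * (3 * Real.exp (-(D ^ 2 * (1 / (2 * (T ^ η) ^ 2)) ^ 2 / 2)) +
      4 * Real.exp (-((T / 20) ^ 2 / (4 * D ^ 2)))))
      = (1 + Real.log T + C * T ^ (4 * (η + 1))) * T ^ σ *
      (3 * Real.exp (-(D ^ 2 * (1 / (2 * (T ^ η) ^ 2)) ^ 2 / 2)) +
      4 * Real.exp (-((T / 20) ^ 2 / (4 * D ^ 2)))) := by ring
    _ ≤ (1 + C) * T ^ m * (3 * Real.exp (-(1 / 8) * T ^ (2 * a - 4 * η)) +
      4 * Real.exp (-(1 / 1600) * T ^ (2 - 2 * b))) := by gcongr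
    _ = (1 + C) * (3 * (T ^ m * Real.exp (-(1 / 8) * T ^ (2 * a - 4 * η))) +
      4 * (T ^ m * Real.exp (-(1 / 1600) * T ^ (2 - 2 * b)))) := by ring
    _ ≤ (1 + C) * (3 * (1 / (6 * (1 + C))) + 4 * (1 / (8 * (1 + C)))) := by gcongr
    _ = 1 := by
      field_simp
      norm_num

/-- the mean square of a short prime polynomial over the zeros -/
theorem pgen (hRH : RHs) (a b σ η : ℝ) (hη : 0 ≤ η) (haη : 2 * η < a) (hb : b < 1)
    (hσ : 1 + σ < 2 * a) : ∃ C T0 : ℝ, 0 < C ∧ 10 ≤ T0 ∧ ∀ T : ℝ, T0 ≤ T →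
    ∀ (B : Finset ℕ) (c : ℕ → ℂ) (t0 D : ℝ), (∀ p ∈ B, p.Prime ∧ (p : ℝ) ≤ T ^ η) →
    (∑ i ∈ insert 1 B, ‖c i‖) ^ 2 ≤ T ^ σ →
    T ^ a ≤ D → D ≤ T ^ b → T + Real.log T + T / 20 ≤ t0 →
    t0 + T / 20 ≤ 2 * T - Real.log T →
    |Real.pi * (∑ᶠ s ∈ ZZ T, (mu s : ℝ) * (wt t0 D s.im * ‖PP (insert 1 B) c lg s.im‖ ^ 2)) -
      (Real.sqrt (2 * Real.pi) * D * (Real.log T / 2) * ∑ i ∈ insert 1 B, ‖c i‖ ^ 2 -
      D * ∑ p ∈ B, ph ((η + 1) * Real.log T) p * (c p * (starRingEnd ℂ) (c 1)).re)| ≤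
    C * D * (1 + ∑ i ∈ insert 1 B, ‖c i‖ ^ 2) := by
  classical
  obtain ⟨C1, T1, hC1, hT1, hloc⟩ := loc2 hRH a b σ η (by linarith) hb hσ hη
  obtain ⟨C4, hC4, htot⟩ := ph_tot
  obtain ⟨T2, hT2, hev⟩ := ev_pg a b σ η C4 hη haη hb hC4
  refine ⟨4 * C1 + 2, max T1 T2, by positivity, hT1.trans (le_max_left _ _), ?_⟩
  intro T hT B c t0 D hB hM hD1 hD2 ht1 ht2
  have hTT1 : T1 ≤ T := (le_max_left _ _).trans hT
  have hTT2 : T2 ≤ T := (le_max_right _ _).trans hT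
  have hT10 : 10 ≤ T := hT1.trans hTT1
  have hTp : 0 < T := by linarith
  have hD0 : 0 < D := lt_of_lt_of_le (Real.rpow_pos_of_pos hTp _) hD1
  have hY : 1 ≤ T ^ η := Real.one_le_rpow (by linarith) hη
  have herr := hev T hTT2 D hD1 hD2
  set L := Real.log T with hL
  have hL1 : 1 ≤ L := by
    rw [hL, Real.le_log_iff_exp_le hTp]
    linarith [Real.exp_one_lt_d9]
  have hL0 : 0 < L := by linarith
  set F := insert 1 B with hF
  set M := (∑ i ∈ F, ‖c i‖) ^ 2 with hMdef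
  have hM0 : 0 ≤ M := sq_nonneg _
  set S2 := ∑ i ∈ F, ‖c i‖ ^ 2 with hS2
  have hS20 : 0 ≤ S2 := Finset.sum_nonneg fun _ _ => sq_nonneg _
  have hfr : ∀ i ∈ F, 0 ≤ lg i ∧ lg i ≤ η * L := by
    intro i hi
    rw [hF, Finset.mem_insert] at hi
    unfold lg
    rcases hi with rfl | hi
    · simp
      positivity
    · obtain ⟨h1, h2⟩ := hB i hi
      refine ⟨Real.log_natCast_nonneg _, ?_⟩
      rw [hL, ← Real.log_rpow hTp]
      exact Real.log_le_log (by exact_mod_cast h1.pos) h2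
  have hlK : ∀ i ∈ F, ∀ j ∈ F, |lg i - lg j| ≤ η * L := by
    intro i hi j hj
    obtain ⟨a1, a2⟩ := hfr i hi
    obtain ⟨b1, b2⟩ := hfr j hj
    rw [abs_le]
    constructor <;> linarith
  have hmain := hloc T hTT1 ℕ F c lg t0 D hM hlK hD1 hD2 ht1 ht2
  have hV : T + L ≤ 2 * T - L := by linarith
  have hmsq := PP_msq B c (T ^ η) t0 D (T + L) (2 * T - L) (T / 20) hB hY hD0 (by positivity) hV
    ht1 ht2
  rw [← hF, ← hMdef, ← hS2] at hmsq
  set er : ℝ := M * (3 * Real.exp (-(D ^ 2 * (1 / (2 * (T ^ η) ^ 2)) ^ 2 / 2)) +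
      4 * Real.exp (-((T / 20) ^ 2 / (4 * D ^ 2)))) with her
  have her0 : 0 ≤ er := by positivity
  have herr2 : (1 + L + C4 * T ^ (4 * (η + 1))) * er ≤ 1 := by
    refine le_trans (mul_le_mul_of_nonneg_left ?_ (by positivity)) herr
    rw [her]
    exact mul_le_mul_of_nonneg_right hM (by positivity)
  have hw0 : 0 ≤ C4 * T ^ (4 * (η + 1)) := by positivity
  have her1 : er ≤ 1 := by nlinarith
  have her2 : L * er ≤ 1 := by nlinarith
  have her3 : C4 * T ^ (4 * (η + 1)) * er ≤ 1 := by nlinarith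
  set Λ := (η + 1) * L with hΛ
  have hΛ0 : 0 ≤ Λ := by positivity
  set s := Real.sqrt (2 * Real.pi) with hs
  have hs2 : 2 ≤ s := s2pi_ge
  have hs3 : s ≤ 3 := s2pi_le
  have hs0 : 0 < s := by linarith
  set J := JJ F c lg t0 D (T + L) (2 * T - L) with hJ
  set e : ℕ → ℂ := fun n => if n ∈ B then ((s * D : ℝ) : ℂ) * (c n * (starRingEnd ℂ) (c 1))
    else 0 with he
  have hJn : ∀ n : ℕ, 2 ≤ n → ‖J n - e n‖ ≤ D * er := fun n hn =>
    JJ_val B c (T ^ η) t0 D (T + L) (2 * T - L) (T / 20) hB hY hD0 (by positivity) hV ht1 ht2 n hn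
  have hph : ∀ n : ℕ, n < 2 → ph Λ n = 0 := by
    intro n hn
    unfold ph
    interval_cases n <;> simp
  have hphs := ph_sum Λ hΛ0
  have hph0 := ph_nn Λ hΛ0
  have hbd : ∀ n, ‖(ph Λ n : ℂ) * (J n - e n)‖ ≤ ph Λ n * (D * er) := by
    intro n
    rw [norm_mul, Complex.norm_real, Real.norm_of_nonneg (hph0 n)]
    rcases lt_or_ge n 2 with h | h
    · rw [hph n h]
      simp
    · exact mul_le_mul_of_nonneg_left (hJn n h) (hph0 n)
  have hsm1 : Summable (fun n => (ph Λ n : ℂ) * (J n - e n)) :=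
    Summable.of_norm_bounded (hphs.mul_right (D * er)) hbd
  have hz2 : ∀ n ∉ B, (ph Λ n : ℂ) * e n = 0 := by
    intro n hn
    rw [he]
    simp [hn]
  have hsm2 : Summable (fun n => (ph Λ n : ℂ) * e n) := summable_of_ne_finset_zero (s := B) hz2
  have hsplit : ∑' n, (ph Λ n : ℂ) * J n = ∑' n, (ph Λ n : ℂ) * (J n - e n) +
      ∑ p ∈ B, (ph Λ p : ℂ) * e p := by
    have h0 : ∑' n, (ph Λ n : ℂ) * e n = ∑ p ∈ B, (ph Λ p : ℂ) * e p :=
      tsum_eq_sum (fun n hn => hz2 n hn)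
    rw [← h0, ← hsm1.tsum_add hsm2]
    refine tsum_congr fun n => ?_
    ring
  have hrem : ‖∑' n, (ph Λ n : ℂ) * (J n - e n)‖ ≤ D := by
    have h1 : ‖∑' n, (ph Λ n : ℂ) * (J n - e n)‖ ≤ ∑' n, ph Λ n * (D * er) :=
      tsum_of_norm_bounded (hphs.mul_right (D * er)).hasSum hbd
    rw [tsum_mul_right] at h1
    have h2 := htot Λ hΛ0
    have h3 : Real.exp (4 * Λ) = T ^ (4 * (η + 1)) := by
      rw [Real.rpow_def_of_pos hTp, hΛ]
      congr 1
      ring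
    rw [h3] at h2
    calc _ ≤ (∑' n, ph Λ n) * (D * er) := h1
      _ ≤ C4 * T ^ (4 * (η + 1)) * (D * er) := by gcongr
      _ = D * (C4 * T ^ (4 * (η + 1)) * er) := by ring
      _ ≤ D * 1 := by gcongr
      _ = D := mul_one D
  have hfin : (∑ p ∈ B, (ph Λ p : ℂ) * e p).re =
      s * (D * ∑ p ∈ B, ph Λ p * (c p * (starRingEnd ℂ) (c 1)).re) := by
    rw [Complex.re_sum, Finset.mul_sum, Finset.mul_sum]
    refine Finset.sum_congr rfl fun p hp => ?_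
    rw [he]
    simp only [hp, if_true]
    rw [Complex.re_ofReal_mul, Complex.re_ofReal_mul]
    ring
  set I0 := ∫ t in (T + L)..(2 * T - L), wt t0 D t * ‖PP F c lg t‖ ^ 2 with hI0
  set Z := Real.pi * (∑ᶠ s ∈ ZZ T, (mu s : ℝ) * (wt t0 D s.im * ‖PP F c lg s.im‖ ^ 2)) with hZ
  set W := D * ∑ p ∈ B, ph Λ p * (c p * (starRingEnd ℂ) (c 1)).re with hW
  set Q := (∑' n, (ph Λ n : ℂ) * (J n - e n)).re with hQ
  have hQ1 : |Q| ≤ D := (Complex.abs_re_le_norm _).trans hrem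
  have hre : (∑' n, (ph Λ n : ℂ) * J n).re = Q + s * W := by
    rw [hsplit, Complex.add_re, hfin]
  rw [hre] at hmain
  clear_value I0 Z W Q J S2 er s
  clear hsplit hfin hrem hbd hJn hloc htot hev hsm1 hsm2 hz2 hph0 hphs hph
  have e1 : 1 / s * (Q + s * W) = Q / s + W := by field_simp
  rw [e1] at hmain
  have hQs : |Q / s| ≤ D := by
    rw [abs_div, abs_of_pos hs0, div_le_iff₀ hs0]
    calc |Q| ≤ D := hQ1
      _ ≤ D * s := le_mul_of_one_le_right hD0.le (by linarith)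
  have hI1 : |I0 - s * D * S2| ≤ D * er := hmsq
  have hI2 : L / 2 * |I0 - s * D * S2| ≤ D := by
    calc L / 2 * |I0 - s * D * S2| ≤ L / 2 * (D * er) := by gcongr
      _ = D / 2 * (L * er) := by ring
      _ ≤ D / 2 * 1 := by gcongr
      _ ≤ D := by linarith
  have hI3 : I0 ≤ 3 * D * S2 + D := by
    have h1 := (abs_le.1 hI1).2
    have h2 : D * er ≤ D := mul_le_of_le_one_right hD0.le her1
    have h3 : s * D * S2 ≤ 3 * D * S2 := by gcongr
    linarith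
  have hI4 : |L / 2 * I0 - L / 2 * (s * D * S2)| ≤ D := by
    rw [← mul_sub, abs_mul, abs_of_pos (by positivity : (0 : ℝ) < L / 2)]
    exact hI2
  have hC1' : C1 * (I0 + D) ≤ C1 * (3 * D * S2 + D + D) := by gcongr
  have hfinal : |Z - (s * D * (L / 2) * S2 - W)| ≤ C1 * (3 * D * S2 + D + D) + D + D := by
    have e2 : Z - (s * D * (L / 2) * S2 - W) = (Z - (L / 2 * I0 - (Q / s + W))) +
        (L / 2 * I0 - L / 2 * (s * D * S2)) + (-(Q / s)) := by ring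
    rw [e2]
    have h5 : |-(Q / s)| ≤ D := by rwa [abs_neg]
    calc _ ≤ |Z - (L / 2 * I0 - (Q / s + W))| + |L / 2 * I0 - L / 2 * (s * D * S2)| +
          |-(Q / s)| := (abs_add_le _ _).trans (add_le_add (abs_add_le _ _) le_rfl)
      _ ≤ _ := add_le_add (add_le_add (hmain.trans hC1') hI4) h5
  refine hfinal.trans ?_
  have h6 : 0 ≤ C1 * D * S2 := by positivity
  have h7 : 0 ≤ C1 * D := by positivity
  have h8 : 0 ≤ D * S2 := by positivity
  nlinarith only [h6, h7, h8, hD0]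

end Pool.Agent.V7H88.DT
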