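import Pool.Agent.Helper601.BT
import Pool.Agent.Helper923.HMertens

/-! Primes `p` with `p^{it}` away from `1`: small and medium `t`. -/

set_option autoImplicit false

open Filter Topology Set

namespace Pool.Agent.V7H88.DT

/-- the primes with `a < log p ≤ b` -/
noncomputable def Bl (a b : ℝ) : Finset ℕ :=
  (Finset.Icc 1 ⌊Real.exp b⌋₊).filter (fun p => p.Prime ∧ a < Real.log p)

theorem mem_Bl {a b : ℝ} {p : ℕ} : p ∈ Bl a b ↔ p.Prime ∧ a < Real.log p ∧ Real.log p ≤ b := by
  unfold Bl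
  rw [Finset.mem_filter, Finset.mem_Icc]
  constructor
  · rintro ⟨⟨h1, h2⟩, h3, h4⟩
    refine ⟨h3, h4, ?_⟩
    rw [Real.log_le_iff_le_exp (by exact_mod_cast h1)]
    exact (Nat.le_floor_iff (Real.exp_pos _).le).1 h2
  · rintro ⟨h1, h2, h3⟩
    refine ⟨⟨h1.pos, ?_⟩, h1, h2⟩
    rw [Nat.le_floor_iff (Real.exp_pos _).le]
    rwa [Real.log_le_iff_le_exp (by exact_mod_cast h1.pos)] at h3

/-- the logarithmic mass -/
noncomputable def ms (S : Finset ℕ) : ℝ := ∑ p ∈ S, Real.log p / p

theorem lp_nn (p : ℕ) : 0 ≤ Real.log p / p := by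
  have : 0 ≤ Real.log p := Real.log_natCast_nonneg p
  positivity

theorem ms_mono {S S' : Finset ℕ} (h : S ⊆ S') : ms S ≤ ms S' :=
  Finset.sum_le_sum_of_subset_of_nonneg h fun p _ _ => lp_nn p

theorem ms_Bl : ∃ C : ℝ, 1 ≤ C ∧ ∀ a b : ℝ, 0 ≤ a → a ≤ b →
    b - a - C ≤ ms (Bl a b) ∧ ms (Bl a b) ≤ b - a + C := by
  obtain ⟨C0, hC0⟩ := Pool.Agent.Helper923.HMertens.mertens_log
  have hC00 : 0 ≤ C0 := (abs_nonneg _).trans (hC0 1 le_rfl)
  refine ⟨2 * C0 + 1, by linarith, fun a b ha hab => ?_⟩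
  have hdist : ∀ x : ℝ, 0 ≤ x → x - 1 ≤ Real.log ⌊Real.exp x⌋₊ ∧ Real.log ⌊Real.exp x⌋₊ ≤ x ∧
      1 ≤ ⌊Real.exp x⌋₊ := by
    intro x hx
    have h1 : 1 ≤ Real.exp x := Real.one_le_exp hx
    have h2 : 1 ≤ ⌊Real.exp x⌋₊ := Nat.le_floor (by simpa using h1)
    have h3 : (1 : ℝ) ≤ ⌊Real.exp x⌋₊ := by exact_mod_cast h2
    refine ⟨?_, ?_, h2⟩
    · rw [Real.le_log_iff_exp_le (by linarith)]
      have h4 := Nat.lt_floor_add_one (Real.exp x)
      have h5 : Real.exp (x - 1) = Real.exp x * Real.exp (-1) := by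
        rw [← Real.exp_add]
        congr 1
      have h6 : Real.exp (-1) ≤ 1 / 2 := by
        rw [Real.exp_neg, ← one_div]
        apply one_div_le_one_div_of_le (by norm_num)
        linarith [Real.exp_one_gt_d9]
      rw [h5]
      have h7 := Real.exp_pos x
      nlinarith
    · rw [Real.log_le_iff_le_exp (by linarith)]
      exact Nat.floor_le (Real.exp_pos _).le
  obtain ⟨a1, a2, a3⟩ := hdist a ha
  obtain ⟨b1, b2, b3⟩ := hdist b (ha.trans hab)
  have e : ∑ p ∈ (Finset.Icc 1 ⌊Real.exp b⌋₊).filter Nat.Prime, Real.log p / p =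
      ∑ p ∈ (Finset.Icc 1 ⌊Real.exp a⌋₊).filter Nat.Prime, Real.log p / p + ms (Bl a b) := by
    unfold ms
    rw [← Finset.sum_union]
    · apply Finset.sum_congr _ (fun _ _ => rfl)
      ext p
      rw [Finset.mem_union, mem_Bl, Finset.mem_filter, Finset.mem_filter, Finset.mem_Icc,
        Finset.mem_Icc]
      constructor
      · rintro ⟨⟨h1, h2⟩, h3⟩
        have hp0 : (0 : ℝ) < p := by exact_mod_cast h1
        have h4 : Real.log p ≤ b := by
          rw [Real.log_le_iff_le_exp hp0]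
          exact (Nat.le_floor_iff (Real.exp_pos _).le).1 h2
        rcases le_or_gt (Real.log p) a with h | h
        · left
          refine ⟨⟨h1, ?_⟩, h3⟩
          rw [Nat.le_floor_iff (Real.exp_pos _).le]
          rwa [Real.log_le_iff_le_exp hp0] at h
        · right
          exact ⟨h3, h, h4⟩
      · rintro (⟨⟨h1, h2⟩, h3⟩ | ⟨h1, h2, h3⟩)
        · exact ⟨⟨h1, h2.trans (Nat.floor_le_floor (Real.exp_le_exp.2 hab))⟩, h3⟩
        · refine ⟨⟨h1.pos, ?_⟩, h1⟩
          rw [Nat.le_floor_iff (Real.exp_pos _).le]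
          rwa [Real.log_le_iff_le_exp (by exact_mod_cast h1.pos)] at h3
    · rw [Finset.disjoint_left]
      intro p hp hp'
      rw [Finset.mem_filter, Finset.mem_Icc] at hp
      rw [mem_Bl] at hp'
      have h1 : (p : ℝ) ≤ Real.exp a := (Nat.le_floor_iff (Real.exp_pos _).le).1 hp.1.2
      have h2 : Real.log p ≤ a := by
        rw [Real.log_le_iff_le_exp (by exact_mod_cast hp.1.1)]
        exact h1
      linarith [hp'.2.1]
  have h1 := abs_le.1 (hC0 _ a3)
  have h2 := abs_le.1 (hC0 _ b3)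
  rw [e] at h2
  constructor <;> linarith [h1.1, h1.2, h2.1, h2.2]

theorem sin_mul (m : ℕ) (y : ℝ) : |Real.sin (m * y)| ≤ m * |Real.sin y| := by
  induction m with
  | zero => simp
  | succ m ih =>
    have e : ((m + 1 : ℕ) : ℝ) * y = m * y + y := by
      push_cast
      ring
    rw [e, Real.sin_add]
    calc |Real.sin (m * y) * Real.cos y + Real.cos (m * y) * Real.sin y|
        ≤ |Real.sin (m * y) * Real.cos y| + |Real.cos (m * y) * Real.sin y| := abs_add_le _ _
      _ ≤ |Real.sin (m * y)| * 1 + 1 * |Real.sin y| := by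
          rw [abs_mul, abs_mul]
          have h1 := Real.abs_cos_le_one y
          have h2 := Real.abs_cos_le_one (m * y)
          gcongr
      _ ≤ m * |Real.sin y| + |Real.sin y| := by linarith
      _ = _ := by
          push_cast
          ring

theorem cos_mul (m : ℕ) (x : ℝ) : 1 - Real.cos (m * x) ≤ (m : ℝ) ^ 2 * (1 - Real.cos x) := by
  have h := sin_mul m (x / 2)
  have h1 := pow_le_pow_left₀ (abs_nonneg _) h 2
  rw [sq_abs, mul_pow, sq_abs] at h1
  have e1 : 1 - Real.cos (m * x) = 2 * Real.sin (m * (x / 2)) ^ 2 := by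
    have : (m : ℝ) * x = 2 * (m * (x / 2)) := by ring
    rw [this, Real.cos_two_mul]
    have := Real.sin_sq_add_cos_sq (m * (x / 2))
    linarith
  have e2 : 1 - Real.cos x = 2 * Real.sin (x / 2) ^ 2 := by
    have : x = 2 * (x / 2) := by ring
    rw [this, Real.cos_two_mul]
    have h3 := Real.sin_sq_add_cos_sq (x / 2)
    have e3 : 2 * (x / 2) / 2 = x / 2 := by ring
    rw [e3]
    linarith
  rw [e1, e2]
  linarith

/-- the theorem of Brun and Titchmarsh for a short interval of `log p` -/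
theorem bt_log : ∃ C : ℝ, 1 ≤ C ∧ ∀ v h : ℝ, 6 ≤ v → 0 < h → h ≤ 1 → Real.exp (-(2 / 3 * v)) ≤ h →
    ∀ S : Finset ℕ, (∀ p ∈ S, p.Prime ∧ v < Real.log p ∧ Real.log p ≤ v + h) → ms S ≤ C * h := by
  obtain ⟨C, hC, hbt⟩ := Pool.Agent.Helper601.brun_titchmarsh
  refine ⟨36 * C, by linarith, fun v h hv hh hh1 hhv S hS => ?_⟩
  have hev : 0 < Real.exp v := Real.exp_pos v
  set A := ⌊Real.exp v⌋₊ with hA
  set N := ⌊Real.exp v * (2 * h)⌋₊ + 2 with hN
  have hAle : (A : ℝ) ≤ Real.exp v := Nat.floor_le hev.le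
  have hAlt : Real.exp v < A + 1 := Nat.lt_floor_add_one _
  have hhev : Real.exp (v / 3) ≤ h * Real.exp v := by
    calc Real.exp (v / 3) = Real.exp (-(2 / 3 * v)) * Real.exp v := by
          rw [← Real.exp_add]
          congr 1
          ring
      _ ≤ _ := by gcongr
  have h3 : 3 ≤ Real.exp (v / 3) := by
    have := Real.add_one_le_exp (v / 3)
    linarith
  have hNle : (N : ℝ) ≤ 3 * (h * Real.exp v) := by
    rw [hN]
    push_cast
    have := Nat.floor_le (show 0 ≤ Real.exp v * (2 * h) by positivity)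
    linarith
  have hNge : Real.exp (v / 3) ≤ N := by
    rw [hN]
    push_cast
    have := Nat.lt_floor_add_one (Real.exp v * (2 * h))
    nlinarith
  have hexp : Real.exp (v + h) ≤ Real.exp v + Real.exp v * (2 * h) := by
    have h4 : Real.exp h ≤ 1 + 2 * h := by
      have h5 := Real.abs_exp_sub_one_sub_id_le (x := h) (by rw [abs_of_pos hh]; exact hh1)
      have h6 := (abs_le.1 h5).2
      nlinarith
    rw [Real.exp_add]
    nlinarith
  have hcard : (S.card : ℝ) ≤ C * N / Real.log N := by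
    refine le_trans ?_ (hbt A 1 N (by omega) (Or.inl rfl))
    norm_cast
    refine Finset.card_le_card_of_injOn (fun p => p - A) ?_ ?_
    · intro p hp
      obtain ⟨a1, a2, a3⟩ := hS p hp
      have hp0 : (0 : ℝ) < p := by exact_mod_cast a1.pos
      rw [Real.lt_log_iff_exp_lt hp0] at a2
      rw [Real.log_le_iff_le_exp hp0] at a3
      have h5 : A ≤ p := by
        have : (A : ℝ) ≤ p := hAle.trans a2.le
        exact_mod_cast this
      rw [Finset.mem_coe, Finset.mem_filter, Finset.mem_range]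
      refine ⟨?_, ?_⟩
      · have h6 : ((p - A : ℕ) : ℝ) < N := by
          rw [Nat.cast_sub h5, hN]
          push_cast
          have := Nat.lt_floor_add_one (Real.exp v * (2 * h))
          linarith
        exact_mod_cast h6
      · rw [mul_one, Nat.add_sub_cancel' h5]
        exact a1
    · intro p hp q hq hpq
      obtain ⟨a1, a2, -⟩ := hS p hp
      obtain ⟨b1, b2, -⟩ := hS q hq
      have hp0 : (0 : ℝ) < p := by exact_mod_cast a1.pos
      have hq0 : (0 : ℝ) < q := by exact_mod_cast b1.pos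
      rw [Real.lt_log_iff_exp_lt hp0] at a2
      rw [Real.lt_log_iff_exp_lt hq0] at b2
      have h5 : A ≤ p := by
        have : (A : ℝ) ≤ p := hAle.trans a2.le
        exact_mod_cast this
      have h6 : A ≤ q := by
        have : (A : ℝ) ≤ q := hAle.trans b2.le
        exact_mod_cast this
      simp only at hpq
      omega
  have hlogN : v / 3 ≤ Real.log N := by
    rw [Real.le_log_iff_exp_le (lt_of_lt_of_le (Real.exp_pos _) hNge)]
    exact hNge
  have hterm : ∀ p ∈ S, Real.log p / p ≤ (v + 1) * Real.exp (-v) := by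
    intro p hp
    obtain ⟨a1, a2, a3⟩ := hS p hp
    have hp0 : (0 : ℝ) < p := by exact_mod_cast a1.pos
    rw [Real.lt_log_iff_exp_lt hp0] at a2
    rw [div_eq_mul_inv]
    have h5 : (p : ℝ)⁻¹ ≤ Real.exp (-v) := by
      rw [Real.exp_neg]
      exact inv_anti₀ hev a2.le
    have h6 : 0 ≤ Real.log p := Real.log_natCast_nonneg p
    exact mul_le_mul (by linarith) h5 (by positivity) (by linarith)
  have hv0 : 0 < v := by linarith
  have hC0 : 0 < C := by linarith
  calc ms S ≤ ∑ p ∈ S, (v + 1) * Real.exp (-v) := Finset.sum_le_sum hterm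
    _ = S.card * ((v + 1) * Real.exp (-v)) := by rw [Finset.sum_const, nsmul_eq_mul]
    _ ≤ (C * N / Real.log N) * ((v + 1) * Real.exp (-v)) := by gcongr
    _ ≤ (C * (3 * (h * Real.exp v)) / (v / 3)) * ((v + 1) * Real.exp (-v)) := by gcongr
    _ = 9 * C * h * ((v + 1) / v) * (Real.exp v * Real.exp (-v)) := by
        field_simp
        ring
    _ = 9 * C * h * ((v + 1) / v) := by
        rw [← Real.exp_add, add_neg_cancel, Real.exp_zero, mul_one]
    _ ≤ 9 * C * h * 4 := by
        have : (v + 1) / v ≤ 4 := by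
          rw [div_le_iff₀ hv0]
          linarith
        gcongr
    _ = 36 * C * h := by ring

theorem fib (α : ℝ) (hα : 0 < α) : ∃ C : ℝ, 1 ≤ C ∧ ∀ ε : ℝ, 0 < ε → ε ≤ 1 → ∃ L0 : ℝ, 1 ≤ L0 ∧
    ∀ L : ℝ, L0 ≤ L → ∀ t : ℝ, 0 < t → t ≤ Real.exp (α * L / 2) → ∀ w : ℝ, ∀ S : Finset ℕ,
    (∀ p ∈ S, p.Prime ∧ α * L < Real.log p ∧ |t * Real.log p - w| < ε) →
    ms S ≤ C * ε / t := by
  obtain ⟨C0, hC0, hBl⟩ := ms_Bl
  obtain ⟨C1, hC1, hbtl⟩ := bt_log
  refine ⟨2 * (1 + C0) + 2 * C1, by linarith, fun ε hε hε1 => ?_⟩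
  have ev : ∀ᶠ L : ℝ in atTop, 6 ≤ α * L - 1 ∧
      Real.exp (-(2 / 3 * (α * L - 1))) ≤ 2 * ε * Real.exp (-(α * L / 2)) := by
    have h1 : Tendsto (fun L : ℝ => α * L) atTop atTop := tendsto_id.const_mul_atTop hα
    filter_upwards [h1.eventually_ge_atTop 7,
      h1.eventually_ge_atTop (6 * (2 / 3 - Real.log (2 * ε)))] with L x1 x2
    refine ⟨by linarith, ?_⟩
    have h2 : 2 * ε = Real.exp (Real.log (2 * ε)) := (Real.exp_log (by positivity)).symm
    rw [h2, ← Real.exp_add]
    apply Real.exp_le_exp.2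
    linarith
  obtain ⟨L1, hL1⟩ := Filter.eventually_atTop.1 ev
  refine ⟨max L1 1, le_max_right _ _, ?_⟩
  intro L hL t ht ht2 w S hS
  obtain ⟨x1, x2⟩ := hL1 L ((le_max_left _ _).trans hL)
  rcases S.eq_empty_or_nonempty with h | ⟨q, hq⟩
  · rw [h]
    unfold ms
    rw [Finset.sum_empty]
    positivity
  have hpos : 0 < ε / t := by positivity
  have hloc : ∀ p ∈ S, (w - ε) / t ≤ Real.log p ∧ (w - ε) / t < Real.log p ∧
      Real.log p ≤ (w - ε) / t + 2 * ε / t := by
    intro p hp
    obtain ⟨-, -, h3⟩ := hS p hp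
    rw [abs_lt] at h3
    have e1 : (w - ε) / t + 2 * ε / t = (w + ε) / t := by
      field_simp
      ring
    rw [e1]
    refine ⟨?_, ?_, ?_⟩
    · rw [div_le_iff₀ ht]
      linarith [mul_comm t (Real.log p)]
    · rw [div_lt_iff₀ ht]
      linarith [mul_comm t (Real.log p)]
    · rw [le_div_iff₀ ht]
      linarith [mul_comm t (Real.log p)]
  set v := (w - ε) / t with hv
  set h := 2 * ε / t with hh
  have hh0 : 0 < h := by positivity
  have hhe : h = 2 * (ε / t) := by
    rw [hh]
    ring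
  rcases le_or_gt h 1 with h1 | h1
  · -- short intervals
    have hvL : α * L - 1 ≤ v := by
      obtain ⟨-, a2, -⟩ := hS q hq
      have a3 := (hloc q hq).2.2
      linarith
    have h3 := hbtl v h (by linarith) hh0 h1 (by
      calc Real.exp (-(2 / 3 * v)) ≤ Real.exp (-(2 / 3 * (α * L - 1))) := by
            apply Real.exp_le_exp.2
            linarith
        _ ≤ 2 * ε * Real.exp (-(α * L / 2)) := x2
        _ ≤ 2 * ε * (1 / t) := by
            have : Real.exp (-(α * L / 2)) ≤ 1 / t := by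
              rw [Real.exp_neg, ← one_div]
              exact one_div_le_one_div_of_le ht ht2
            gcongr
        _ = h := by
            rw [hh]
            ring) S (fun p hp => ⟨(hS p hp).1, (hloc p hp).2.1, (hloc p hp).2.2⟩)
    calc ms S ≤ C1 * h := h3
      _ = (2 * C1) * ε / t := by
          rw [hh]
          ring
      _ ≤ (2 * (1 + C0) + 2 * C1) * ε / t := by
          gcongr
          linarith
  · -- long intervals
    have h2 : ms S ≤ ms (Bl (max v 0) (v + h)) := by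
      by_cases hc : v < 0
      · refine ms_mono fun p hp => ?_
        obtain ⟨b1, b2, b3⟩ := hS p hp
        rw [mem_Bl]
        refine ⟨b1, ?_, (hloc p hp).2.2⟩
        rw [max_eq_right hc.le]
        exact Real.log_pos (by exact_mod_cast b1.one_lt)
      · push Not at hc
        refine ms_mono fun p hp => ?_
        obtain ⟨b1, b2, b3⟩ := hS p hp
        rw [mem_Bl, max_eq_left hc]
        exact ⟨b1, (hloc p hp).2.1, (hloc p hp).2.2⟩
    have hvh : 0 ≤ v + h := by
      have := (hloc q hq).2.2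
      have h3 : 0 ≤ Real.log q := Real.log_natCast_nonneg q
      linarith
    have h3 := (hBl (max v 0) (v + h) (le_max_right _ _) (max_le (by linarith) hvh)).2
    have h4 : v ≤ max v 0 := le_max_left _ _
    calc ms S ≤ v + h - max v 0 + C0 := h2.trans h3
      _ ≤ h + C0 * h := by nlinarith
      _ = (2 * (1 + C0)) * ε / t := by
          rw [hh]
          ring
      _ ≤ (2 * (1 + C0) + 2 * C1) * ε / t := by
          gcongr
          linarith

/-- small and medium `t` -/
theorem cos_med (α β : ℝ) (hα : 0 < α) (hαβ : α < β) : ∃ δ L0 : ℝ, 0 < δ ∧ 1 ≤ L0 ∧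
    ∀ L : ℝ, L0 ≤ L → ∀ t : ℝ, 4 / ((β - α) * L) ≤ t → t ≤ Real.exp (α * L / 2) →
    δ * L ≤ ∑ p ∈ Bl (α * L) (β * L), Real.log p / p * (1 - Real.cos (t * Real.log p)) := by
  classical
  obtain ⟨C0, hC0, hBl⟩ := ms_Bl
  obtain ⟨C1, hC1, hfib⟩ := fib α hα
  set ε : ℝ := 1 / (8 * C1) with hε
  have hε0 : 0 < ε := by positivity
  have hε1 : ε ≤ 1 := by
    rw [hε, div_le_one (by positivity)]
    linarith
  obtain ⟨L1, hL1, hf⟩ := hfib ε hε0 hε1
  set γ : ℝ := β - α with hγ
  have hγ0 : 0 < γ := by linarith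
  refine ⟨γ / 4 * (2 / Real.pi ^ 2 * ε ^ 2), max L1 (2 * C0 / γ), by positivity,
    hL1.trans (le_max_left _ _), ?_⟩
  intro L hL t ht1 ht2
  have hLL1 : L1 ≤ L := (le_max_left _ _).trans hL
  have hL0 : 1 ≤ L := hL1.trans hLL1
  have hLp : 0 < L := by linarith
  have hLC : 2 * C0 ≤ γ * L := by
    have := (le_max_right _ _).trans hL
    rw [div_le_iff₀ hγ0] at this
    linarith
  have ht0 : 0 < t := lt_of_lt_of_le (by positivity) ht1
  set a := α * L with ha
  set b := β * L with hb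
  have hab : b - a = γ * L := by
    rw [hγ, ha, hb]
    ring
  have ha0 : 0 < a := by positivity
  have hmass := (hBl a b ha0.le (by nlinarith)).1
  rw [hab] at hmass
  set kk : ℕ → ℤ := fun p => round (t * Real.log p / (2 * Real.pi)) with hkk
  have hpi := Real.pi_pos
  have hround : ∀ p : ℕ, |t * Real.log p - 2 * Real.pi * kk p| ≤ Real.pi := by
    intro p
    have h1 := abs_sub_round (t * Real.log p / (2 * Real.pi))
    have e1 : t * Real.log p - 2 * Real.pi * kk p =
        2 * Real.pi * (t * Real.log p / (2 * Real.pi) - kk p) := by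
      field_simp
    rw [e1, abs_mul, abs_of_pos (by positivity : 0 < 2 * Real.pi)]
    calc 2 * Real.pi * |t * Real.log p / (2 * Real.pi) - kk p| ≤ 2 * Real.pi * (1 / 2) := by gcongr
      _ = Real.pi := by ring
  set N := (Bl a b).filter (fun p : ℕ => |t * Real.log p - 2 * Real.pi * kk p| < ε) with hN
  -- the mass of the resonant primes
  set K : Finset ℤ := Finset.Icc ⌊(t * a - 4) / (2 * Real.pi)⌋ ⌈(t * b + 4) / (2 * Real.pi)⌉ with hK
  have hmaps : ∀ p ∈ N, kk p ∈ K := by
    intro p hp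
    rw [hN, Finset.mem_filter, mem_Bl] at hp
    obtain ⟨⟨-, h2, h3⟩, -⟩ := hp
    have h4 := abs_le.1 (hround p)
    have h5 : Real.pi ≤ 4 := Real.pi_le_four
    have h6 : t * a < t * Real.log p := by gcongr
    have h7 : t * Real.log p ≤ t * b := by gcongr
    rw [hK, Finset.mem_Icc]
    constructor
    · rw [Int.floor_le_iff]
      rw [div_lt_iff₀ (by positivity)]
      nlinarith [h4.1, h4.2]
    · rw [Int.le_ceil_iff]
      rw [lt_div_iff₀ (by positivity)]
      nlinarith [h4.1, h4.2]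
  have hNmass : ms N ≤ γ * L / 4 := by
    have h1 : ms N = ∑ k ∈ K, ms (N.filter (fun p => kk p = k)) := by
      unfold ms
      exact (Finset.sum_fiberwise_of_maps_to hmaps _).symm
    rw [h1]
    have h2 : ∀ k ∈ K, ms (N.filter (fun p => kk p = k)) ≤ C1 * ε / t := by
      intro k _
      apply hf L hLL1 t ht0 ht2 (2 * Real.pi * k)
      intro p hp
      rw [Finset.mem_filter, hN, Finset.mem_filter, mem_Bl] at hp
      obtain ⟨⟨⟨h3, h4, -⟩, h5⟩, h6⟩ := hp
      rw [h6] at h5
      exact ⟨h3, h4, h5⟩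
    refine (Finset.sum_le_sum h2).trans ?_
    rw [Finset.sum_const, nsmul_eq_mul]
    have hcard : (K.card : ℝ) ≤ t * (γ * L) / 6 + 6 := by
      rw [hK, Int.card_Icc]
      have h3 : ((⌈(t * b + 4) / (2 * Real.pi)⌉ + 1 - ⌊(t * a - 4) / (2 * Real.pi)⌋).toNat : ℝ) ≤
          t * (γ * L) / 6 + 6 := by
        have h4 : (⌈(t * b + 4) / (2 * Real.pi)⌉ : ℝ) < (t * b + 4) / (2 * Real.pi) + 1 :=
          Int.ceil_lt_add_one _
        have h5 : (t * a - 4) / (2 * Real.pi) - 1 < ⌊(t * a - 4) / (2 * Real.pi)⌋ :=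
          Int.sub_one_lt_floor _
        have h6 : (t * b + 4) / (2 * Real.pi) - (t * a - 4) / (2 * Real.pi) =
            (t * (γ * L) + 8) / (2 * Real.pi) := by
          rw [← hab]
          ring
        have h7 : (t * (γ * L) + 8) / (2 * Real.pi) ≤ (t * (γ * L) + 8) / 6 := by
          gcongr
          linarith [Real.pi_gt_three]
        rcases le_or_gt 0 (⌈(t * b + 4) / (2 * Real.pi)⌉ + 1 - ⌊(t * a - 4) / (2 * Real.pi)⌋)
          with h8 | h8
        · have h9 : (((⌈(t * b + 4) / (2 * Real.pi)⌉ + 1 -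
              ⌊(t * a - 4) / (2 * Real.pi)⌋).toNat : ℤ) : ℝ) =
              ((⌈(t * b + 4) / (2 * Real.pi)⌉ + 1 - ⌊(t * a - 4) / (2 * Real.pi)⌋ : ℤ) : ℝ) := by
            rw [Int.toNat_of_nonneg h8]
          have h10 : ((⌈(t * b + 4) / (2 * Real.pi)⌉ + 1 -
              ⌊(t * a - 4) / (2 * Real.pi)⌋).toNat : ℝ) =
              (((⌈(t * b + 4) / (2 * Real.pi)⌉ + 1 -
              ⌊(t * a - 4) / (2 * Real.pi)⌋).toNat : ℤ) : ℝ) := by push_cast; rfl
          rw [h10, h9]
          push_cast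
          linarith
        · rw [Int.toNat_of_nonpos h8.le]
          simp
          positivity
      exact h3
    have h3 : 4 ≤ t * (γ * L) := by
      rw [div_le_iff₀ (by positivity)] at ht1
      linarith
    calc (K.card : ℝ) * (C1 * ε / t) ≤ (t * (γ * L) / 6 + 6) * (C1 * ε / t) := by gcongr
      _ ≤ (t * (γ * L) / 6 + 6 * (t * (γ * L) / 4)) * (C1 * ε / t) := by
          gcongr
          linarith
      _ = (5 / 3) * (γ * L) * (C1 * ε) := by
          field_simp
          ring
      _ = (5 / 24) * (γ * L) := by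
          rw [hε]
          field_simp
          norm_num
      _ ≤ γ * L / 4 := by
          have : 0 < γ * L := by positivity
          linarith
  -- the other primes
  have hsub : N ⊆ Bl a b := Finset.filter_subset _ _
  have hrest : γ * L / 4 ≤ ms (Bl a b \ N) := by
    have h1 : ms (Bl a b \ N) + ms N = ms (Bl a b) := Finset.sum_sdiff hsub
    linarith
  have hterm : ∀ p ∈ Bl a b \ N, Real.log p / p * (2 / Real.pi ^ 2 * ε ^ 2) ≤
      Real.log p / p * (1 - Real.cos (t * Real.log p)) := by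
    intro p hp
    rw [Finset.mem_sdiff] at hp
    apply mul_le_mul_of_nonneg_left _ (lp_nn p)
    have h1 : ε ≤ |t * Real.log p - 2 * Real.pi * kk p| := by
      by_contra hcon
      push Not at hcon
      exact hp.2 (Finset.mem_filter.2 ⟨hp.1, hcon⟩)
    have h2 := Real.cos_le_one_sub_mul_cos_sq (hround p)
    have h3 : Real.cos (t * Real.log p - 2 * Real.pi * kk p) = Real.cos (t * Real.log p) := by
      have : t * Real.log p - 2 * Real.pi * kk p = t * Real.log p - kk p * (2 * Real.pi) := by ring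
      rw [this, Real.cos_sub_int_mul_two_pi]
    rw [h3] at h2
    have h4 : ε ^ 2 ≤ (t * Real.log p - 2 * Real.pi * kk p) ^ 2 := by
      rw [← sq_abs (t * Real.log p - 2 * Real.pi * kk p)]
      exact pow_le_pow_left₀ hε0.le h1 2
    have h5 : 2 / Real.pi ^ 2 * ε ^ 2 ≤ 2 / Real.pi ^ 2 *
        (t * Real.log p - 2 * Real.pi * kk p) ^ 2 := by gcongr
    linarith
  calc γ / 4 * (2 / Real.pi ^ 2 * ε ^ 2) * L = γ * L / 4 * (2 / Real.pi ^ 2 * ε ^ 2) := by ring
    _ ≤ ms (Bl a b \ N) * (2 / Real.pi ^ 2 * ε ^ 2) := by gcongr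
    _ = ∑ p ∈ Bl a b \ N, Real.log p / p * (2 / Real.pi ^ 2 * ε ^ 2) := by
        unfold ms
        rw [Finset.sum_mul]
    _ ≤ ∑ p ∈ Bl a b \ N, Real.log p / p * (1 - Real.cos (t * Real.log p)) :=
        Finset.sum_le_sum hterm
    _ ≤ _ := by
        apply Finset.sum_le_sum_of_subset_of_nonneg Finset.sdiff_subset
        intro p _ _
        have := Real.cos_le_one (t * Real.log p)
        exact mul_nonneg (lp_nn p) (by linarith)

end Pool.Agent.V7H88.DT
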