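import Pool.Agent.V7H88.DT.D
import Pool.Agent.V7H88.DZ.C
import Mathlib.NumberTheory.LSeries.PrimesInAP

/-! Primes `p` with `p^{it}` away from `1`: large `t`, under the Riemann hypothesis. -/

set_option autoImplicit false

open Complex Filter Topology Set MeasureTheory

namespace Pool.Agent.V7H88.DT

open Pool.Agent.V7H88.DZ
open SG (hh nn dd dl ord NZ)
open SP (RHs ZZ mu wt Mk Par Eb PS chi qq tt)

theorem su_bd (hRH : RHs) : ∃ C T0 : ℝ, 0 < C ∧ 10 ≤ T0 ∧ ∀ T : ℝ, T0 ≤ T → ∀ u t : ℝ,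
    0 ≤ u → u ≤ Real.log T ^ 2 / 16 → T + Real.log T ≤ t → t ≤ 2 * T - Real.log T →
    ‖∑' n : ℕ, (ArithmeticFunction.vonMangoldt n : ℂ) * (n : ℂ) ^ (-(1 / 2 : ℂ) - I * t) *
          (Real.exp (-(u - Real.log n) ^ 2 / 2) : ℂ)‖ ≤ C * Real.log T := by
  classical
  obtain ⟨C1, T1, hC1, hT1, h1⟩ := LG.EFX hRH
  obtain ⟨C2, T2, hC2, hT2, h2⟩ := efk hRH
  refine ⟨3 * (C1 + C2) + 1, max T1 T2, by positivity, hT1.trans (le_max_left _ _), ?_⟩
  intro T hT u t hu0 hu ht1 ht2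
  have hTT1 : T1 ≤ T := (le_max_left _ _).trans hT
  have hTT2 : T2 ≤ T := (le_max_right _ _).trans hT
  have hT10 : 10 ≤ T := hT1.trans hTT1
  have hL1 : 1 ≤ Real.log T := by
    rw [Real.le_log_iff_exp_le (by linarith)]
    linarith [Real.exp_one_lt_d9]
  have h3 := h1 T hTT1 u t hu0 hu ht1 ht2
  have h4 := (h2 T hTT2 0 le_rfl (by positivity) t ht1 ht2).2
  have hfin := ZZ_fin (show (1 : ℝ) ≤ T by linarith)
  set Z := ∑ᶠ s ∈ ZZ T, (mu s : ℂ) * (Real.exp (-(s.im - t) ^ 2 / 2) : ℂ) *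
        cexp (I * ((u * (s.im - t) : ℝ) : ℂ)) with hZ
  have hZn : ‖Z‖ ≤ C2 * Real.log T := by
    refine le_trans ?_ h4
    rw [hZ, finsum_mem_eq_finite_toFinset_sum _ hfin, finsum_mem_eq_finite_toFinset_sum _ hfin]
    refine norm_sum_le_of_le _ fun s _ => ?_
    rw [norm_mul, norm_e, mul_one, norm_mul, Complex.norm_real,
      Real.norm_of_nonneg (Real.exp_pos _).le]
    simp
  set S := ∑' n : ℕ, (ArithmeticFunction.vonMangoldt n : ℂ) * (n : ℂ) ^ (-(1 / 2 : ℂ) - I * t) *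
          (Real.exp (-(u - Real.log n) ^ 2 / 2) : ℂ) with hS
  set s := Real.sqrt (2 * Real.pi) with hs
  have hs2 : 2 ≤ s := s2pi_ge
  have hs3 : s ≤ 3 := s2pi_le
  have hs0 : 0 < s := by linarith
  have hE : Real.exp (-u) ≤ 1 := by
    rw [Real.exp_le_one_iff]
    linarith
  have hE2 : Real.exp (-u ^ 2 / 2) ≤ 1 := by
    rw [Real.exp_le_one_iff]
    nlinarith [sq_nonneg u]
  set g : ℝ := Real.log T * Real.exp (-u ^ 2 / 2) with hg
  have hg0 : 0 ≤ g := by positivity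
  have hg1 : g ≤ Real.log T := mul_le_of_le_one_right (by linarith) hE2
  have e1 : S = (s : ℂ) * ((Z - ((1 / s : ℝ) : ℂ) * (((g : ℝ) : ℂ) - S)) - Z) + (g : ℂ) := by
    have : (s : ℂ) ≠ 0 := by exact_mod_cast hs0.ne'
    push_cast
    field_simp
    ring
  clear_value Z S g s
  rw [e1]
  calc ‖(s : ℂ) * ((Z - ((1 / s : ℝ) : ℂ) * (((g : ℝ) : ℂ) - S)) - Z) + (g : ℂ)‖
      ≤ ‖(s : ℂ) * ((Z - ((1 / s : ℝ) : ℂ) * (((g : ℝ) : ℂ) - S)) - Z)‖ + ‖(g : ℂ)‖ :=
        norm_add_le _ _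
    _ ≤ s * (C1 * Real.exp (-u) + C2 * Real.log T) + g := by
        rw [norm_mul, Complex.norm_real, Complex.norm_real, Real.norm_of_nonneg hs0.le,
          Real.norm_of_nonneg hg0]
        gcongr
        exact (norm_sub_le _ _).trans (add_le_add h3 hZn)
    _ ≤ 3 * (C1 * Real.log T + C2 * Real.log T) + Real.log T := by
        have h5 : C1 * Real.exp (-u) ≤ C1 * Real.log T := by
          gcongr
          linarith
        gcongr
    _ = _ := by ring

/-- the weight -/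
noncomputable def gw (u : ℝ) (n : ℕ) : ℝ :=
  Real.exp (-(u - Real.log n) ^ 2 / 2 - Real.log n / 2 - u / 2)

theorem gw_pos (u : ℝ) (n : ℕ) : 0 < gw u n := Real.exp_pos _

theorem gw_eq (u : ℝ) (n : ℕ) (hn : 1 ≤ n) :
    gw u n = Real.exp (1 / 8) * (1 / n) * Real.exp (-(u - (Real.log n - 1 / 2)) ^ 2 / 2) := by
  have hn0 : (0 : ℝ) < n := by exact_mod_cast hn
  have h1 : (1 : ℝ) / n = Real.exp (-Real.log n) := by
    rw [Real.exp_neg, Real.exp_log hn0, one_div]
  rw [h1, ← Real.exp_add, ← Real.exp_add]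
  unfold gw
  congr 1
  ring

theorem gw_le (u : ℝ) (n : ℕ) (hn : 1 ≤ n) : gw u n ≤ 2 * (1 / n) := by
  rw [gw_eq u n hn]
  have h1 : Real.exp (1 / 8) ≤ 2 := by
    have h2 : Real.exp (1 / 8) ≤ Real.exp (1 / 2) := Real.exp_le_exp.2 (by norm_num)
    have h3 : Real.exp (1 / 2) ^ 2 = Real.exp 1 := by
      rw [← Real.exp_nat_mul]
      norm_num
    have h4 := Real.exp_one_lt_d9
    have h5 := Real.exp_pos (1 / 2)
    nlinarith
  have h2 : Real.exp (-(u - (Real.log n - 1 / 2)) ^ 2 / 2) ≤ 1 := by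
    rw [Real.exp_le_one_iff]
    nlinarith [sq_nonneg (u - (Real.log n - 1 / 2))]
  calc Real.exp (1 / 8) * (1 / n) * Real.exp (-(u - (Real.log n - 1 / 2)) ^ 2 / 2)
      ≤ 2 * (1 / n) * 1 := by gcongr
    _ = _ := mul_one _

theorem gw_far (u m : ℝ) (n : ℕ) (hn : 1 ≤ n) (hm : 0 ≤ m) (h : m ≤ |u - Real.log n|) :
    gw u n ≤ Real.exp (1 - m ^ 2 / 4 + u / 2) * (n : ℝ) ^ (-(3 / 2) : ℝ) := by
  have hn0 : (0 : ℝ) < n := by exact_mod_cast hn
  rw [Real.rpow_def_of_pos hn0, ← Real.exp_add]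
  unfold gw
  apply Real.exp_le_exp.2
  have h1 : m ^ 2 ≤ (u - Real.log n) ^ 2 := by
    rw [← sq_abs (u - Real.log n)]
    exact pow_le_pow_left₀ hm h 2
  nlinarith [sq_nonneg ((u - Real.log n) / 2 + 1)]

theorem gw_cont (n : ℕ) : Continuous (fun u => gw u n) := by
  unfold gw
  fun_prop

/-- the coefficients at the proper prime powers -/
noncomputable def nl (n : ℕ) : ℝ := if n.Prime then 0 else ArithmeticFunction.vonMangoldt n

theorem nl_nn (n : ℕ) : 0 ≤ nl n := by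
  unfold nl
  split_ifs
  · exact le_rfl
  · exact ArithmeticFunction.vonMangoldt_nonneg

theorem nl_sum : Summable (fun n : ℕ => nl n / n) := by
  have h := ArithmeticFunction.vonMangoldt.summable_residueClass_non_primes_div (q := 1) (a := 0)
  refine h.congr fun n => ?_
  unfold nl
  by_cases hn : n.Prime
  · simp [hn]
  · rw [if_neg hn, if_neg hn]
    congr 1
    unfold ArithmeticFunction.vonMangoldt.residueClass
    rw [Set.indicator_of_mem]
    exact Subsingleton.elim _ _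

theorem nl_zero : nl 0 = 0 := by
  unfold nl
  simp

theorem nl_gw_le (u : ℝ) (n : ℕ) : nl n * gw u n ≤ 2 * (nl n / n) := by
  rcases Nat.eq_zero_or_pos n with h | h
  · rw [h, nl_zero]
    simp
  · calc nl n * gw u n ≤ nl n * (2 * (1 / n)) := mul_le_mul_of_nonneg_left (gw_le u n h) (nl_nn n)
      _ = _ := by ring

theorem nl_gw_sum (u : ℝ) : Summable (fun n => nl n * gw u n) :=
  Summable.of_nonneg_of_le (fun n => mul_nonneg (nl_nn n) (gw_pos u n).le)
    (fun n => nl_gw_le u n) (nl_sum.mul_left 2)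

theorem nl_tends : Tendsto (fun u : ℝ => ∑' n, nl n * gw u n) atTop (𝓝 0) := by
  have h : Tendsto (fun u : ℝ => ∑' n, nl n * gw u n) atTop (𝓝 (∑' _n : ℕ, (0 : ℝ))) := by
    apply tendsto_tsum_of_dominated_convergence (bound := fun n : ℕ => 2 * (nl n / n))
      (nl_sum.mul_left 2)
    · intro n
      have h1 : Tendsto (fun u : ℝ => nl n * Real.exp (-(u / 2))) atTop (𝓝 (nl n * 0)) := by
        apply Tendsto.const_mul
        have h2 : Tendsto (fun u : ℝ => u / 2) atTop atTop :=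
          tendsto_id.atTop_div_const (by norm_num)
        exact Real.tendsto_exp_neg_atTop_nhds_zero.comp h2
      rw [mul_zero] at h1
      refine squeeze_zero (fun u => mul_nonneg (nl_nn n) (gw_pos u n).le) (fun u => ?_) h1
      apply mul_le_mul_of_nonneg_left _ (nl_nn n)
      unfold gw
      apply Real.exp_le_exp.2
      have h3 : 0 ≤ Real.log n := Real.log_natCast_nonneg n
      nlinarith [sq_nonneg (u - Real.log n)]
    · refine Eventually.of_forall fun u n => ?_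
      rw [Real.norm_of_nonneg (mul_nonneg (nl_nn n) (gw_pos u n).le)]
      exact nl_gw_le u n
  rwa [tsum_zero] at h

theorem lam_sum : Summable (fun n : ℕ => ArithmeticFunction.vonMangoldt n *
    (n : ℝ) ^ (-(3 / 2) : ℝ)) := by
  have h1 : Summable (fun n : ℕ => 4 * (n : ℝ) ^ (-(5 / 4) : ℝ)) :=
    (Real.summable_nat_rpow.2 (by norm_num)).mul_left 4
  refine Summable.of_nonneg_of_le (fun n => ?_) (fun n => ?_) h1
  · have := ArithmeticFunction.vonMangoldt_nonneg (n := n)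
    positivity
  · rcases Nat.eq_zero_or_pos n with h | h
    · rw [h]
      simp
    · have hn0 : (0 : ℝ) < n := by exact_mod_cast h
      have h2 : ArithmeticFunction.vonMangoldt n ≤ 4 * (n : ℝ) ^ (1 / 4 : ℝ) := by
        refine ArithmeticFunction.vonMangoldt_le_log.trans ?_
        have := Real.log_le_rpow_div hn0.le (show (0 : ℝ) < 1 / 4 by norm_num)
        linarith
      calc ArithmeticFunction.vonMangoldt n * (n : ℝ) ^ (-(3 / 2) : ℝ)
          ≤ 4 * (n : ℝ) ^ (1 / 4 : ℝ) * (n : ℝ) ^ (-(3 / 2) : ℝ) := by gcongr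
        _ = 4 * (n : ℝ) ^ (-(5 / 4) : ℝ) := by
            rw [mul_assoc, ← Real.rpow_add hn0]
            norm_num

end Pool.Agent.V7H88.DT
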