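import Pool.Agent.V7H88.DT.E

/-! Large `t`: the estimate. -/

set_option autoImplicit false

open Complex Filter Topology Set MeasureTheory

namespace Pool.Agent.V7H88.DT

open Pool.Agent.V7H88.DZ
open SG (hh nn dd dl ord NZ)
open SP (RHs ZZ mu wt Mk Par Eb PS chi qq tt)

/-- the finite sum over the primes is the whole sum up to the proper prime powers and the far
terms -/
theorem cos_pt (a b u m t : ℝ) (hm : 0 ≤ m) (ha : a + m ≤ u) (hb : u + m ≤ b) :
    ∑ p ∈ Bl a b, Real.log p * gw u p * Real.cos (t * Real.log p) ≤
      Real.exp (-(u / 2)) * ‖∑' n : ℕ, (ArithmeticFunction.vonMangoldt n : ℂ) *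
        (n : ℂ) ^ (-(1 / 2 : ℂ) - I * t) * (Real.exp (-(u - Real.log n) ^ 2 / 2) : ℂ)‖ +
      (∑' n, nl n * gw u n + Real.exp (1 - m ^ 2 / 4 + u / 2) *
        ∑' n : ℕ, ArithmeticFunction.vonMangoldt n * (n : ℝ) ^ (-(3 / 2) : ℝ)) := by
  classical
  set f : ℕ → ℂ := fun n => (ArithmeticFunction.vonMangoldt n : ℂ) *
        (n : ℂ) ^ (-(1 / 2 : ℂ) - I * t) * (Real.exp (-(u - Real.log n) ^ 2 / 2) : ℂ) with hf
  set E : ℝ := Real.exp (1 - m ^ 2 / 4 + u / 2) with hE
  set g : ℕ → ℝ := fun n => ArithmeticFunction.vonMangoldt n * gw u n *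
    Real.cos (t * Real.log n) with hg
  have hfg : ∀ n, (((Real.exp (-(u / 2)) : ℝ) : ℂ) * f n).re = g n := by
    intro n
    rcases Nat.eq_zero_or_pos n with h | h
    · rw [hf, hg, h]
      simp
    · have hn0 : (0 : ℝ) < n := by exact_mod_cast h
      have hnC : (n : ℂ) ≠ 0 := by exact_mod_cast hn0.ne'
      have e1 : (n : ℂ) ^ (-(1 / 2 : ℂ) - I * t) =
          ((Real.exp (-(Real.log n / 2)) : ℝ) : ℂ) *
            cexp (-((t * Real.log n : ℝ) : ℂ) * I) := by
        rw [Complex.cpow_def_of_ne_zero hnC, Complex.ofReal_exp, ← Complex.exp_add,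
          ← Complex.natCast_log]
        congr 1
        push_cast
        ring
      rw [hf, hg]
      simp only
      rw [e1]
      have e2 : ((Real.exp (-(u / 2)) : ℝ) : ℂ) * ((ArithmeticFunction.vonMangoldt n : ℂ) *
          (((Real.exp (-(Real.log n / 2)) : ℝ) : ℂ) * cexp (-((t * Real.log n : ℝ) : ℂ) * I)) *
          (Real.exp (-(u - Real.log n) ^ 2 / 2) : ℂ)) =
          ((ArithmeticFunction.vonMangoldt n * gw u n : ℝ) : ℂ) *
            cexp (-((t * Real.log n : ℝ) : ℂ) * I) := by
        have e3 : gw u n = Real.exp (-(u / 2)) * Real.exp (-(Real.log n / 2)) *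
            Real.exp (-(u - Real.log n) ^ 2 / 2) := by
          unfold gw
          rw [← Real.exp_add, ← Real.exp_add]
          congr 1
          ring
        rw [e3]
        push_cast
        ring
      rw [e2, Complex.re_ofReal_mul]
      congr 1
      have e4 : -((t * Real.log n : ℝ) : ℂ) * I = ((-(t * Real.log n) : ℝ) : ℂ) * I := by
        push_cast
        ring
      rw [e4, Complex.exp_ofReal_mul_I_re, Real.cos_neg]
  -- bound of the remaining terms
  set h : ℕ → ℝ := fun n => nl n * gw u n + E * (ArithmeticFunction.vonMangoldt n *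
    (n : ℝ) ^ (-(3 / 2) : ℝ)) with hh
  have hh0 : ∀ n, 0 ≤ h n := by
    intro n
    have h1 := ArithmeticFunction.vonMangoldt_nonneg (n := n)
    have h2 := nl_nn n
    have h3 := gw_pos u n
    rw [hh]
    positivity
  have hhs : Summable h := (nl_gw_sum u).add (lam_sum.mul_left E)
  have hrest : ∀ n ∉ Bl a b, |g n| ≤ h n := by
    intro n hn
    rcases Nat.eq_zero_or_pos n with h0 | h0
    · rw [hg, h0]
      simp
      exact hh0 0
    have hΛ := ArithmeticFunction.vonMangoldt_nonneg (n := n)
    have h1 : |g n| ≤ ArithmeticFunction.vonMangoldt n * gw u n := by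
      rw [hg]
      simp only
      rw [abs_mul, abs_of_nonneg (mul_nonneg hΛ (gw_pos u n).le)]
      exact mul_le_of_le_one_right (mul_nonneg hΛ (gw_pos u n).le) (Real.abs_cos_le_one _)
    refine h1.trans ?_
    by_cases hp : n.Prime
    · have h2 : m ≤ |u - Real.log n| := by
        rw [mem_Bl] at hn
        have h3 : ¬ (a < Real.log n ∧ Real.log n ≤ b) := fun h => hn ⟨hp, h⟩
        rw [not_and_or] at h3
        rcases h3 with h3 | h3
        · push Not at h3
          exact le_trans (by linarith) (le_abs_self _)
        · push Not at h3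
          exact le_trans (by linarith) (neg_le_abs _)
      have h3 := gw_far u m n h0 hm h2
      have h4 : nl n = 0 := by
        unfold nl
        rw [if_pos hp]
      rw [hh]
      simp only
      rw [h4, zero_mul, zero_add]
      calc ArithmeticFunction.vonMangoldt n * gw u n ≤ ArithmeticFunction.vonMangoldt n *
            (E * (n : ℝ) ^ (-(3 / 2) : ℝ)) := mul_le_mul_of_nonneg_left h3 hΛ
        _ = _ := by ring
    · have h4 : nl n = ArithmeticFunction.vonMangoldt n := by
        unfold nl
        rw [if_neg hp]
      rw [hh]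
      simp only
      rw [h4]
      have : 0 ≤ E * (ArithmeticFunction.vonMangoldt n * (n : ℝ) ^ (-(3 / 2) : ℝ)) := by
        have := Real.exp_pos (1 - m ^ 2 / 4 + u / 2)
        positivity
      linarith
  -- splitting
  set g1 : ℕ → ℝ := fun n => if n ∈ Bl a b then g n else 0 with hg1
  set g2 : ℕ → ℝ := fun n => if n ∈ Bl a b then 0 else g n with hg2
  have hg2b : ∀ n, ‖g2 n‖ ≤ h n := by
    intro n
    rw [hg2]
    simp only
    split_ifs with hc
    · rw [norm_zero]
      exact hh0 n
    · exact hrest n hc
  have hs2 : Summable g2 := Summable.of_norm_bounded hhs hg2b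
  have hz1 : ∀ n ∉ Bl a b, g1 n = 0 := by
    intro n hn
    rw [hg1]
    simp [hn]
  have hs1 : Summable g1 := summable_of_ne_finset_zero (s := Bl a b) hz1
  have hsum : ∑' n, g1 n = ∑ p ∈ Bl a b, g p := by
    rw [tsum_eq_sum (s := Bl a b) (fun n hn => hz1 n hn)]
    refine Finset.sum_congr rfl fun p hp => ?_
    rw [hg1]
    simp [hp]
  have hadd : ∀ n, g n = g1 n + g2 n := by
    intro n
    rw [hg1, hg2]
    simp only
    split_ifs <;> simp
  have hsg : Summable g := (hs1.add hs2).congr fun n => (hadd n).symm
  have hgsum : ∑' n, g n = ∑ p ∈ Bl a b, g p + ∑' n, g2 n := by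
    rw [← hsum, ← hs1.tsum_add hs2]
    exact tsum_congr hadd
  -- summability of `f`
  have hfs : Summable (fun n => ((Real.exp (-(u / 2)) : ℝ) : ℂ) * f n) := by
    apply Summable.of_norm_bounded (g := fun n => ArithmeticFunction.vonMangoldt n * gw u n)
    · have h1 : Summable (fun n => if n ∈ Bl a b then ArithmeticFunction.vonMangoldt n * gw u n
          else 0) := by
        apply summable_of_ne_finset_zero (s := Bl a b)
        intro n hn
        simp [hn]
      refine Summable.of_nonneg_of_le (fun n => mul_nonneg ArithmeticFunction.vonMangoldt_nonneg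
        (gw_pos u n).le) (fun n => ?_) (h1.add hhs)
      by_cases hc : n ∈ Bl a b
      · rw [if_pos hc]
        linarith [hh0 n]
      · rw [if_neg hc, zero_add]
        rcases Nat.eq_zero_or_pos n with h0 | h0
        · rw [h0]
          simp
          exact hh0 0
        have hΛ := ArithmeticFunction.vonMangoldt_nonneg (n := n)
        by_cases hp : n.Prime
        · have h2 : m ≤ |u - Real.log n| := by
            rw [mem_Bl] at hc
            have h3 : ¬ (a < Real.log n ∧ Real.log n ≤ b) := fun h => hc ⟨hp, h⟩
            rw [not_and_or] at h3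
            rcases h3 with h3 | h3
            · push Not at h3
              exact le_trans (by linarith) (le_abs_self _)
            · push Not at h3
              exact le_trans (by linarith) (neg_le_abs _)
          have h3 := gw_far u m n h0 hm h2
          have h5 := mul_nonneg (nl_nn n) (gw_pos u n).le
          rw [hh]
          simp only
          calc ArithmeticFunction.vonMangoldt n * gw u n ≤ ArithmeticFunction.vonMangoldt n *
                (E * (n : ℝ) ^ (-(3 / 2) : ℝ)) := mul_le_mul_of_nonneg_left h3 hΛ
            _ = E * (ArithmeticFunction.vonMangoldt n * (n : ℝ) ^ (-(3 / 2) : ℝ)) := by ring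
            _ ≤ _ := by linarith
        · have h4 : nl n = ArithmeticFunction.vonMangoldt n := by
            unfold nl
            rw [if_neg hp]
          rw [hh]
          simp only
          rw [h4]
          have : 0 ≤ E * (ArithmeticFunction.vonMangoldt n * (n : ℝ) ^ (-(3 / 2) : ℝ)) := by
            have := Real.exp_pos (1 - m ^ 2 / 4 + u / 2)
            positivity
          linarith
    · intro n
      rcases Nat.eq_zero_or_pos n with h0 | h0
      · rw [hf, h0]
        simp
      · have hn0 : (0 : ℝ) < n := by exact_mod_cast h0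
        have e1 : ‖f n‖ = ArithmeticFunction.vonMangoldt n * Real.exp (-(Real.log n / 2)) *
            Real.exp (-(u - Real.log n) ^ 2 / 2) := by
          rw [hf]
          simp only
          rw [norm_mul, norm_mul, Complex.norm_real, Complex.norm_real,
            Real.norm_of_nonneg (Real.exp_pos _).le,
            Real.norm_of_nonneg ArithmeticFunction.vonMangoldt_nonneg,
            Complex.norm_natCast_cpow_of_pos h0]
          congr 2
          rw [Real.rpow_def_of_pos hn0]
          congr 1
          simp
          ring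
        rw [norm_mul, Complex.norm_real, Real.norm_of_nonneg (Real.exp_pos _).le, e1]
        have e3 : gw u n = Real.exp (-(u / 2)) * Real.exp (-(Real.log n / 2)) *
            Real.exp (-(u - Real.log n) ^ 2 / 2) := by
          unfold gw
          rw [← Real.exp_add, ← Real.exp_add]
          congr 1
          ring
        rw [e3]
        apply le_of_eq
        ring
  have hre : ∑' n, g n = (((Real.exp (-(u / 2)) : ℝ) : ℂ) * ∑' n, f n).re := by
    rw [← tsum_mul_left, Complex.re_tsum hfs]
    exact tsum_congr fun n => (hfg n).symm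
  have hb1 : ∑' n, g n ≤ Real.exp (-(u / 2)) * ‖∑' n, f n‖ := by
    rw [hre]
    refine (Complex.re_le_norm _).trans (le_of_eq ?_)
    rw [norm_mul, Complex.norm_real, Real.norm_of_nonneg (Real.exp_pos _).le]
  have hb2 : |∑' n, g2 n| ≤ ∑' n, h n := by
    rw [← Real.norm_eq_abs]
    exact tsum_of_norm_bounded hhs.hasSum hg2b
  have hb3 : ∑' n, h n = ∑' n, nl n * gw u n + E *
        ∑' n : ℕ, ArithmeticFunction.vonMangoldt n * (n : ℝ) ^ (-(3 / 2) : ℝ) := by
    rw [hh, (nl_gw_sum u).tsum_add (lam_sum.mul_left E), tsum_mul_left]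
  have hb4 : ∑ p ∈ Bl a b, Real.log p * gw u p * Real.cos (t * Real.log p) =
      ∑ p ∈ Bl a b, g p := by
    refine Finset.sum_congr rfl fun p hp => ?_
    rw [hg]
    simp only
    rw [ArithmeticFunction.vonMangoldt_apply_prime (mem_Bl.1 hp).1]
  rw [hb4, ← hb3]
  have h5 := (abs_le.1 hb2).1
  linarith

end Pool.Agent.V7H88.DT
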