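import Pool.Agent.V7H88.DT.E2

/-! Primes `p` with `p^{ic}` away from `1`, for all shifts. -/

set_option autoImplicit false

open Complex Filter Topology Set MeasureTheory

namespace Pool.Agent.V7H88.DT

open Pool.Agent.V7H88.DZ
open SG (hh nn dd dl ord NZ)
open SP (RHs ZZ mu wt Mk Par Eb PS chi qq tt)

theorem gw_int_le (a b : ℝ) (hab : a ≤ b) (n : ℕ) (hn : 1 ≤ n) :
    ∫ u in a..b, gw u n ≤ 6 * (1 / n) := by
  have hn0 : (0 : ℝ) < n := by exact_mod_cast hn
  have h1 : ∫ u in a..b, gw u n = Real.exp (1 / 8) * (1 / n) *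
      ∫ u in a..b, Real.exp (-(u - (Real.log n - 1 / 2)) ^ 2 / 2) := by
    rw [← intervalIntegral.integral_const_mul]
    apply intervalIntegral.integral_congr
    intro u _
    exact gw_eq u n hn
  rw [h1]
  have h2 : ∫ u in a..b, Real.exp (-(u - (Real.log n - 1 / 2)) ^ 2 / 2) ≤ 3 := by
    have h3 : ∫ u in a..b, Real.exp (-(u - (Real.log n - 1 / 2)) ^ 2 / 2) ≤
        ∫ u : ℝ, Real.exp (-(u - (Real.log n - 1 / 2)) ^ 2 / 2) := by
      rw [intervalIntegral.integral_of_le hab]
      exact setIntegral_le_integral (g1_int.comp_sub_right _)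
        (Eventually.of_forall fun u => (Real.exp_pos _).le)
    have h4 : ∫ u : ℝ, Real.exp (-(u - (Real.log n - 1 / 2)) ^ 2 / 2) = Real.sqrt (2 * Real.pi) := by
      rw [integral_sub_right_eq_self (fun u : ℝ => Real.exp (-u ^ 2 / 2)) (Real.log n - 1 / 2)]
      exact g1_val
    rw [h4] at h3
    exact h3.trans s2pi_le
  have h3 : Real.exp (1 / 8) ≤ 2 := by
    have h2 : Real.exp (1 / 8) ≤ Real.exp (1 / 2) := Real.exp_le_exp.2 (by norm_num)
    have h3 : Real.exp (1 / 2) ^ 2 = Real.exp 1 := by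
      rw [← Real.exp_nat_mul]
      norm_num
    have h4 := Real.exp_one_lt_d9
    have h5 := Real.exp_pos (1 / 2)
    nlinarith
  have h4 : 0 ≤ ∫ u in a..b, Real.exp (-(u - (Real.log n - 1 / 2)) ^ 2 / 2) :=
    intervalIntegral.integral_nonneg hab fun u _ => (Real.exp_pos _).le
  calc _ ≤ 2 * (1 / (n : ℝ)) * 3 := by gcongr
    _ = _ := by ring

theorem gw_int_ge (a b : ℝ) (hab : a ≤ b) (n : ℕ) (hn : 1 ≤ n) (h1 : a + 2 ≤ Real.log n)
    (h2 : Real.log n ≤ b - 1) : (1 : ℝ) / n ≤ ∫ u in a..b, gw u n := by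
  have hn0 : (0 : ℝ) < n := by exact_mod_cast hn
  set y := Real.log n with hy
  have hint : ∀ c d : ℝ, IntervalIntegrable (fun u => gw u n) volume c d :=
    fun c d => (gw_cont n).intervalIntegrable _ _
  have h3 : ∫ u in (y - 3 / 2)..(y + 1 / 2), gw u n ≤ ∫ u in a..b, gw u n :=
    intervalIntegral.integral_mono_interval (by linarith) (by linarith) (by linarith)
      (Eventually.of_forall fun u => (gw_pos u n).le) (hint a b)
  refine le_trans ?_ h3
  have h4 : ∫ _u in (y - 3 / 2)..(y + 1 / 2), (1 / 2) * (1 / (n : ℝ)) ≤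
      ∫ u in (y - 3 / 2)..(y + 1 / 2), gw u n := by
    apply intervalIntegral.integral_mono_on (by linarith) (by simp) (hint _ _)
    intro u hu
    rw [gw_eq u n hn, ← hy]
    have h5 : 1 ≤ Real.exp (1 / 8) := Real.one_le_exp (by norm_num)
    have h6 : 1 / 2 ≤ Real.exp (-(u - (y - 1 / 2)) ^ 2 / 2) := by
      have h7 : (u - (y - 1 / 2)) ^ 2 ≤ 1 := by
        rw [sq_le_one_iff_abs_le_one, abs_le]
        constructor <;> linarith [hu.1, hu.2]
      have := Real.add_one_le_exp (-(u - (y - 1 / 2)) ^ 2 / 2)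
      linarith
    calc (1 / 2) * (1 / (n : ℝ)) = 1 * (1 / n) * (1 / 2) := by ring
      _ ≤ _ := by gcongr
  rw [intervalIntegral.integral_const, smul_eq_mul] at h4
  refine le_trans (le_of_eq ?_) h4
  ring

theorem cos_large (hRH : RHs) (α β : ℝ) (hα : 0 < α) (hαβ : α < β) : ∃ δ L0 : ℝ, 0 < δ ∧ 1 ≤ L0 ∧
    ∀ L : ℝ, L0 ≤ L → ∀ t : ℝ, Real.exp (α * L / 2) ≤ t → t ≤ Real.exp (3 * L) →
    δ * L ≤ ∑ p ∈ Bl (α * L) (β * L), Real.log p / p * (1 - Real.cos (t * Real.log p)) := by
  obtain ⟨C1, T1, hC1, hT1, hsu⟩ := su_bd hRH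
  obtain ⟨C0, hC0, hBl⟩ := ms_Bl
  set C3 : ℝ := ∑' n : ℕ, ArithmeticFunction.vonMangoldt n * (n : ℝ) ^ (-(3 / 2) : ℝ) with hC3
  have hC30 : 0 ≤ C3 := tsum_nonneg fun n => by
    have := ArithmeticFunction.vonMangoldt_nonneg (n := n)
    positivity
  have hnl := nl_tends.eventually_lt_const (show (0 : ℝ) < 1 / 100 by norm_num)
  obtain ⟨U0, hU0⟩ := Filter.eventually_atTop.1 hnl
  set γ : ℝ := β - α with hγ
  have hγ0 : 0 < γ := by linarith
  have ev : ∀ᶠ L : ℝ in atTop, 1 ≤ L ∧ U0 ≤ α * L ∧ 144 * β ≤ α ^ 2 * L ∧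
      Real.log T1 + 1 ≤ α * L / 2 ∧ 8 ≤ α * L / 3 ∧ 6 * (3 + C0) ≤ γ * L ∧ 1 ≤ α * L / 6 ∧
      3 * C1 * (L * Real.exp (-(α / 2 * L))) ≤ 1 / 100 ∧
      C3 * Real.exp (1 - γ ^ 2 * L ^ 2 / 36 + β * L / 2) ≤ 1 / 100 := by
    have hlin : ∀ e : ℝ, 0 < e → Tendsto (fun L : ℝ => e * L) atTop atTop :=
      fun e he => tendsto_id.const_mul_atTop he
    have h8 : Tendsto (fun L : ℝ => 3 * C1 * (L * Real.exp (-(α / 2 * L)))) atTop (𝓝 0) := by
      have h9 := (Real.tendsto_pow_mul_exp_neg_atTop_nhds_zero 1).comp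
        (hlin (α / 2) (by positivity))
      have h10 := h9.const_mul (3 * C1 * (2 / α))
      rw [mul_zero] at h10
      refine h10.congr fun L => ?_
      simp only [Function.comp_apply, pow_one]
      field_simp
    have h9 : Tendsto (fun L : ℝ => C3 * Real.exp (1 - γ ^ 2 * L ^ 2 / 36 + β * L / 2)) atTop
        (𝓝 0) := by
      have h10 : Tendsto (fun L : ℝ => C3 * Real.exp (-(1 * L))) atTop (𝓝 (C3 * 0)) := by
        apply Tendsto.const_mul
        exact Real.tendsto_exp_neg_atTop_nhds_zero.comp (hlin 1 one_pos)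
      rw [mul_zero] at h10
      refine squeeze_zero' (Eventually.of_forall fun L => by positivity) ?_ h10
      filter_upwards [eventually_ge_atTop 1,
        (hlin (γ ^ 2) (by positivity)).eventually_ge_atTop (36 * (β / 2 + 2))] with L x1 x2
      apply mul_le_mul_of_nonneg_left _ hC30
      apply Real.exp_le_exp.2
      have : 36 * (β / 2 + 2) * L ≤ γ ^ 2 * L * L := mul_le_mul_of_nonneg_right x2 (by linarith)
      nlinarith
    filter_upwards [eventually_ge_atTop 1, (hlin α hα).eventually_ge_atTop U0,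
      (hlin (α ^ 2) (by positivity)).eventually_ge_atTop (144 * β),
      (hlin α hα).eventually_ge_atTop (2 * (Real.log T1 + 1)),
      (hlin α hα).eventually_ge_atTop 24, (hlin γ hγ0).eventually_ge_atTop (6 * (3 + C0)),
      h8.eventually_le_const (show (0 : ℝ) < 1 / 100 by norm_num),
      h9.eventually_le_const (show (0 : ℝ) < 1 / 100 by norm_num)] with L x1 x2 x3 x4 x5 x6 x7 x8
    exact ⟨x1, x2, x3, by linarith, by linarith, x6, by linarith, x7, x8⟩
  obtain ⟨L1, hL1⟩ := Filter.eventually_atTop.1 ev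
  refine ⟨γ / 60, max L1 1, by positivity, le_max_right _ _, ?_⟩
  intro L hL t ht1 ht2
  obtain ⟨y1, y2, y3, y4, y5, y6, y6', y7, y8⟩ := hL1 L ((le_max_left _ _).trans hL)
  have hLp : 0 < L := by linarith
  set a := α * L with ha
  set b := β * L with hb
  have hab : b - a = γ * L := by
    rw [hγ, ha, hb]
    ring
  have ha0 : 0 < a := by positivity
  set m := γ * L / 3 with hm
  have hm0 : 0 < m := by positivity
  have hbm : b - m = a + m + m := by
    rw [hm]
    linarith
  -- the height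
  have ht0 : 0 < t := lt_of_lt_of_le (Real.exp_pos _) ht1
  set T' := 2 * t / 3 with hT'
  have hT'0 : 0 < T' := by positivity
  have hlt1 : a / 2 ≤ Real.log t := by
    rw [Real.le_log_iff_exp_le ht0]
    exact ht1
  have hlt2 : Real.log t ≤ 3 * L := by
    rw [Real.log_le_iff_le_exp ht0]
    exact ht2
  have hlT1 : Real.log t - 1 ≤ Real.log T' := by
    rw [Real.le_log_iff_exp_le hT'0, Real.exp_sub, Real.exp_log ht0, hT']
    rw [div_le_div_iff₀ (Real.exp_pos _) (by norm_num)]
    have := Real.exp_one_gt_d9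
    nlinarith
  have hlT2 : Real.log T' ≤ Real.log t := by
    apply Real.log_le_log hT'0
    rw [hT']
    linarith
  have hTT1 : T1 ≤ T' := by
    rw [← Real.log_le_log_iff (by linarith) hT'0]
    linarith
  have hT10 : 10 ≤ T' := hT1.trans hTT1
  have hlT3 : Real.log T' ≤ T' / 2 := by
    have h1 := Real.log_le_sub_one_of_pos (show 0 < T' / 4 by positivity)
    rw [Real.log_div hT'0.ne' (by norm_num)] at h1
    have h2 : Real.log 4 ≤ 3 / 2 := by
      have : Real.log 4 = 2 * Real.log 2 := by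
        rw [show (4 : ℝ) = 2 ^ 2 by norm_num, Real.log_pow]
        norm_num
      have := Real.log_two_lt_d9
      linarith
    linarith
  have hlTa : a / 3 ≤ Real.log T' := by linarith
  have hub : b ≤ Real.log T' ^ 2 / 16 := by
    have h1 : (a / 3) ^ 2 ≤ Real.log T' ^ 2 := pow_le_pow_left₀ (by positivity) hlTa 2
    have h2 : 144 * β * L ≤ α ^ 2 * L * L := mul_le_mul_of_nonneg_right y3 hLp.le
    have h3 : (a / 3) ^ 2 = α ^ 2 * L * L / 9 := by
      rw [ha]
      ring
    rw [h3] at h1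
    rw [hb]
    linarith
  -- pointwise bound
  have hpt : ∀ u ∈ Set.Icc (a + m) (b - m),
      ∑ p ∈ Bl a b, Real.log p * gw u p * Real.cos (t * Real.log p) ≤ 1 / 20 := by
    intro u hu
    have h1 := cos_pt a b u m t hm0.le hu.1 (by linarith [hu.2])
    have h2 := hsu T' hTT1 u t (by linarith [hu.1]) (by linarith [hu.2])
      (by rw [hT'] at hlT3 ⊢; linarith) (by rw [hT'] at hlT3 ⊢; linarith)
    have h3 := (hU0 u (by linarith [hu.1])).le
    have h4 : Real.exp (-(u / 2)) ≤ Real.exp (-(α / 2 * L)) := by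
      apply Real.exp_le_exp.2
      have : α / 2 * L = a / 2 := by
        rw [ha]
        ring
      linarith [hu.1]
    have h5 : Real.exp (-(u / 2)) * ‖∑' n : ℕ, (ArithmeticFunction.vonMangoldt n : ℂ) *
        (n : ℂ) ^ (-(1 / 2 : ℂ) - I * t) * (Real.exp (-(u - Real.log n) ^ 2 / 2) : ℂ)‖ ≤
        1 / 100 := by
      calc _ ≤ Real.exp (-(α / 2 * L)) * (C1 * (3 * L)) := by
            apply mul_le_mul h4 _ (norm_nonneg _) (Real.exp_pos _).le
            refine h2.trans ?_
            gcongr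
            linarith
        _ = 3 * C1 * (L * Real.exp (-(α / 2 * L))) := by ring
        _ ≤ _ := y7
    have h6 : Real.exp (1 - m ^ 2 / 4 + u / 2) * C3 ≤ 1 / 100 := by
      calc Real.exp (1 - m ^ 2 / 4 + u / 2) * C3 ≤
            Real.exp (1 - γ ^ 2 * L ^ 2 / 36 + β * L / 2) * C3 := by
            apply mul_le_mul_of_nonneg_right _ hC30
            apply Real.exp_le_exp.2
            have e1 : m ^ 2 / 4 = γ ^ 2 * L ^ 2 / 36 := by
              rw [hm]
              ring
            rw [e1]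
            have : u ≤ β * L := by linarith [hu.2]
            linarith
        _ = C3 * Real.exp (1 - γ ^ 2 * L ^ 2 / 36 + β * L / 2) := mul_comm _ _
        _ ≤ _ := y8
    linarith
  -- integration
  set G : ℕ → ℝ := fun p => ∫ u in (a + m)..(b - m), gw u p with hG
  have hle : a + m ≤ b - m := by linarith
  have hcont : ∀ p ∈ Bl a b, Continuous (fun u => Real.log p * gw u p * Real.cos (t * Real.log p)) := by
    intro p _
    have := gw_cont p
    fun_prop
  have hint : ∑ p ∈ Bl a b, Real.log p * G p * Real.cos (t * Real.log p) ≤ m / 20 := by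
    have h1 : ∑ p ∈ Bl a b, Real.log p * G p * Real.cos (t * Real.log p) =
        ∫ u in (a + m)..(b - m), ∑ p ∈ Bl a b,
          Real.log p * gw u p * Real.cos (t * Real.log p) := by
      rw [intervalIntegral.integral_finsetSum (fun p hp => (hcont p hp).intervalIntegrable _ _)]
      refine Finset.sum_congr rfl fun p _ => ?_
      rw [intervalIntegral.integral_mul_const, intervalIntegral.integral_const_mul]
    rw [h1]
    have h2 : ∫ u in (a + m)..(b - m), ∑ p ∈ Bl a b,
          Real.log p * gw u p * Real.cos (t * Real.log p) ≤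
          ∫ _u in (a + m)..(b - m), (1 / 20 : ℝ) := by
      apply intervalIntegral.integral_mono_on hle
        ((continuous_finsetSum _ hcont).intervalIntegrable _ _) (by simp) hpt
    rw [intervalIntegral.integral_const, smul_eq_mul] at h2
    linarith
  have hp1 : ∀ p ∈ Bl a b, 1 ≤ p := fun p hp => (mem_Bl.1 hp).1.one_lt.le
  have hG0 : ∀ p, 0 ≤ G p := fun p =>
    intervalIntegral.integral_nonneg hle fun u _ => (gw_pos u p).le
  have hG1 : ∀ p ∈ Bl a b, G p ≤ 6 * (1 / p) := fun p hp => gw_int_le _ _ hle p (hp1 p hp)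
  have hcos : ∀ p : ℕ, 0 ≤ 1 - Real.cos (t * Real.log p) := by
    intro p
    have := Real.cos_le_one (t * Real.log p)
    linarith
  have hlogp : ∀ p : ℕ, 0 ≤ Real.log p := fun p => Real.log_natCast_nonneg p
  have hup : ∑ p ∈ Bl a b, Real.log p * G p * (1 - Real.cos (t * Real.log p)) ≤
      6 * ∑ p ∈ Bl a b, Real.log p / p * (1 - Real.cos (t * Real.log p)) := by
    rw [Finset.mul_sum]
    refine Finset.sum_le_sum fun p hp => ?_
    calc Real.log p * G p * (1 - Real.cos (t * Real.log p))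
        ≤ Real.log p * (6 * (1 / p)) * (1 - Real.cos (t * Real.log p)) :=
          mul_le_mul_of_nonneg_right (mul_le_mul_of_nonneg_left (hG1 p hp) (hlogp p)) (hcos p)
      _ = _ := by ring
  have hlow : m - 3 - C0 ≤ ∑ p ∈ Bl a b, Real.log p * G p := by
    have h1 := (hBl (a + m + 2) (b - m - 1) (by linarith) (by linarith)).1
    have h2 : ms (Bl (a + m + 2) (b - m - 1)) ≤ ∑ p ∈ Bl a b, Real.log p * G p := by
      unfold ms
      have hsub : Bl (a + m + 2) (b - m - 1) ⊆ Bl a b := by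
        intro p hp
        rw [mem_Bl] at hp ⊢
        exact ⟨hp.1, by linarith [hp.2.1], by linarith [hp.2.2]⟩
      refine le_trans (Finset.sum_le_sum fun p hp => ?_)
        (Finset.sum_le_sum_of_subset_of_nonneg hsub fun p _ _ => mul_nonneg (hlogp p) (hG0 p))
      have h3 := mem_Bl.1 hp
      have h4 := gw_int_ge (a + m) (b - m) hle p h3.1.one_lt.le h3.2.1.le (by linarith [h3.2.2])
      calc Real.log p / p = Real.log p * (1 / p) := by ring
        _ ≤ Real.log p * G p := mul_le_mul_of_nonneg_left h4 (hlogp p)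
    linarith
  have hdec : ∑ p ∈ Bl a b, Real.log p * G p * (1 - Real.cos (t * Real.log p)) =
      ∑ p ∈ Bl a b, Real.log p * G p -
        ∑ p ∈ Bl a b, Real.log p * G p * Real.cos (t * Real.log p) := by
    rw [← Finset.sum_sub_distrib]
    refine Finset.sum_congr rfl fun p _ => ?_
    ring
  have hm2 : 2 * (3 + C0) ≤ m := by
    rw [hm]
    linarith
  have h9 : γ / 60 * L = m / 20 := by
    rw [hm]
    ring
  rw [h9]
  linarith

/-- all shifts -/
theorem cos_all (hRH : RHs) (α β K : ℝ) (hα : 0 < α) (hαβ : α < β) (hK : 0 < K) :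
    ∃ δ L0 : ℝ, 0 < δ ∧ 1 ≤ L0 ∧
    ∀ L : ℝ, L0 ≤ L → ∀ c : ℝ, K / L ≤ |c| → |c| ≤ Real.exp (3 * L) →
    δ * L ≤ ∑ p ∈ Bl (α * L) (β * L), Real.log p / p * (1 - Real.cos (c * Real.log p)) := by
  obtain ⟨δ1, L1, hδ1, hL1, h1⟩ := cos_large hRH α β hα hαβ
  obtain ⟨δ2, L2, hδ2, hL2, h2⟩ := cos_med α β hα hαβ
  set γ : ℝ := β - α with hγ
  have hγ0 : 0 < γ := by linarith
  set M : ℝ := 8 / (K * γ) with hM
  have hM0 : 0 < M := by positivity
  refine ⟨min (min δ1 δ2) (δ2 / M ^ 2), max (max L1 L2) (8 / γ), by positivity,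
    hL1.trans ((le_max_left _ _).trans (le_max_left _ _)), ?_⟩
  intro L hL c hc1 hc2
  simp only [max_le_iff] at hL
  obtain ⟨⟨hLL1, hLL2⟩, hLL3⟩ := hL
  have hL0 : 1 ≤ L := hL1.trans hLL1
  have hLp : 0 < L := by linarith
  set t := |c| with ht
  have ht0 : 0 < t := lt_of_lt_of_le (by positivity) hc1
  have hcos : ∀ p : ℕ, Real.cos (c * Real.log p) = Real.cos (t * Real.log p) := by
    intro p
    rcases abs_cases c with ⟨h, _⟩ | ⟨h, _⟩
    · rw [ht, h]
    · rw [ht, h, neg_mul, Real.cos_neg]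
  simp_rw [hcos]
  have hδδ1 : min (min δ1 δ2) (δ2 / M ^ 2) ≤ δ1 := (min_le_left _ _).trans (min_le_left _ _)
  have hδδ2 : min (min δ1 δ2) (δ2 / M ^ 2) ≤ δ2 := (min_le_left _ _).trans (min_le_right _ _)
  have hδδ3 : min (min δ1 δ2) (δ2 / M ^ 2) ≤ δ2 / M ^ 2 := min_le_right _ _
  rcases le_or_gt (Real.exp (α * L / 2)) t with h3 | h3
  · exact (mul_le_mul_of_nonneg_right hδδ1 hLp.le).trans (h1 L hLL1 t h3 hc2)
  rcases le_or_gt (4 / (γ * L)) t with h4 | h4
  · exact (mul_le_mul_of_nonneg_right hδδ2 hLp.le).trans (h2 L hLL2 t h4 h3.le)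
  · set m : ℕ := ⌈4 / (t * (γ * L))⌉₊ with hm
    have hx1 : 1 < 4 / (t * (γ * L)) := by
      rw [lt_div_iff₀ (by positivity)] at h4 ⊢
      linarith
    have hm1 : 4 / (t * (γ * L)) ≤ m := Nat.le_ceil _
    have hm2 : (m : ℝ) ≤ 8 / (t * (γ * L)) := by
      have h5 := Nat.ceil_lt_add_one (show 0 ≤ 4 / (t * (γ * L)) by positivity)
      have h6 : 8 / (t * (γ * L)) = 4 / (t * (γ * L)) + 4 / (t * (γ * L)) := by ring
      linarith
    have hmt1 : 4 / (γ * L) ≤ m * t := by
      rw [div_le_iff₀ (by positivity)] at hm1 ⊢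
      calc (4 : ℝ) ≤ m * (t * (γ * L)) := hm1
        _ = m * t * (γ * L) := by ring
    have hmt2 : (m : ℝ) * t ≤ Real.exp (α * L / 2) := by
      have h5 : (m : ℝ) * t ≤ 8 / (γ * L) := by
        rw [le_div_iff₀ (by positivity)] at hm2 ⊢
        calc (m : ℝ) * t * (γ * L) = m * (t * (γ * L)) := by ring
          _ ≤ 8 := hm2
      have h6 : 8 / (γ * L) ≤ 1 := by
        rw [div_le_one (by positivity)]
        rw [div_le_iff₀ hγ0] at hLL3
        linarith
      have h7 : 1 ≤ Real.exp (α * L / 2) := Real.one_le_exp (by positivity)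
      linarith
    have hmM : (m : ℝ) ≤ M := by
      refine hm2.trans ?_
      rw [hM]
      have h5 : K ≤ t * L := by
        rw [div_le_iff₀ hLp] at hc1
        exact hc1
      apply div_le_div_of_nonneg_left (by norm_num) (by positivity)
      calc K * γ ≤ t * L * γ := by gcongr
        _ = t * (γ * L) := by ring
    have h5 := h2 L hLL2 (m * t) hmt1 hmt2
    have h6 : ∑ p ∈ Bl (α * L) (β * L), Real.log p / p * (1 - Real.cos (m * t * Real.log p)) ≤
        M ^ 2 * ∑ p ∈ Bl (α * L) (β * L), Real.log p / p * (1 - Real.cos (t * Real.log p)) := by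
      rw [Finset.mul_sum]
      refine Finset.sum_le_sum fun p _ => ?_
      have h7 := cos_mul m (t * Real.log p)
      rw [← mul_assoc] at h7
      have h8 : 0 ≤ 1 - Real.cos (t * Real.log p) := by
        have := Real.cos_le_one (t * Real.log p)
        linarith
      calc Real.log p / p * (1 - Real.cos (m * t * Real.log p))
          ≤ Real.log p / p * ((m : ℝ) ^ 2 * (1 - Real.cos (t * Real.log p))) :=
            mul_le_mul_of_nonneg_left h7 (lp_nn p)
        _ ≤ Real.log p / p * (M ^ 2 * (1 - Real.cos (t * Real.log p))) := by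
            apply mul_le_mul_of_nonneg_left _ (lp_nn p)
            apply mul_le_mul_of_nonneg_right _ h8
            exact pow_le_pow_left₀ (by positivity) hmM 2
        _ = _ := by ring
    have h7 : δ2 * L ≤ M ^ 2 * ∑ p ∈ Bl (α * L) (β * L), Real.log p / p *
        (1 - Real.cos (t * Real.log p)) := h5.trans h6
    calc min (min δ1 δ2) (δ2 / M ^ 2) * L ≤ δ2 / M ^ 2 * L :=
          mul_le_mul_of_nonneg_right hδδ3 hLp.le
      _ = δ2 * L / M ^ 2 := by ring
      _ ≤ _ := by
          rw [div_le_iff₀ (by positivity)]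
          linarith

end Pool.Agent.V7H88.DT
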