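import Pool.Agent.V7H88.DZ.I1
import Pool.Agent.V7H88.DZ.H3
import Pool.Agent.V7H88.DT.C

/-! Fourth moments over the zeros. -/

set_option autoImplicit false

open Complex Filter Topology Set MeasureTheory

namespace Pool.Agent.V7H88.DT

open Pool.Agent.V7H88.DZ
open SG (hh nn dd dl ord NZ)
open SP (RHs ZZ mu wt Mk Ya Par Eb PS chi qq tt)
open LG (fam nA yp prs QT tm IsQ)

/-- facts about the windows -/
theorem ev_w1 (κ : ℝ) (hκ1 : κ < 1 / 2) :
    ∃ T0 : ℝ, 100 ≤ T0 ∧ ∀ T : ℝ, T0 ≤ T → 4 ≤ Real.log T ∧ 1000 * Real.log T ≤ T ∧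
    1000 * T ≤ dd κ T ^ 2 ∧ 1 ≤ dd κ T := by
  have h1 := Real.isLittleO_log_id_atTop
  rw [Asymptotics.isLittleO_iff] at h1
  have h3 : 0 < 1 - κ := by linarith
  have ev : ∀ᶠ T : ℝ in atTop, 100 ≤ T ∧ 4 ≤ Real.log T ∧
      1000 * Real.log T ≤ T ∧ 1000 ≤ T ^ (1 - κ) := by
    filter_upwards [eventually_ge_atTop 100, Real.tendsto_log_atTop.eventually_ge_atTop 4,
      h1 (show (0 : ℝ) < 1 / 1000 by norm_num),
      (tendsto_rpow_atTop h3).eventually_ge_atTop 1000] with T x1 x2 x4 x6
    simp only [id] at x4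
    rw [Real.norm_of_nonneg (by linarith), Real.norm_of_nonneg (by linarith)] at x4
    exact ⟨x1, x2, by linarith, x6⟩
  obtain ⟨T0, hT0⟩ := Filter.eventually_atTop.1 ev
  refine ⟨max T0 100, le_max_right _ _, fun T hT => ?_⟩
  obtain ⟨x1, x2, x4, x6⟩ := hT0 T ((le_max_left _ _).trans hT)
  have hTp : 0 < T := by linarith
  refine ⟨x2, x4, ?_, ?_⟩
  · have h5 : dd κ T ^ 2 = T ^ (1 - κ) * T := by
      unfold dd
      rw [← Real.rpow_natCast, ← Real.rpow_mul hTp.le, ← Real.rpow_add_one hTp.ne']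
      congr 1
      push_cast
      ring
    rw [h5]
    exact mul_le_mul_of_nonneg_right x6 hTp.le
  · unfold dd
    exact Real.one_le_rpow (by linarith) (by linarith)

/-- fourth moments -/
theorem mom4 (hRH : RHs) (κ K : ℝ) (B1 : ℕ) (hκ : 0 < κ) (hκ1 : κ < 1 / 2) (hK : 1 ≤ K) :
    ∃ C T0 : ℝ, 0 < C ∧ 100 ≤ T0 ∧ ∀ T : ℝ, T0 ≤ T → ∀ t0 : ℝ,
    T ≤ t0 → t0 ≤ 2 * T → ∀ F : Finset ℂ,
    (∀ s ∈ F, s ∈ ZZ T ∧ T + T / 40 ≤ s.im ∧ s.im ≤ 2 * T - T / 40) → ∀ q : ℂ → ℝ,
    (∀ s ∈ F, 0 ≤ q s ∧ q s ≤ K * (1 + Mk T 1 s.im) ^ B1) →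
    ∑ s ∈ F, (mu s : ℝ) ^ 2 * (wt t0 (dd κ T) s.im * q s ^ 4) ≤ C * dd κ T * Real.log T := by
  obtain ⟨T2, hT2, hslow⟩ := mk_slow
  obtain ⟨T3, hT3, hwin⟩ := ev_w1 κ hκ1
  set e : ℝ := 4 * B1 + 2 with he
  have he0 : 0 < e := by positivity
  obtain ⟨C4, T4, hC4, hT4, hmom⟩ := SP.exp_main hRH κ 1 e hκ hκ1 one_pos he0
  set A : ℝ := 3 * (K ^ 4 * 9 ^ (4 * B1)) with hA
  have hA0 : 0 < A := by positivity
  refine ⟨8 * A * C4, max T2 (max T3 T4), by positivity,
    hT3.trans ((le_max_left _ _).trans (le_max_right _ _)), ?_⟩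
  intro T hT t0 ht0 ht0' F hF q hq
  simp only [max_le_iff] at hT
  obtain ⟨hTT2, hTT3, hTT4⟩ := hT
  obtain ⟨w1, w3, w7, w8⟩ := hwin T hTT3
  have hT100 : 100 ≤ T := hT3.trans hTT3
  have hTp : 0 < T := by linarith
  set D := dd κ T with hD
  have hD0 : 0 < D := by linarith
  have hL0 : 0 < Real.log T := by linarith
  set h := 1 / Real.log T with hh
  have hh0 : 0 < h := by positivity
  have hh2 : h ≤ 1 := by
    rw [hh, div_le_one (by linarith)]
    linarith
  have hT1' : (1 : ℝ) ≤ T := by linarith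
  have c1 := SP.ExpAux.Mk_cont hT1' 1
  have c3 := SP.ExpAux.Ya_cont hT1' one_pos
  have cw : Continuous (wt t0 D) := SP.ExpAux.wt_cont _ _
  have cg : Continuous (fun t : ℝ => A * (wt t0 D t * Real.exp (4 * B1 * Mk T 1 t))) :=
    continuous_const.mul (cw.mul (Real.continuous_exp.comp (continuous_const.mul c1)))
  have key := disc_cont F (fun s => (mu s : ℝ)) (fun s => (mu s : ℝ) ^ 2 * (wt t0 D s.im *
      q s ^ 4))
      (fun t => A * (wt t0 D t * Real.exp (4 * B1 * Mk T 1 t)))
      (fun t => 4 * Mk T 1 t) h (T + T / 50) (2 * T - T / 50) hh0 (by linarith) cg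
      (continuous_const.mul c1) (fun t => mul_nonneg hA0.le (mul_nonneg (Real.exp_pos _).le
        (Real.exp_pos _).le)) (fun s _ => by positivity) (fun s hs => by
        obtain ⟨-, h1, h2⟩ := hF s hs
        constructor <;> linarith) (fun s hs t hst => by
        obtain ⟨hz, h1, h2⟩ := hF s hs
        obtain ⟨q1, q2⟩ := hq s hs
        have hst2 := abs_le.1 hst
        refine mul_le_mul_of_nonneg_left ?_ (sq_nonneg _)
        have k1 : wt t0 D s.im ≤ 3 * wt t0 D t := by
          have k2 := wt_near t0 D s.im t h T hD0 hst (by rw [abs_le]; constructor <;> linarith)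
            (by rw [abs_le]; constructor <;> linarith)
          refine k2.trans (mul_le_mul_of_nonneg_right ?_ (Real.exp_pos _).le)
          have k3 : h * T / D ^ 2 ≤ 1 := by
            rw [div_le_one (by positivity)]
            nlinarith
          calc Real.exp (h * T / D ^ 2) ≤ Real.exp 1 := Real.exp_le_exp.2 k3
            _ ≤ 3 := by
              have := Real.exp_one_lt_d9
              linarith
        have k4 : Mk T 1 s.im ≤ 9 * Mk T 1 t + 1 := hslow T hTT2 _ _ hst
        have k6 := pt_bound K _ _ _ B1 (by linarith) (SP.DpB_Mk_nonneg T 1 t)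
          (SP.DpB_Mk_nonneg T 1 s.im) k4 q1 q2
        calc wt t0 D s.im * q s ^ 4
            ≤ (3 * wt t0 D t) * (K ^ 4 * 9 ^ (4 * B1) * Real.exp (4 * B1 * Mk T 1 t)) :=
              mul_le_mul k1 k6 (by positivity) (by
                have := (Real.exp_pos (-(t - t0) ^ 2 / (2 * D ^ 2))).le
                exact mul_nonneg (by norm_num) this)
          _ = _ := by
              rw [hA]
              ring) (fun t => by
        refine near_count T t h hT1' (by linarith) le_rfl _ fun s hs => ?_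
        rw [Finset.mem_filter] at hs
        exact ⟨(hF s hs.1).1, hs.2⟩)
  have key2 : (∫ t in (T + T / 50)..(2 * T - T / 50),
      A * (wt t0 D t * Real.exp (4 * B1 * Mk T 1 t)) * (4 * Mk T 1 t) ^ 2) ≤
      16 * A * (C4 * D) := by
    have k1 := hmom T hTT4 t0 (T + T / 50) (2 * T - T / 50) (by linarith) (by linarith)
      (by linarith)
    calc _ ≤ ∫ t in (T + T / 50)..(2 * T - T / 50), 16 * A * (wt t0 D t *
          Real.exp (e * (‖Ya T 1 t‖ + Mk T 1 t))) := by
          refine intervalIntegral.integral_mono_on (by linarith)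
            ((cg.mul ((continuous_const.mul c1).pow 2)).intervalIntegrable _ _)
            ((continuous_const.mul (cw.mul (Real.continuous_exp.comp (continuous_const.mul
              (c3.norm.add c1))))).intervalIntegrable _ _) fun t _ => ?_
          set a := Mk T 1 t with ha
          have ha0 : 0 ≤ a := SP.DpB_Mk_nonneg _ _ _
          have k2 : a ^ 2 ≤ Real.exp (2 * a) := by
            have k3 : a ≤ Real.exp a := by linarith [Real.add_one_le_exp a]
            calc a ^ 2 ≤ Real.exp a ^ 2 := pow_le_pow_left₀ ha0 k3 2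
              _ = Real.exp (2 * a) := by
                rw [← Real.exp_nat_mul]
                push_cast
                rfl
          have hw0 : 0 ≤ wt t0 D t := (Real.exp_pos _).le
          have k4 : a ^ 2 * Real.exp (4 * B1 * a) ≤ Real.exp (e * (‖Ya T 1 t‖ + a)) := by
            calc a ^ 2 * Real.exp (4 * B1 * a) ≤ Real.exp (2 * a) * Real.exp (4 * B1 * a) := by
                  gcongr
              _ = Real.exp (e * a) := by
                  rw [← Real.exp_add, he]
                  congr 1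
                  ring
              _ ≤ _ := by
                  apply Real.exp_le_exp.2
                  have := norm_nonneg (Ya T 1 t)
                  have h3 : a ≤ ‖Ya T 1 t‖ + a := by linarith
                  exact mul_le_mul_of_nonneg_left h3 he0.le
          calc A * (wt t0 D t * Real.exp (4 * B1 * a)) * (4 * a) ^ 2
              = 16 * A * (wt t0 D t * (a ^ 2 * Real.exp (4 * B1 * a))) := by ring
            _ ≤ _ := by gcongr
      _ = 16 * A * ∫ t in (T + T / 50)..(2 * T - T / 50), (wt t0 D t *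
          Real.exp (e * (‖Ya T 1 t‖ + Mk T 1 t))) := by
          rw [intervalIntegral.integral_const_mul]
      _ ≤ _ := by gcongr
  set S := ∑ s ∈ F, (mu s : ℝ) ^ 2 * (wt t0 D s.im * q s ^ 4) with hS
  have key3 : 2 * h * S ≤ 16 * A * (C4 * D) := key.trans key2
  have key4 : S = (2 * h * S) * (Real.log T / 2) := by
    rw [hh]
    field_simp
  rw [key4]
  calc (2 * h * S) * (Real.log T / 2) ≤ (16 * A * (C4 * D)) * (Real.log T / 2) := by gcongr
    _ = _ := by ring

end Pool.Agent.V7H88.DT
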