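import Pool.Agent.V7H88.DT.F
import Pool.Agent.V7H88.DT.E3

/-! The prime polynomial. -/

set_option autoImplicit false

open Complex Filter Topology Set MeasureTheory

namespace Pool.Agent.V7H88.DT

open Pool.Agent.V7H88.DZ
open SG (hh nn dd dl ord NZ)
open SP (RHs ZZ mu wt Mk Ya Par Eb PS chi qq tt)
open LG (fam nA yp prs QT tm IsQ)

/-- the parameters -/
noncomputable def PQ (κ : ℝ) (hκ : 0 < κ) (hκ1 : κ < 1 / 2) : Par :=
  PK κ ((1 - κ) / 128) 16 hκ hκ1 (by linarith) (by norm_num)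

/-- the primes -/
noncomputable def BB (P : Par) (T : ℝ) : Finset ℕ := (PS P T).filter (fun p => Eb P T p = 2)

/-- the coefficients -/
noncomputable def cc (P : Par) (T c : ℝ) (n : ℕ) : ℂ :=
  if n = 1 then 1 else -((yp P 1 T n : ℝ) : ℂ) * cexp (-(I * ((c * Real.log n : ℝ) : ℂ)))

/-- the polynomial `1 - ∑ y_p p^{i(t-c)}` -/
noncomputable def QQ (P : Par) (T c t : ℝ) : ℂ := PP (insert 1 (BB P T)) (cc P T c) lg t

theorem one_notMem (P : Par) (T : ℝ) : 1 ∉ BB P T := by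
  intro h
  unfold BB at h
  rw [Finset.mem_filter] at h
  exact (LG.MomA.prime_of_mem h.1).1.ne_one rfl

theorem BB_prime {P : Par} {T : ℝ} {p : ℕ} (hp : p ∈ BB P T) : p.Prime := by
  unfold BB at hp
  rw [Finset.mem_filter] at hp
  exact (LG.MomA.prime_of_mem hp.1).1

theorem norm_ne (x : ℝ) : ‖cexp (-(I * (x : ℂ)))‖ = 1 := by
  have : -(I * (x : ℂ)) = I * ((-x : ℝ) : ℂ) := by
    push_cast
    ring
  rw [this, norm_e]

theorem cc_one (P : Par) (T c : ℝ) : cc P T c 1 = 1 := by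
  unfold cc
  rw [if_pos rfl]

theorem cc_ne (P : Par) (T c : ℝ) {n : ℕ} (hn : n ≠ 1) : cc P T c n =
    -((yp P 1 T n : ℝ) : ℂ) * cexp (-(I * ((c * Real.log n : ℝ) : ℂ))) := by
  unfold cc
  rw [if_neg hn]

theorem cc_norm (P : Par) (T c : ℝ) {n : ℕ} (hn : n ≠ 1) (hy : 0 ≤ yp P 1 T n) :
    ‖cc P T c n‖ = yp P 1 T n := by
  rw [cc_ne P T c hn, norm_mul, norm_neg, norm_ne, mul_one, Complex.norm_real,
    Real.norm_of_nonneg hy]

theorem QQ_eq (P : Par) (T c t : ℝ) : QQ P T c t =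
    1 - ∑ p ∈ BB P T, ((yp P 1 T p : ℝ) : ℂ) * cexp (I * (((t - c) * Real.log p : ℝ) : ℂ)) := by
  unfold QQ PP
  rw [Finset.sum_insert (one_notMem P T), cc_one, sub_eq_add_neg, ← Finset.sum_neg_distrib]
  congr 1
  · unfold lg
    simp
  · refine Finset.sum_congr rfl fun p hp => ?_
    rw [cc_ne P T c (BB_prime hp).ne_one, mul_assoc, ← Complex.exp_add]
    unfold lg
    rw [neg_mul]
    congr 3
    push_cast
    ring

/-- the change of variables -/
theorem QQ_r (P : Par) (T c y r : ℝ) (hr : r = 1 ∨ r = -1) :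
    ‖QQ P T c y‖ = ‖QQ P T 0 (r * (y - c))‖ := by
  rcases hr with rfl | rfl
  · rw [QQ_eq, QQ_eq, one_mul, sub_zero]
  · rw [QQ_eq, QQ_eq, ← RCLike.norm_conj (K := ℂ), map_sub, map_one, map_sum]
    congr 2
    refine Finset.sum_congr rfl fun p _ => ?_
    rw [map_mul, Complex.conj_ofReal, ← Complex.exp_conj, map_mul, Complex.conj_I,
      Complex.conj_ofReal]
    congr 2
    push_cast
    ring

theorem fam2 (P : Par) (T : ℝ) :
    fam P 2 T = insert ∅ ((BB P T).image (fun p => ({p} : Finset ℕ))) := by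
  ext A
  rw [mem_fam, Finset.mem_insert, Finset.mem_image]
  constructor
  · rintro ⟨h1, h2⟩
    have hE : ∀ p ∈ A, 2 ≤ Eb P T p := fun p hp => (LG.MomA.prime_of_mem (h1 hp)).2
    have h3 : A.card * 2 ≤ ∑ p ∈ A, Eb P T p := by
      have := Finset.card_nsmul_le_sum A (fun p => Eb P T p) 2 hE
      simpa [smul_eq_mul] using this
    have h4 : A.card ≤ 1 := by omega
    rw [Finset.card_le_one_iff_subset_singleton] at h4
    obtain ⟨q, hq⟩ := h4
    rcases Finset.subset_singleton_iff.1 hq with h5 | h5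
    · left
      exact h5
    · right
      refine ⟨q, ?_, h5.symm⟩
      unfold BB
      rw [Finset.mem_filter]
      rw [h5] at h1 h2 hE
      rw [Finset.sum_singleton] at h2
      have h6 := hE q (Finset.mem_singleton_self q)
      exact ⟨h1 (Finset.mem_singleton_self q), by omega⟩
  · rintro (rfl | ⟨p, hp, rfl⟩)
    · simp
    · unfold BB at hp
      rw [Finset.mem_filter] at hp
      refine ⟨by simpa using hp.1, ?_⟩
      rw [Finset.sum_singleton, hp.2]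

theorem sum_fam2 {M : Type*} [AddCommMonoid M] (P : Par) (T : ℝ) (f : Finset ℕ → M) :
    ∑ A ∈ fam P 2 T, f A = f ∅ + ∑ p ∈ BB P T, f {p} := by
  rw [fam2, Finset.sum_insert, Finset.sum_image]
  · intro p _ q _ h
    exact Finset.singleton_injective h
  · intro h
    rw [Finset.mem_image] at h
    obtain ⟨p, -, h1⟩ := h
    exact Finset.singleton_ne_empty p h1

theorem Qn2 (P : Par) (T t : ℝ) : Qn P 2 T t = 2 - QQ P T 0 t := by
  rw [QQ_eq]
  unfold Qn PP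
  rw [sum_fam2]
  have h1 : ((av P T ∅ : ℝ) : ℂ) * cexp (I * ((t * Real.log (nA ∅) : ℝ) : ℂ)) = 1 := by
    unfold av nA
    simp
  rw [h1]
  have h2 : ∀ p ∈ BB P T, ((av P T {p} : ℝ) : ℂ) * cexp (I * ((t * Real.log (nA {p}) : ℝ) : ℂ)) =
      ((yp P 1 T p : ℝ) : ℂ) * cexp (I * (((t - 0) * Real.log p : ℝ) : ℂ)) := by
    intro p _
    unfold av nA
    simp
  rw [Finset.sum_congr rfl h2]
  ring

/-- facts on the coefficients -/
theorem BB_facts (P : Par) : ∃ C T0 : ℝ, 1 ≤ C ∧ 10 ≤ T0 ∧ ∀ T : ℝ, T0 ≤ T →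
    (∀ p ∈ BB P T, 0 ≤ yp P 1 T p ∧ yp P 1 T p ≤ 4 / Real.sqrt p) ∧
    ∑ p ∈ BB P T, yp P 1 T p ^ 2 ≤ C ∧ ∑ p ∈ BB P T, 1 / (p : ℝ) ≤ C := by
  obtain ⟨T1, hT1, hav⟩ := av_facts P 2
  obtain ⟨C2, T2, hC2, hT2, hG⟩ := Gd_le P 2
  refine ⟨max C2 1, max T1 T2, le_max_right _ _, hT1.trans (le_max_left _ _), fun T hT => ?_⟩
  have hTT1 : T1 ≤ T := (le_max_left _ _).trans hT
  have hTT2 : T2 ≤ T := (le_max_right _ _).trans hT
  obtain ⟨g1, g2⟩ := hG T hTT2
  refine ⟨fun p hp => ?_, ?_, ?_⟩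
  · have hmem : ({p} : Finset ℕ) ∈ fam P 2 T := by
      rw [fam2, Finset.mem_insert, Finset.mem_image]
      exact Or.inr ⟨p, hp, rfl⟩
    have h1 := hav T hTT1 {p} hmem
    have e1 : av P T {p} = yp P 1 T p := by
      unfold av
      simp
    have e2 : nA {p} = p := by
      unfold nA
      simp
    rw [e1, e2] at h1
    norm_num at h1
    exact h1
  · unfold Gd at g1
    rw [sum_fam2] at g1
    have e1 : wA P T ∅ = 1 := by
      unfold wA
      simp
    have e2 : ∀ p ∈ BB P T, wA P T {p} = yp P 1 T p ^ 2 := by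
      intro p _
      unfold wA
      simp
    rw [e1, Finset.sum_congr rfl e2] at g1
    exact (by linarith : _ ≤ C2).trans (le_max_left _ _)
  · rw [sum_fam2] at g2
    have e2 : ∀ p ∈ BB P T, 1 / (nA {p} : ℝ) = 1 / (p : ℝ) := by
      intro p _
      unfold nA
      simp
    have e1 : (1 : ℝ) / (nA ∅ : ℝ) = 1 := by
      unfold nA
      simp
    rw [e1, Finset.sum_congr rfl e2] at g2
    exact (by linarith : _ ≤ C2).trans (le_max_left _ _)

section

variable {κ : ℝ} (hκ : 0 < κ) (hκ1 : κ < 1 / 2)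

theorem PQ_κ : (PQ κ hκ hκ1).κ = κ := rfl

theorem PQ_B : (PQ κ hκ hκ1).B = 16 := rfl

theorem PQ_dat : Dat (PQ κ hκ hκ1) 8 2 ((1 - κ) / 8) where
  hB := rfl
  hB1 := by
    rw [PQ_B]
    norm_num
  hδ := by
    rw [PQ_B, PQ_κ]
    push_cast
    apply le_of_eq
    ring
  hδ0 := by linarith
  hδ1 := by
    rw [PQ_κ]
    linarith

theorem BB_le (T : ℝ) (hT : 10 ≤ T) {p : ℕ} (hp : p ∈ BB (PQ κ hκ hκ1) T) :
    (p : ℝ) ≤ T ^ ((1 - κ) / 8) := by
  have hp1 := BB_prime hp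
  unfold BB at hp
  rw [Finset.mem_filter] at hp
  have h1 := hp.2
  unfold Eb at h1
  have h2 := Nat.le_ceil (((PQ κ hκ hκ1).B : ℝ) * Real.log p / ((1 - (PQ κ hκ hκ1).κ) *
    Real.log T))
  rw [h1, PQ_B, PQ_κ] at h2
  have hL : 0 < Real.log T := Real.log_pos (by linarith)
  have hk : 0 < 1 - κ := by linarith
  rw [div_le_iff₀ (by positivity)] at h2
  push_cast at h2
  have hp0 : (0 : ℝ) < p := by exact_mod_cast hp1.pos
  rw [← Real.log_le_log_iff hp0 (Real.rpow_pos_of_pos (by linarith) _),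
    Real.log_rpow (by linarith)]
  linarith

theorem sum_cc (T c : ℝ) (hT : 10 ≤ T)
    (hy : ∀ p ∈ BB (PQ κ hκ hκ1) T, 0 ≤ yp (PQ κ hκ hκ1) 1 T p ∧
      yp (PQ κ hκ hκ1) 1 T p ≤ 4 / Real.sqrt p) (w : ℕ → ℝ) (W : ℝ) (hW : 1 ≤ W)
    (hw : ∀ n ∈ insert 1 (BB (PQ κ hκ hκ1) T), 0 ≤ w n ∧ w n ≤ W) :
    (∑ n ∈ insert 1 (BB (PQ κ hκ hκ1) T), ‖cc (PQ κ hκ hκ1) T c n‖ * w n) ^ 2 ≤
      81 * W ^ 2 * T ^ ((1 - κ) / 8) := by
  set P := PQ κ hκ hκ1 with hP
  set Y := T ^ ((1 - κ) / 8) with hY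
  have hY1 : 1 ≤ Y := Real.one_le_rpow (by linarith) (by linarith)
  have hs : 0 ≤ Real.sqrt Y := Real.sqrt_nonneg _
  have hs1 : 1 ≤ Real.sqrt Y := by
    rw [Real.one_le_sqrt]
    exact hY1
  have h1 : ∑ p ∈ BB P T, 1 / Real.sqrt p ≤ 2 * Real.sqrt Y := by
    calc ∑ p ∈ BB P T, 1 / Real.sqrt p ≤ ∑ n ∈ Finset.Icc 1 ⌊Y⌋₊, 1 / Real.sqrt n := by
          apply Finset.sum_le_sum_of_subset_of_nonneg
          · intro p hp
            rw [Finset.mem_Icc]
            exact ⟨(BB_prime hp).pos, Nat.le_floor (BB_le hκ hκ1 T hT hp)⟩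
          · intro n _ _
            positivity
      _ ≤ 2 * Real.sqrt ⌊Y⌋₊ := sum_inv_sqrt _
      _ ≤ _ := by
          gcongr
          exact Nat.floor_le (by linarith)
  have hW0 : 0 ≤ W := by linarith
  have h2 : ∑ n ∈ insert 1 (BB P T), ‖cc P T c n‖ * w n ≤ 9 * W * Real.sqrt Y := by
    rw [Finset.sum_insert (one_notMem P T), cc_one, norm_one, one_mul]
    have h3 : ∑ p ∈ BB P T, ‖cc P T c p‖ * w p ≤ ∑ p ∈ BB P T, 4 * W * (1 / Real.sqrt p) := by
      refine Finset.sum_le_sum fun p hp => ?_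
      obtain ⟨a1, a2⟩ := hy p hp
      obtain ⟨b1, b2⟩ := hw p (Finset.mem_insert_of_mem hp)
      rw [cc_norm P T c (BB_prime hp).ne_one a1]
      calc yp P 1 T p * w p ≤ 4 / Real.sqrt p * W := by gcongr
        _ = _ := by ring
    rw [← Finset.mul_sum] at h3
    have h4 := (hw 1 (Finset.mem_insert_self _ _)).2
    calc w 1 + ∑ p ∈ BB P T, ‖cc P T c p‖ * w p ≤ W + 4 * W * (2 * Real.sqrt Y) := by
          refine add_le_add h4 (h3.trans ?_)
          gcongr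
      _ ≤ W * Real.sqrt Y + 4 * W * (2 * Real.sqrt Y) := by
          have := mul_le_mul_of_nonneg_left hs1 hW0
          linarith
      _ = _ := by ring
  calc _ ≤ (9 * W * Real.sqrt Y) ^ 2 := by
        apply pow_le_pow_left₀ _ h2
        exact Finset.sum_nonneg fun n hn => mul_nonneg (norm_nonneg _) (hw n hn).1
    _ = 81 * W ^ 2 * Real.sqrt Y ^ 2 := by ring
    _ = _ := by rw [Real.sq_sqrt (by linarith)]

/-- the primes in the middle of the bin have coefficients close to `1 / √p` -/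
theorem BB_mid : ∃ T0 : ℝ, 10 ≤ T0 ∧ ∀ T : ℝ, T0 ≤ T →
    ∀ p ∈ Bl (5 * (1 - κ) / 64 * Real.log T) (7 * (1 - κ) / 64 * Real.log T),
    p ∈ BB (PQ κ hκ hκ1) T ∧ 1 / 2 / Real.sqrt p ≤ yp (PQ κ hκ hκ1) 1 T p := by
  obtain ⟨C1, T1, hC1, hT1, hchi⟩ := SP.chi_approx (PQ κ hκ hκ1)
  obtain ⟨T2, hT2⟩ := Filter.eventually_atTop.1
    (Real.tendsto_log_atTop.eventually_ge_atTop (2 * C1))
  refine ⟨max T1 T2, hT1.trans (le_max_left _ _), fun T hT p hp => ?_⟩
  have hTT1 : T1 ≤ T := (le_max_left _ _).trans hT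
  have hL2 := hT2 T ((le_max_right _ _).trans hT)
  have hT10 : 10 ≤ T := hT1.trans hTT1
  have hL : 0 < Real.log T := Real.log_pos (by linarith)
  rw [mem_Bl] at hp
  obtain ⟨hp1, hp2, hp3⟩ := hp
  set u := Real.log p / Real.log T with hu
  have hk : 0 < 1 - κ := by linarith
  have hu1 : 5 * (1 - κ) / 64 ≤ u := by
    rw [hu, le_div_iff₀ hL]
    exact hp2.le
  have hu2 : u ≤ 7 * (1 - κ) / 64 := by
    rw [hu, div_le_iff₀ hL]
    exact hp3
  have hu0 : 0 < u := by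
    have : 0 < 5 * (1 - κ) / 64 := by positivity
    linarith
  have hb : (PQ κ hκ hκ1).b 2 u = 1 / u := by
    unfold PQ
    rw [PK_b hκ hκ1 _ _ (le_refl 2) (by norm_num)]
    rw [SP.ChooseAux.bump_one (by linarith)]
    · push_cast
      linarith
    · push_cast
      linarith
  have hne : (PQ κ hκ hκ1).b 2 u ≠ 0 := by
    rw [hb]
    positivity
  obtain ⟨m1, m2⟩ := SP.TTAux.mem_of_b (PQ κ hκ hκ1) T hT10 p 2 hp1 hne
  refine ⟨by unfold BB; rw [Finset.mem_filter]; exact ⟨m1, m2⟩, ?_⟩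
  have h1 := ((hchi T hTT1).1 p m1).2.1
  rw [m2, ← hu, hb, mul_one_div_cancel hu0.ne'] at h1
  have h2 : C1 / Real.log T ≤ 1 / 2 := by
    rw [div_le_iff₀ hL]
    linarith
  have h3 := (abs_le.1 h1).1
  have h4 : 1 / 2 ≤ chi (PQ κ hκ hκ1) T p := by linarith
  unfold yp
  rw [one_mul]
  gcongr

end

end Pool.Agent.V7H88.DT
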