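import Pool.Agent.V7H88.DT.G

/-! Comparison of the mean squares at the two heights. -/

set_option autoImplicit false

open Complex Filter Topology Set MeasureTheory

namespace Pool.Agent.V7H88.DT

open Pool.Agent.V7H88.DZ
open SG (hh nn dd dl ord NZ)
open SP (RHs ZZ mu wt Mk Ya Par Eb PS chi qq tt)
open LG (fam nA yp prs QT tm IsQ)

/-- elementary inequalities between the two heights -/
theorem ev_h (κ k A : ℝ) (hκ : 0 < κ) (hκ1 : κ < 1 / 2) (hk : 0 < k) (hk1 : k ≤ κ / 4)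
    (hk2 : k ≤ (1 - 2 * κ) / 3) : ∃ T0 : ℝ, 10 ≤ T0 ∧ ∀ T : ℝ, T0 ≤ T → 1 ≤ Real.log T ∧
    ∀ X : ℝ, T ^ (1 - k) ≤ X → X ≤ T ^ (1 + k) →
    A ≤ X ∧ X ^ (3 / 4 : ℝ) ≤ dd κ T ∧ dd κ T ≤ X ^ (1 - κ / 4) ∧
    T ^ ((1 - κ) / 8) ≤ X ^ (1 / 6 : ℝ) ∧
    81 * (1 + Real.log T) ^ 2 * T ^ ((1 - κ) / 8) ≤ X ^ (1 / 3 : ℝ) ∧
    |Real.log X - Real.log T| ≤ k * Real.log T := by
  have h1 := isLittleO_log_rpow_atTop (show (0 : ℝ) < 1 / 40 by norm_num)
  rw [Asymptotics.isLittleO_iff] at h1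
  have ev : ∀ᶠ T : ℝ in atTop, 10 ≤ T ∧ 1 ≤ Real.log T ∧ A ≤ T ^ (1 / 2 : ℝ) ∧
      18 * Real.log T ≤ T ^ (1 / 40 : ℝ) := by
    filter_upwards [eventually_ge_atTop 10, Real.tendsto_log_atTop.eventually_ge_atTop 1,
      (tendsto_rpow_atTop (show (0 : ℝ) < 1 / 2 by norm_num)).eventually_ge_atTop A,
      h1 (show (0 : ℝ) < 1 / 18 by norm_num)] with T x1 x2 x3 x4
    rw [Real.norm_of_nonneg (by linarith),
      Real.norm_of_nonneg (Real.rpow_nonneg (by linarith) _)] at x4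
    exact ⟨x1, x2, x3, by linarith⟩
  obtain ⟨T0, hT0⟩ := Filter.eventually_atTop.1 ev
  refine ⟨max 10 T0, le_max_left _ _, fun T hT => ?_⟩
  obtain ⟨x1, x2, x3, x4⟩ := hT0 T ((le_max_right _ _).trans hT)
  refine ⟨x2, fun X hX1 hX2 => ?_⟩
  have hT0 : 0 < T := by linarith
  have hT1 : 1 ≤ T := by linarith
  have hTk : 0 < T ^ (1 - k) := Real.rpow_pos_of_pos hT0 _
  have hX0 : 0 < X := lt_of_lt_of_le hTk hX1
  have hpow : ∀ x y : ℝ, 0 ≤ y → x ≤ (1 - k) * y → T ^ x ≤ X ^ y := by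
    intro x y hy hxy
    calc T ^ x ≤ T ^ ((1 - k) * y) := Real.rpow_le_rpow_of_exponent_le hT1 hxy
      _ = (T ^ (1 - k)) ^ y := Real.rpow_mul hT0.le _ _
      _ ≤ X ^ y := Real.rpow_le_rpow hTk.le hX1 hy
  refine ⟨?_, ?_, ?_, ?_, ?_, ?_⟩
  · have := hpow (1 / 2) 1 (by norm_num) (by linarith)
    rw [Real.rpow_one] at this
    linarith
  · calc X ^ (3 / 4 : ℝ) ≤ (T ^ (1 + k)) ^ (3 / 4 : ℝ) :=
          Real.rpow_le_rpow hX0.le hX2 (by norm_num)
      _ = T ^ ((1 + k) * (3 / 4)) := (Real.rpow_mul hT0.le _ _).symm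
      _ ≤ T ^ (1 - κ / 2) := Real.rpow_le_rpow_of_exponent_le hT1 (by linarith)
  · exact hpow (1 - κ / 2) (1 - κ / 4) (by linarith) (by nlinarith)
  · exact hpow _ _ (by norm_num) (by linarith)
  · have h2 : 81 * (1 + Real.log T) ^ 2 ≤ T ^ (1 / 20 : ℝ) := by
      calc 81 * (1 + Real.log T) ^ 2 ≤ (18 * Real.log T) ^ 2 := by nlinarith
        _ ≤ (T ^ (1 / 40 : ℝ)) ^ 2 := pow_le_pow_left₀ (by positivity) x4 2
        _ = T ^ (1 / 20 : ℝ) := by
            rw [← Real.rpow_natCast, ← Real.rpow_mul hT0.le]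
            norm_num
    calc 81 * (1 + Real.log T) ^ 2 * T ^ ((1 - κ) / 8) ≤ T ^ (1 / 20 : ℝ) * T ^ ((1 - κ) / 8) := by
          gcongr
      _ = T ^ (1 / 20 + (1 - κ) / 8) := (Real.rpow_add hT0 _ _).symm
      _ ≤ _ := hpow _ _ (by norm_num) (by linarith)
  · have h3 : (1 - k) * Real.log T ≤ Real.log X := by
      rw [← Real.log_rpow hT0]
      exact Real.log_le_log hTk hX1
    have h4 : Real.log X ≤ (1 + k) * Real.log T := by
      rw [← Real.log_rpow hT0]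
      exact Real.log_le_log hX0 hX2
    rw [abs_le]
    constructor <;> linarith

/-- the coefficients of the prime side -/
theorem ph_val (Λ d : ℝ) (p : ℕ) (hp : p.Prime) (hd : 0 ≤ d) (h1 : d ≤ Real.log p)
    (h2 : Real.log p + d ≤ Λ) :
    ph Λ p ≤ Real.log p / Real.sqrt p * Real.sqrt (2 * Real.pi) ∧
    Real.log p / Real.sqrt p * (Real.sqrt (2 * Real.pi) - 4 * Real.exp (-(d ^ 2 / 4))) ≤
      ph Λ p := by
  have hp0 : (0 : ℝ) < p := by exact_mod_cast hp.pos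
  have e1 : ph Λ p = Real.log p / Real.sqrt p *
      ∫ v in (-Real.log p)..(Λ - Real.log p), Real.exp (-v ^ 2 / 2) := by
    unfold ph
    rw [ArithmeticFunction.vonMangoldt_apply_prime hp]
    have e2 : (p : ℝ) ^ (-(1 / 2) : ℝ) = 1 / Real.sqrt p := by
      rw [Real.rpow_neg hp0.le, ← Real.sqrt_eq_rpow, one_div]
    have e3 : ∫ u in (0 : ℝ)..Λ, Real.exp (-(u - Real.log p) ^ 2 / 2) =
        ∫ v in (-Real.log p)..(Λ - Real.log p), Real.exp (-v ^ 2 / 2) := by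
      rw [intervalIntegral.integral_comp_sub_right (fun v => Real.exp (-v ^ 2 / 2)) (Real.log p),
        zero_sub]
    rw [e2, e3]
    ring
  have hlp : 0 ≤ Real.log p / Real.sqrt p := by
    have := Real.log_natCast_nonneg p
    positivity
  have h3 := g_tail (-Real.log p) (Λ - Real.log p) d hd (by linarith) (by linarith)
  rw [e1]
  constructor
  · apply mul_le_mul_of_nonneg_left _ hlp
    rw [← g1_val, intervalIntegral.integral_of_le (by linarith)]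
    exact setIntegral_le_integral g1_int (Eventually.of_forall fun u => (Real.exp_pos _).le)
  · apply mul_le_mul_of_nonneg_left _ hlp
    have := (abs_le.1 h3).1
    linarith

end Pool.Agent.V7H88.DT
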