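import Pool.Agent.V7H88.DT.H

/-! Comparison of the mean squares at the two heights. -/

set_option autoImplicit false

open Complex Filter Topology Set MeasureTheory

namespace Pool.Agent.V7H88.DT

open Pool.Agent.V7H88.DZ
open SG (hh nn dd dl ord NZ)
open SP (RHs ZZ mu wt Mk Ya Par Eb PS chi qq tt)
open LG (fam nA yp prs QT tm IsQ)

theorem re_cc (P : Par) (T c : ℝ) {p : ℕ} (hp : p ≠ 1) :
    (cc P T c p * (starRingEnd ℂ) (cc P T c 1)).re =
      -(yp P 1 T p * Real.cos (c * Real.log p)) := by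
  rw [cc_one, map_one, mul_one, cc_ne P T c hp]
  have e1 : -(I * ((c * Real.log p : ℝ) : ℂ)) = I * ((-(c * Real.log p) : ℝ) : ℂ) := by
    push_cast
    ring
  rw [e1, mul_comm I, neg_mul, Complex.neg_re, Complex.re_ofReal_mul, Complex.exp_ofReal_mul_I_re,
    Real.cos_neg]

section

variable {κ : ℝ} (hκ : 0 < κ) (hκ1 : κ < 1 / 2)

theorem BB_ge (T : ℝ) (hT : 10 ≤ T) {p : ℕ} (hp : p ∈ BB (PQ κ hκ hκ1) T) :
    (1 - κ) / 16 * Real.log T ≤ Real.log p := by
  unfold BB at hp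
  rw [Finset.mem_filter] at hp
  have h1 := hp.2
  unfold Eb at h1
  rw [PQ_B, PQ_κ] at h1
  have hL : 0 < Real.log T := Real.log_pos (by linarith)
  have hk : 0 < 1 - κ := by linarith
  by_contra hcon
  push Not at hcon
  have h2 : ⌈((16 : ℕ) : ℝ) * Real.log p / ((1 - κ) * Real.log T)⌉₊ ≤ 1 := by
    rw [Nat.ceil_le]
    rw [div_le_iff₀ (by positivity)]
    push_cast
    linarith
  omega

/-- the prime sides -/
theorem prime_diff (hRH : RHs) (K : ℝ) (hK : 0 < K) :
    ∃ δ C T0 : ℝ, 0 < δ ∧ 1 ≤ C ∧ 10 ≤ T0 ∧ ∀ T : ℝ, T0 ≤ T → ∀ c : ℝ,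
    K / Real.log T ≤ |c| → |c| ≤ Real.exp (3 * Real.log T) → ∀ Λ Λ' : ℝ,
    1 / 2 * Real.log T ≤ Λ → 1 / 2 * Real.log T ≤ Λ' →
    δ * Real.log T - C ≤ ∑ p ∈ BB (PQ κ hκ hκ1) T, ph Λ p * yp (PQ κ hκ hκ1) 1 T p -
      ∑ p ∈ BB (PQ κ hκ hκ1) T, ph Λ' p * (yp (PQ κ hκ hκ1) 1 T p * Real.cos (c * Real.log p)) ∧
    ∑ p ∈ BB (PQ κ hκ hκ1) T, ph Λ' p * (yp (PQ κ hκ hκ1) 1 T p * Real.cos (c * Real.log p)) ≤
      C * Real.log T := by
  have hk : 0 < 1 - κ := by linarith
  obtain ⟨δ, L0, hδ, hL0, hcos⟩ := cos_all hRH (5 * (1 - κ) / 64) (7 * (1 - κ) / 64) K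
    (by positivity) (by linarith) hK
  obtain ⟨C1, T1, hC1, hT1, hfac⟩ := BB_facts (PQ κ hκ hκ1)
  obtain ⟨T2, hT2, hmid⟩ := BB_mid hκ hκ1
  obtain ⟨T3, hT3⟩ := Filter.eventually_atTop.1
    (Real.tendsto_log_atTop.eventually_ge_atTop (max L0 (16 * 1024 / (1 - κ) ^ 2 * 1)))
  refine ⟨δ, 12 * C1, max T1 (max T2 T3), hδ, by linarith, hT1.trans (le_max_left _ _), ?_⟩
  intro T hT c hc1 hc2 Λ Λ' hΛ hΛ'
  simp only [max_le_iff] at hT
  obtain ⟨hTT1, hTT2, hTT3⟩ := hT
  have hT10 : 10 ≤ T := hT1.trans hTT1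
  have hL3 := hT3 T hTT3
  set L := Real.log T with hL
  have hLL0 : L0 ≤ L := (le_max_left _ _).trans hL3
  have hLbig : 16 * 1024 / (1 - κ) ^ 2 ≤ L := by
    have := (le_max_right _ _).trans hL3
    linarith
  have hL1 : 1 ≤ L := hL0.trans hLL0
  have hL0' : 0 < L := by linarith
  obtain ⟨f1, f2, f3⟩ := hfac T hTT1
  set P := PQ κ hκ hκ1 with hP
  set d : ℝ := (1 - κ) / 16 * L with hd
  have hd0 : 0 ≤ d := by positivity
  set ω : ℝ := 4 * Real.exp (-(d ^ 2 / 4)) with hω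
  have hω0 : 0 ≤ ω := by positivity
  have hω1 : ω ≤ 1 / L := by
    have h1 : 16 * L ≤ d ^ 2 := by
      have h2 : 16 * 1024 ≤ L * (1 - κ) ^ 2 := by
        rwa [div_le_iff₀ (by positivity)] at hLbig
      have h3 : d ^ 2 = (L * (1 - κ) ^ 2) * L / 256 := by
        rw [hd]
        ring
      rw [h3]
      nlinarith
    have h2 : Real.exp (-(d ^ 2 / 4)) ≤ Real.exp (-(4 * L)) := by
      apply Real.exp_le_exp.2
      linarith
    have h3 : 4 * L ≤ Real.exp (4 * L) := by linarith [Real.add_one_le_exp (4 * L)]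
    rw [Real.exp_neg (4 * L)] at h2
    calc ω ≤ 4 * (Real.exp (4 * L))⁻¹ := by
          rw [hω]
          gcongr
      _ ≤ 4 * (4 * L)⁻¹ := by gcongr
      _ = 1 / L := by field_simp
  set s := Real.sqrt (2 * Real.pi) with hs
  have hs3 : s ≤ 3 := s2pi_le
  have hs2 : 2 ≤ s := s2pi_ge
  have hph : ∀ p ∈ BB P T, ∀ Λ0 : ℝ, 1 / 2 * L ≤ Λ0 →
      ph Λ0 p ≤ Real.log p / Real.sqrt p * s ∧
      Real.log p / Real.sqrt p * (s - ω) ≤ ph Λ0 p := by
    intro p hp Λ0 h0
    have h1 := BB_le hκ hκ1 T hT10 hp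
    have hp1 := BB_prime hp
    have hp0 : (0 : ℝ) < p := by exact_mod_cast hp1.pos
    have h2 : Real.log p ≤ (1 - κ) / 8 * L := by
      have := Real.log_le_log hp0 h1
      rwa [Real.log_rpow (by linarith)] at this
    refine ph_val Λ0 d p hp1 hd0 (BB_ge hκ hκ1 T hT10 hp) ?_
    have h3 : Real.log p + d ≤ 3 * (1 - κ) / 16 * L := by
      rw [hd]
      linarith
    have h4 : 3 * (1 - κ) / 16 * L ≤ 1 / 2 * L := by
      apply mul_le_mul_of_nonneg_right _ hL0'.le
      linarith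
    linarith
  -- the total of the weights
  have hlogp : ∀ p ∈ BB P T, 0 ≤ Real.log p ∧ Real.log p ≤ L := by
    intro p hp
    have h1 := BB_le hκ hκ1 T hT10 hp
    have hp1 := BB_prime hp
    have hp0 : (0 : ℝ) < p := by exact_mod_cast hp1.pos
    have h2 : Real.log p ≤ (1 - κ) / 8 * L := by
      have := Real.log_le_log hp0 h1
      rwa [Real.log_rpow (by linarith)] at this
    refine ⟨Real.log_natCast_nonneg p, h2.trans ?_⟩
    have : (1 - κ) / 8 ≤ 1 := by linarith
    nlinarith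
  have hgy : ∀ p ∈ BB P T, 0 ≤ Real.log p / Real.sqrt p * yp P 1 T p ∧
      Real.log p / Real.sqrt p * yp P 1 T p ≤ 4 * L * (1 / (p : ℝ)) := by
    intro p hp
    obtain ⟨a1, a2⟩ := f1 p hp
    obtain ⟨b1, b2⟩ := hlogp p hp
    have hp1 := BB_prime hp
    have hp0 : (0 : ℝ) < p := by exact_mod_cast hp1.pos
    have hsp : 0 < Real.sqrt p := Real.sqrt_pos.2 hp0
    refine ⟨by positivity, ?_⟩
    calc Real.log p / Real.sqrt p * yp P 1 T p ≤ L / Real.sqrt p * (4 / Real.sqrt p) := by gcongr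
      _ = 4 * L * (1 / (Real.sqrt p * Real.sqrt p)) := by
          field_simp
      _ = _ := by rw [Real.mul_self_sqrt hp0.le]
  have hG : ∑ p ∈ BB P T, Real.log p / Real.sqrt p * yp P 1 T p ≤ 4 * L * C1 := by
    calc _ ≤ ∑ p ∈ BB P T, 4 * L * (1 / (p : ℝ)) := Finset.sum_le_sum fun p hp => (hgy p hp).2
      _ = 4 * L * ∑ p ∈ BB P T, 1 / (p : ℝ) := by rw [Finset.mul_sum]
      _ ≤ _ := by gcongr
  have hG0 : 0 ≤ ∑ p ∈ BB P T, Real.log p / Real.sqrt p * yp P 1 T p :=
    Finset.sum_nonneg fun p hp => (hgy p hp).1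
  have hup : ∀ p ∈ BB P T, ph Λ' p * (yp P 1 T p * Real.cos (c * Real.log p)) ≤
      Real.log p / Real.sqrt p * yp P 1 T p * (s * Real.cos (c * Real.log p) + ω) := by
    intro p hp
    obtain ⟨a1, a2⟩ := f1 p hp
    obtain ⟨b1, b2⟩ := hph p hp Λ' hΛ'
    obtain ⟨b3, -⟩ := hlogp p hp
    have hg0 : 0 ≤ Real.log p / Real.sqrt p := by positivity
    set g := Real.log p / Real.sqrt p with hg
    set x := Real.cos (c * Real.log p) with hx
    have hx1 : -1 ≤ x := Real.neg_one_le_cos _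
    have k1 : ph Λ' p * x ≤ g * (s * x + ω) := by
      rcases le_total 0 x with h0 | h0
      · have k2 : ph Λ' p * x ≤ g * s * x := mul_le_mul_of_nonneg_right b1 h0
        have k3 : 0 ≤ g * ω := mul_nonneg hg0 hω0
        nlinarith
      · have k2 : ph Λ' p * x ≤ g * (s - ω) * x := by nlinarith
        have k3 : 0 ≤ g * ω * (1 + x) := mul_nonneg (mul_nonneg hg0 hω0) (by linarith)
        nlinarith
    calc ph Λ' p * (yp P 1 T p * x) = yp P 1 T p * (ph Λ' p * x) := by ring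
      _ ≤ yp P 1 T p * (g * (s * x + ω)) := mul_le_mul_of_nonneg_left k1 a1
      _ = _ := by ring
  constructor
  · rw [← Finset.sum_sub_distrib]
    have h1 : ∑ p ∈ BB P T, (s * (Real.log p / Real.sqrt p * yp P 1 T p *
        (1 - Real.cos (c * Real.log p))) -
        2 * ω * (Real.log p / Real.sqrt p * yp P 1 T p)) ≤
        ∑ p ∈ BB P T, (ph Λ p * yp P 1 T p -
          ph Λ' p * (yp P 1 T p * Real.cos (c * Real.log p))) := by
      refine Finset.sum_le_sum fun p hp => ?_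
      have h2 := hup p hp
      obtain ⟨-, b2⟩ := hph p hp Λ hΛ
      obtain ⟨a1, a2⟩ := f1 p hp
      have h3 := mul_le_mul_of_nonneg_right b2 a1
      nlinarith
    refine le_trans ?_ h1
    rw [Finset.sum_sub_distrib, ← Finset.mul_sum, ← Finset.mul_sum]
    have h2 : 2 * ω * ∑ p ∈ BB P T, Real.log p / Real.sqrt p * yp P 1 T p ≤ 8 * C1 := by
      calc _ ≤ 2 * (1 / L) * (4 * L * C1) := by gcongr
        _ = 8 * C1 := by
          field_simp
          norm_num
    have h3 : 1 / 2 * (δ * L) ≤ ∑ p ∈ BB P T, Real.log p / Real.sqrt p * yp P 1 T p *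
        (1 - Real.cos (c * Real.log p)) := by
      have h4 := hcos L hLL0 c hc1 hc2
      have h5 : 1 / 2 * ∑ p ∈ Bl (5 * (1 - κ) / 64 * L) (7 * (1 - κ) / 64 * L),
          Real.log p / p * (1 - Real.cos (c * Real.log p)) ≤
          ∑ p ∈ BB P T, Real.log p / Real.sqrt p * yp P 1 T p *
          (1 - Real.cos (c * Real.log p)) := by
        rw [Finset.mul_sum]
        refine le_trans (Finset.sum_le_sum fun p hp => ?_)
          (Finset.sum_le_sum_of_subset_of_nonneg (fun p hp => (hmid T hTT2 p hp).1)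
            fun p hp _ => mul_nonneg (hgy p hp).1 (by linarith [Real.cos_le_one (c * Real.log p)]))
        obtain ⟨c1, c2⟩ := hmid T hTT2 p hp
        have hp1 := BB_prime c1
        have hp0 : (0 : ℝ) < p := by exact_mod_cast hp1.pos
        have hsp : 0 < Real.sqrt p := Real.sqrt_pos.2 hp0
        obtain ⟨b1, b2⟩ := hlogp p c1
        have h6 : 1 / 2 * (Real.log p / p) ≤ Real.log p / Real.sqrt p * yp P 1 T p := by
          calc 1 / 2 * (Real.log p / p) = Real.log p / Real.sqrt p * (1 / 2 / Real.sqrt p) := by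
                have h7 := Real.mul_self_sqrt hp0.le
                have h8 : Real.log p / Real.sqrt p * (1 / 2 / Real.sqrt p) =
                    1 / 2 * (Real.log p / (Real.sqrt p * Real.sqrt p)) := by
                  field_simp
                rw [h8, h7]
            _ ≤ _ := by gcongr
        rw [← mul_assoc]
        exact mul_le_mul_of_nonneg_right h6 (by linarith [Real.cos_le_one (c * Real.log p)])
      linarith
    have h4 : δ * L ≤ s * ∑ p ∈ BB P T, Real.log p / Real.sqrt p * yp P 1 T p *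
        (1 - Real.cos (c * Real.log p)) := by
      have h5 : 0 ≤ δ * L := by positivity
      nlinarith
    linarith
  · calc ∑ p ∈ BB P T, ph Λ' p * (yp P 1 T p * Real.cos (c * Real.log p)) ≤
        ∑ p ∈ BB P T, 3 * (Real.log p / Real.sqrt p * yp P 1 T p) := by
          refine Finset.sum_le_sum fun p hp => ?_
          obtain ⟨a1, a2⟩ := f1 p hp
          obtain ⟨b1, b2⟩ := hph p hp Λ' hΛ'
          obtain ⟨b3, -⟩ := hlogp p hp
          have hg0 : 0 ≤ Real.log p / Real.sqrt p := by positivity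
          have hω2 : ω ≤ 1 := hω1.trans (by
            rw [div_le_one hL0']
            exact hL1)
          have h0 : 0 ≤ ph Λ' p := le_trans (mul_nonneg hg0 (by linarith)) b2
          have h1 : ph Λ' p ≤ Real.log p / Real.sqrt p * 3 :=
            b1.trans (mul_le_mul_of_nonneg_left hs3 hg0)
          have h2 : yp P 1 T p * Real.cos (c * Real.log p) ≤ yp P 1 T p * 1 :=
            mul_le_mul_of_nonneg_left (Real.cos_le_one _) a1
          calc ph Λ' p * (yp P 1 T p * Real.cos (c * Real.log p)) ≤ ph Λ' p * (yp P 1 T p * 1) :=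
                mul_le_mul_of_nonneg_left h2 h0
            _ ≤ (Real.log p / Real.sqrt p * 3) * (yp P 1 T p * 1) := by gcongr
            _ = _ := by ring
      _ = 3 * ∑ p ∈ BB P T, Real.log p / Real.sqrt p * yp P 1 T p := by rw [Finset.mul_sum]
      _ ≤ 3 * (4 * L * C1) := by gcongr
      _ = _ := by ring

end

end Pool.Agent.V7H88.DT
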