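import Pool.Agent.V7H88.DT.H2

/-! Comparison of the mean squares at the two heights. -/

set_option autoImplicit false

open Complex Filter Topology Set MeasureTheory

namespace Pool.Agent.V7H88.DT

open Pool.Agent.V7H88.DZ
open SG (hh nn dd dl ord NZ)
open SP (RHs ZZ mu wt Mk Ya Par Eb PS chi qq tt)
open LG (fam nA yp prs QT tm IsQ)

/-- the numerical part -/
theorem num_low (S1 S2 A1 A2 N s D L LX Cg Cp C1 M δ k : ℝ) (hCg : 0 < Cg) (hCp : 1 ≤ Cp)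
    (hC1 : 1 ≤ C1) (hδ : 0 < δ) (hM : M = Cp + 2 * Cg * (2 + C1)) (hk3 : k ≤ δ / (12 * (1 + C1)))
    (hkk : k ≤ 1 / 2) (hL1 : 1 ≤ L) (hD0 : 0 < D) (hN0 : 0 ≤ N) (f2 : N ≤ C1) (hs3 : s ≤ 3)
    (hs2 : 2 ≤ s) (hXL : LX - L ≤ k * L) (hMD : 4 * M ≤ L * δ)
    (p1 : δ * L - Cp ≤ A1 - A2) (p2 : A2 ≤ Cp * L)
    (n1 : -(Cg * D * (1 + (1 + N))) ≤ Real.pi * S1 - (s * D * (L / 2) * (1 + N) - D * -A1))
    (n2 : Real.pi * S2 - (s * D * (LX / 2) * (1 + N) - D * -A2) ≤ Cg * D * (1 + (1 + N)))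
    (hLX : 0 ≤ LX) :
    δ / 8 * (D * L) ≤ S1 - S2 ∧ S2 ≤ (3 * (1 + C1) + Cp + M) * (D * L) := by
  have hL0 : 0 < L := by linarith
  have hM0 : 0 < M := by
    rw [hM]
    positivity
  have q1 : Cg * D * (1 + (1 + N)) ≤ Cg * D * (2 + C1) := by
    have : 1 + (1 + N) ≤ 2 + C1 := by linarith
    gcongr
  have q2 : s * D * (LX / 2) * (1 + N) ≤ s * D * (L / 2) * (1 + N) + D * L * (δ / 8) := by
    have r1 : LX ≤ L + δ / (12 * (1 + C1)) * L := by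
      have : k * L ≤ δ / (12 * (1 + C1)) * L := mul_le_mul_of_nonneg_right hk3 hL0.le
      linarith
    have r2 : s * D * (LX / 2) * (1 + N) ≤
        s * D * ((L + δ / (12 * (1 + C1)) * L) / 2) * (1 + N) := by
      have h1 : 0 ≤ s * D := by positivity
      gcongr
    have r3 : s * (δ / (12 * (1 + C1)) * L) * (1 + N) ≤
        3 * (δ / (12 * (1 + C1)) * L) * (1 + C1) := by
      gcongr
    have r4 : 3 * (δ / (12 * (1 + C1)) * L) * (1 + C1) = δ / 4 * L := by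
      field_simp
      norm_num
    have r5 : D / 2 * (s * (δ / (12 * (1 + C1)) * L) * (1 + N)) ≤ D / 2 * (δ / 4 * L) := by
      rw [← r4]
      gcongr
    have e : s * D * ((L + δ / (12 * (1 + C1)) * L) / 2) * (1 + N) =
        s * D * (L / 2) * (1 + N) + D / 2 * (s * (δ / (12 * (1 + C1)) * L) * (1 + N)) := by ring
    rw [e] at r2
    linarith
  have q3 : D * (δ * L - Cp) ≤ D * (A1 - A2) := mul_le_mul_of_nonneg_left p1 hD0.le
  have q4 : D * (4 * M) ≤ D * (L * δ) := mul_le_mul_of_nonneg_left hMD hD0.le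
  have hπ := Real.pi_gt_three
  have hπ4 := Real.pi_lt_four
  constructor
  · have r1 : δ / 2 * (D * L) ≤ Real.pi * (S1 - S2) := by
      have r0 : D * (A1 - A2) - D * L * (δ / 8) - 2 * (Cg * D * (2 + C1)) ≤
          Real.pi * (S1 - S2) := by
        linarith
      have r2 : 2 * (Cg * D * (2 + C1)) + D * Cp = D * M := by
        rw [hM]
        ring
      have r3 : 0 ≤ D * L * δ := by positivity
      linarith
    have r2 : 0 ≤ S1 - S2 := by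
      by_contra hneg
      push Not at hneg
      have r3 : 0 < δ / 2 * (D * L) := by positivity
      nlinarith
    have r3 : Real.pi * (S1 - S2) ≤ 4 * (S1 - S2) := mul_le_mul_of_nonneg_right hπ4.le r2
    linarith
  · by_cases hS : S2 ≤ 0
    · refine hS.trans ?_
      positivity
    · push Not at hS
      have r1 : S2 ≤ Real.pi * S2 := le_mul_of_one_le_left hS.le (by linarith)
      have r2 : s * D * (LX / 2) * (1 + N) ≤ 3 * D * (2 * L / 2) * (1 + C1) := by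
        have : LX ≤ 2 * L := by
          have : k * L ≤ 1 / 2 * L := mul_le_mul_of_nonneg_right hkk hL0.le
          linarith
        gcongr
      have r3 : D * A2 ≤ D * (Cp * L) := mul_le_mul_of_nonneg_left p2 hD0.le
      have r4 : Cg * D * (2 + C1) ≤ M * (D * L) := by
        have r5 : D ≤ D * L := le_mul_of_one_le_right hD0.le hL1
        have r6 : Cg * (2 + C1) ≤ M := by
          rw [hM]
          have : 0 ≤ Cg * (2 + C1) := by positivity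
          linarith
        calc Cg * D * (2 + C1) = Cg * (2 + C1) * D := by ring
          _ ≤ M * (D * L) := by gcongr
      linarith

section

variable {κ : ℝ} (hκ : 0 < κ) (hκ1 : κ < 1 / 2)

theorem norm_sum_cc (T c : ℝ) (hy : ∀ p ∈ BB (PQ κ hκ hκ1) T, 0 ≤ yp (PQ κ hκ hκ1) 1 T p) :
    ∑ n ∈ insert 1 (BB (PQ κ hκ hκ1) T), ‖cc (PQ κ hκ hκ1) T c n‖ ^ 2 =
      1 + ∑ p ∈ BB (PQ κ hκ hκ1) T, yp (PQ κ hκ hκ1) 1 T p ^ 2 := by
  rw [Finset.sum_insert (one_notMem _ T), cc_one, norm_one, one_pow]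
  congr 1
  refine Finset.sum_congr rfl fun p hp => ?_
  rw [cc_norm _ T c (BB_prime hp).ne_one (hy p hp)]

/-- the mean squares at the two heights -/
theorem diff_low (hRH : RHs) (K : ℝ) (hK : 0 < K) :
    ∃ δ k C T0 : ℝ, 0 < δ ∧ 0 < k ∧ k ≤ 1 / 2 ∧ 0 < C ∧ 100 ≤ T0 ∧ ∀ T : ℝ, T0 ≤ T → ∀ X c : ℝ,
    T ^ (1 - k) ≤ X → X ≤ T ^ (1 + k) →
    K / Real.log T ≤ |c| → |c| ≤ Real.exp (3 * Real.log T) → ∀ t0 t1 : ℝ,
    T + Real.log T + T / 20 ≤ t0 → t0 + T / 20 ≤ 2 * T - Real.log T →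
    X + Real.log X + X / 20 ≤ t1 → t1 + X / 20 ≤ 2 * X - Real.log X →
    δ * (dd κ T * Real.log T) ≤
      ∑ᶠ s ∈ ZZ T, (mu s : ℝ) * (wt t0 (dd κ T) s.im * ‖QQ (PQ κ hκ hκ1) T 0 s.im‖ ^ 2) -
      ∑ᶠ s ∈ ZZ X, (mu s : ℝ) * (wt t1 (dd κ T) s.im * ‖QQ (PQ κ hκ hκ1) T c s.im‖ ^ 2) ∧
    ∑ᶠ s ∈ ZZ X, (mu s : ℝ) * (wt t1 (dd κ T) s.im * ‖QQ (PQ κ hκ hκ1) T c s.im‖ ^ 2) ≤
      C * (dd κ T * Real.log T) := by
  obtain ⟨Cg, Tg, hCg, hTg, hgen⟩ := pgen hRH (3 / 4) (1 - κ / 4) (1 / 3) (1 / 6) (by norm_num)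
    (by norm_num) (by linarith) (by norm_num)
  obtain ⟨δ, Cp, Tp, hδ, hCp, hTp, hpr⟩ := prime_diff hκ hκ1 hRH K hK
  obtain ⟨C1, T1, hC1, hT1, hfac⟩ := BB_facts (PQ κ hκ hκ1)
  set k : ℝ := min (min (κ / 4) ((1 - 2 * κ) / 3)) (δ / (12 * (1 + C1))) with hk
  have hk0 : 0 < k := by
    rw [hk]
    refine lt_min (lt_min (by linarith) (by linarith)) (by positivity)
  have hk1 : k ≤ κ / 4 := (min_le_left _ _).trans (min_le_left _ _)
  have hk2 : k ≤ (1 - 2 * κ) / 3 := (min_le_left _ _).trans (min_le_right _ _)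
  have hk3 : k ≤ δ / (12 * (1 + C1)) := min_le_right _ _
  obtain ⟨T2, hT2, hev⟩ := ev_h κ k Tg hκ hκ1 hk0 hk1 hk2
  set M : ℝ := Cp + 2 * Cg * (2 + C1) with hM
  have hM0 : 0 < M := by positivity
  obtain ⟨T3, hT3⟩ := Filter.eventually_atTop.1
    (Real.tendsto_log_atTop.eventually_ge_atTop (4 * M / δ))
  refine ⟨δ / 8, k, 3 * (1 + C1) + Cp + M, max (max 100 Tg) (max (max Tp T1) (max T2 T3)),
    by positivity, hk0, by linarith, by positivity,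
    (le_max_left _ _).trans (le_max_left _ _), ?_⟩
  intro T hT X c hX1 hX2 hc1 hc2 t0 t1 ht1 ht2 hu1 hu2
  simp only [max_le_iff] at hT
  obtain ⟨⟨hT100, hTTg⟩, ⟨hTTp, hTT1⟩, hTT2, hTT3⟩ := hT
  have hT0 : 0 < T := by linarith
  obtain ⟨hL1, hevX⟩ := hev T hTT2
  obtain ⟨x1, x2, x3, x4, x5, x6⟩ := hevX X hX1 hX2
  have hT1' : 1 ≤ T := by linarith
  obtain ⟨y1, y2, y3, y4, y5, y6⟩ := hevX T
    (by
      calc T ^ (1 - k) ≤ T ^ (1 : ℝ) := Real.rpow_le_rpow_of_exponent_le hT1' (by linarith)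
        _ = T := Real.rpow_one T)
    (by
      calc T = T ^ (1 : ℝ) := (Real.rpow_one T).symm
        _ ≤ T ^ (1 + k) := Real.rpow_le_rpow_of_exponent_le hT1' (by linarith))
  obtain ⟨f1, f2, f3⟩ := hfac T hTT1
  set P := PQ κ hκ hκ1 with hP
  set D := dd κ T with hD
  set L := Real.log T with hL
  have hL0 : 0 < L := by linarith
  have hX0 : 10 ≤ X := hTg.trans x1
  have hD0 : 0 < D := Real.rpow_pos_of_pos hT0 _
  have hy0 : ∀ p ∈ BB P T, 0 ≤ yp P 1 T p := fun p hp => (f1 p hp).1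
  have hMD := hT3 T hTT3
  rw [div_le_iff₀ hδ] at hMD
  -- the two mean squares
  have hBT : ∀ p ∈ BB P T, p.Prime ∧ (p : ℝ) ≤ T ^ (1 / 6 : ℝ) := fun p hp =>
    ⟨BB_prime hp, (BB_le hκ hκ1 T (by linarith) hp).trans y4⟩
  have hBX : ∀ p ∈ BB P T, p.Prime ∧ (p : ℝ) ≤ X ^ (1 / 6 : ℝ) := fun p hp =>
    ⟨BB_prime hp, (BB_le hκ hκ1 T (by linarith) hp).trans x4⟩
  have hsc : ∀ c' : ℝ, (∑ n ∈ insert 1 (BB P T), ‖cc P T c' n‖) ^ 2 ≤
      81 * (1 + L) ^ 2 * T ^ ((1 - κ) / 8) := by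
    intro c'
    have h1 := sum_cc hκ hκ1 T c' (by linarith) f1 (fun _ => 1) 1 le_rfl
      (fun n _ => ⟨zero_le_one, le_rfl⟩)
    simp only [mul_one] at h1
    refine h1.trans ?_
    have h2 : 0 ≤ T ^ ((1 - κ) / 8) := Real.rpow_nonneg hT0.le _
    have h3 : (1 : ℝ) ≤ (1 + L) ^ 2 := by nlinarith
    nlinarith
  have m1 := hgen T (by linarith) (BB P T) (cc P T 0) t0 D hBT ((hsc 0).trans y5) y2 y3 ht1 ht2
  have m2 := hgen X x1 (BB P T) (cc P T c) t1 D hBX ((hsc c).trans x5) x2 x3 hu1 hu2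
  rw [norm_sum_cc hκ hκ1 T 0 hy0] at m1
  rw [norm_sum_cc hκ hκ1 T c hy0] at m2
  set S1 := ∑ᶠ s ∈ ZZ T, (mu s : ℝ) * (wt t0 D s.im * ‖QQ P T 0 s.im‖ ^ 2) with hS1
  set S2 := ∑ᶠ s ∈ ZZ X, (mu s : ℝ) * (wt t1 D s.im * ‖QQ P T c s.im‖ ^ 2) with hS2
  have e1 : ∑ᶠ s ∈ ZZ T, (mu s : ℝ) * (wt t0 D s.im *
      ‖PP (insert 1 (BB P T)) (cc P T 0) lg s.im‖ ^ 2) = S1 := rfl
  have e2 : ∑ᶠ s ∈ ZZ X, (mu s : ℝ) * (wt t1 D s.im *
      ‖PP (insert 1 (BB P T)) (cc P T c) lg s.im‖ ^ 2) = S2 := rfl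
  rw [e1] at m1
  rw [e2] at m2
  have e3 : ∑ p ∈ BB P T, ph ((1 / 6 + 1) * L) p * (cc P T 0 p *
      (starRingEnd ℂ) (cc P T 0 1)).re =
      -∑ p ∈ BB P T, ph ((1 / 6 + 1) * L) p * yp P 1 T p := by
    rw [← Finset.sum_neg_distrib]
    refine Finset.sum_congr rfl fun p hp => ?_
    rw [re_cc P T 0 (BB_prime hp).ne_one, zero_mul, Real.cos_zero]
    ring
  have e4 : ∑ p ∈ BB P T, ph ((1 / 6 + 1) * Real.log X) p * (cc P T c p *
      (starRingEnd ℂ) (cc P T c 1)).re =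
      -∑ p ∈ BB P T, ph ((1 / 6 + 1) * Real.log X) p *
        (yp P 1 T p * Real.cos (c * Real.log p)) := by
    rw [← Finset.sum_neg_distrib]
    refine Finset.sum_congr rfl fun p hp => ?_
    rw [re_cc P T c (BB_prime hp).ne_one]
    ring
  rw [e3] at m1
  rw [e4] at m2
  have hXL := abs_le.1 x6
  have hkk : k ≤ 1 / 2 := by linarith
  have hkL : k * L ≤ 1 / 2 * L := mul_le_mul_of_nonneg_right hkk hL0.le
  obtain ⟨p1, p2⟩ := hpr T hTTp c hc1 hc2 ((1 / 6 + 1) * L) ((1 / 6 + 1) * Real.log X)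
    (by linarith) (by linarith)
  set A1 := ∑ p ∈ BB P T, ph ((1 / 6 + 1) * L) p * yp P 1 T p with hA1
  set A2 := ∑ p ∈ BB P T, ph ((1 / 6 + 1) * Real.log X) p *
        (yp P 1 T p * Real.cos (c * Real.log p)) with hA2
  set N := ∑ p ∈ BB P T, yp P 1 T p ^ 2 with hN
  have hN0 : 0 ≤ N := Finset.sum_nonneg fun p _ => sq_nonneg _
  set s := Real.sqrt (2 * Real.pi) with hs
  have hs3 : s ≤ 3 := s2pi_le
  have hs2 : 2 ≤ s := s2pi_ge
  exact num_low S1 S2 A1 A2 N s D L (Real.log X) Cg Cp C1 M δ k hCg hCp hC1 hδ hM hk3 hkk hL1 hD0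
    hN0 f2 hs3 hs2 hXL.2 hMD p1 p2 (abs_le.1 m1).1 (abs_le.1 m2).2 (by linarith)

end

end Pool.Agent.V7H88.DT
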