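import Pool.Agent.V7H88.DT.H3
import Pool.Agent.V7H88.DZ.J1

/-! The error sums of the comparison. -/

set_option autoImplicit false

open Complex Filter Topology Set MeasureTheory

namespace Pool.Agent.V7H88.DT

open Pool.Agent.V7H88.DZ
open SG (hh nn dd dl ord NZ)
open SP (RHs ZZ mu wt Mk Ya Par Eb PS chi qq tt)
open LG (fam nA yp prs QT tm IsQ)

/-- the derivative up to a factor -/
noncomputable def QD (P : Par) (T t : ℝ) : ℂ :=
  PP (insert 1 (BB P T)) (fun n => cc P T 0 n * (lg n : ℂ)) lg t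

theorem QD_cont (P : Par) (T : ℝ) : Continuous (QD P T) := PP_cont _ _ _

theorem PP_shift {ι : Type*} (F : Finset ι) (a : ι → ℂ) (l : ι → ℝ) (y u : ℝ) :
    PP F a l (u + y) = PP F (fun i => a i * cexp (I * ((y * l i : ℝ) : ℂ))) l u := by
  unfold PP
  refine Finset.sum_congr rfl fun i _ => ?_
  rw [mul_assoc, ← Complex.exp_add]
  congr 2
  push_cast
  ring

section

variable {κ : ℝ} (hκ : 0 < κ) (hκ1 : κ < 1 / 2)

theorem lg_bd (T : ℝ) (hT : 10 ≤ T) (hL : 1 ≤ Real.log T) :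
    ∀ n ∈ insert 1 (BB (PQ κ hκ hκ1) T), 0 ≤ lg n ∧ lg n ≤ Real.log T := by
  intro n hn
  rw [Finset.mem_insert] at hn
  rcases hn with rfl | hn
  · unfold lg
    simp only [Nat.cast_one, Real.log_one]
    exact ⟨le_rfl, by linarith⟩
  · have h1 := BB_le hκ hκ1 T hT hn
    have hp0 : (0 : ℝ) < n := by exact_mod_cast (BB_prime hn).pos
    have h2 : Real.log n ≤ (1 - κ) / 8 * Real.log T := by
      have := Real.log_le_log hp0 h1
      rwa [Real.log_rpow (by linarith)] at this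
    refine ⟨Real.log_natCast_nonneg n, h2.trans ?_⟩
    have : (1 - κ) / 8 ≤ 1 := by linarith
    nlinarith

/-- mean square of the derivative over the zeros -/
theorem der2 (hRH : RHs) : ∃ C T0 : ℝ, 0 < C ∧ 100 ≤ T0 ∧ ∀ T : ℝ, T0 ≤ T → ∀ t0 y : ℝ,
    T + Real.log T + T / 20 ≤ t0 → t0 + T / 20 ≤ 2 * T - Real.log T →
    ∑ᶠ s ∈ ZZ T, (mu s : ℝ) * (wt t0 (dd κ T) s.im * ‖QD (PQ κ hκ hκ1) T (s.im + y)‖ ^ 2) ≤
      C * dd κ T * Real.log T ^ 3 := by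
  obtain ⟨Cg, Tg, hCg, hTg, hgen⟩ := pgen hRH (3 / 4) (1 - κ / 4) (1 / 3) (1 / 6) (by norm_num)
    (by norm_num) (by linarith) (by norm_num)
  obtain ⟨C1, T1, hC1, hT1, hfac⟩ := BB_facts (PQ κ hκ hκ1)
  set k : ℝ := min (κ / 4) ((1 - 2 * κ) / 3) with hk
  have hk0 : 0 < k := by
    rw [hk]
    exact lt_min (by linarith) (by linarith)
  have hk1 : k ≤ κ / 4 := min_le_left _ _
  have hk2 : k ≤ (1 - 2 * κ) / 3 := min_le_right _ _
  obtain ⟨T2, hT2, hev⟩ := ev_h κ k Tg hκ hκ1 hk0 hk1 hk2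
  refine ⟨2 * (1 + C1) + Cg * (2 + C1), max (max 100 Tg) (max T1 T2), by positivity,
    (le_max_left _ _).trans (le_max_left _ _), ?_⟩
  intro T hT t0 y ht1 ht2
  simp only [max_le_iff] at hT
  obtain ⟨⟨hT100, hTTg⟩, hTT1, hTT2⟩ := hT
  have hT0 : 0 < T := by linarith
  obtain ⟨hL1, hevX⟩ := hev T hTT2
  have hT1' : 1 ≤ T := by linarith
  obtain ⟨y1, y2, y3, y4, y5, y6⟩ := hevX T
    (by
      calc T ^ (1 - k) ≤ T ^ (1 : ℝ) := Real.rpow_le_rpow_of_exponent_le hT1' (by linarith)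
        _ = T := Real.rpow_one T)
    (by
      calc T = T ^ (1 : ℝ) := (Real.rpow_one T).symm
        _ ≤ T ^ (1 + k) := Real.rpow_le_rpow_of_exponent_le hT1' (by linarith))
  obtain ⟨f1, f2, f3⟩ := hfac T hTT1
  have hlg := lg_bd hκ hκ1 T (by linarith) hL1
  set P := PQ κ hκ hκ1 with hP
  set D := dd κ T with hD
  have hD0 : 0 < D := Real.rpow_pos_of_pos hT0 _
  have hy0 : ∀ p ∈ BB P T, 0 ≤ yp P 1 T p := fun p hp => (f1 p hp).1
  set c : ℕ → ℂ := fun n => cc P T 0 n * (lg n : ℂ) * cexp (I * ((y * lg n : ℝ) : ℂ)) with hc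
  have hcn : ∀ n ∈ insert 1 (BB P T), ‖c n‖ = ‖cc P T 0 n‖ * lg n := by
    intro n hn
    rw [hc]
    simp only
    rw [norm_mul, norm_e, mul_one, norm_mul, Complex.norm_real,
      Real.norm_of_nonneg (hlg n hn).1]
  have hBT : ∀ p ∈ BB P T, p.Prime ∧ (p : ℝ) ≤ T ^ (1 / 6 : ℝ) := fun p hp =>
    ⟨BB_prime hp, (BB_le hκ hκ1 T (by linarith) hp).trans y4⟩
  have hsc : (∑ n ∈ insert 1 (BB P T), ‖c n‖) ^ 2 ≤ T ^ (1 / 3 : ℝ) := by
    rw [Finset.sum_congr rfl hcn]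
    refine (sum_cc hκ hκ1 T 0 (by linarith) f1 lg (1 + Real.log T) (by linarith)
      (fun n hn => ⟨(hlg n hn).1, (hlg n hn).2.trans (by linarith)⟩)).trans y5
  have m1 := hgen T (by linarith) (BB P T) c t0 D hBT hsc y2 y3 ht1 ht2
  have hc1 : c 1 = 0 := by
    rw [hc]
    unfold lg
    simp
  have e3 : ∑ p ∈ BB P T, ph ((1 / 6 + 1) * Real.log T) p * (c p *
      (starRingEnd ℂ) (c 1)).re = 0 := by
    refine Finset.sum_eq_zero fun p _ => ?_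
    rw [hc1, map_zero, mul_zero, Complex.zero_re, mul_zero]
  rw [e3] at m1
  have e1 : ∀ s : ℂ, QD P T (s.im + y) = PP (insert 1 (BB P T)) c lg s.im := by
    intro s
    unfold QD
    rw [PP_shift]
  simp_rw [e1]
  set Z := ∑ᶠ s ∈ ZZ T, (mu s : ℝ) * (wt t0 D s.im *
    ‖PP (insert 1 (BB P T)) c lg s.im‖ ^ 2) with hZd
  have hZ0 : 0 ≤ Z := by
    rw [hZd, ZZ_toF hT1']
    refine Finset.sum_nonneg fun s _ => ?_
    have : 0 ≤ wt t0 D s.im := (Real.exp_pos _).le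
    positivity
  have hS : ∑ n ∈ insert 1 (BB P T), ‖c n‖ ^ 2 ≤ Real.log T ^ 2 * (1 + C1) := by
    calc ∑ n ∈ insert 1 (BB P T), ‖c n‖ ^ 2 ≤
          ∑ n ∈ insert 1 (BB P T), Real.log T ^ 2 * ‖cc P T 0 n‖ ^ 2 := by
          refine Finset.sum_le_sum fun n hn => ?_
          rw [hcn n hn, mul_pow, mul_comm]
          exact mul_le_mul_of_nonneg_right (pow_le_pow_left₀ (hlg n hn).1 (hlg n hn).2 2)
            (sq_nonneg _)
      _ = Real.log T ^ 2 * (1 + ∑ p ∈ BB P T, yp P 1 T p ^ 2) := by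
          rw [← Finset.mul_sum, norm_sum_cc hκ hκ1 T 0 hy0]
      _ ≤ _ := by gcongr
  set S := ∑ n ∈ insert 1 (BB P T), ‖c n‖ ^ 2 with hSd
  have hS0 : 0 ≤ S := Finset.sum_nonneg fun A _ => sq_nonneg _
  set L := Real.log T with hL
  clear_value Z S D L
  clear hcn hsc e1 e3 hc1 hlg hev hevX hgen hfac hy0 hBT f1 f2 f3
  have h2 := (abs_le.1 m1).2
  rw [mul_zero, sub_zero] at h2
  have hs3 : Real.sqrt (2 * Real.pi) ≤ 3 := s2pi_le
  have h7 : Z ≤ Real.pi * Z := le_mul_of_one_le_left hZ0 (by linarith [Real.pi_gt_three])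
  have hL0 : 0 < L := by linarith
  have h8 : Real.sqrt (2 * Real.pi) * D * (L / 2) * S ≤ 3 * D * (L / 2) * (L ^ 2 * (1 + C1)) := by
    gcongr
  have h9 : 1 + S ≤ L ^ 3 * (2 + C1) := by
    have k1 : 1 ≤ L ^ 3 := one_le_pow₀ hL1
    have k2 : L ^ 2 ≤ L ^ 3 := pow_le_pow_right₀ hL1 (by norm_num)
    have k3 : L ^ 2 * (1 + C1) ≤ L ^ 3 * (1 + C1) := by gcongr
    linarith
  have h10 : Cg * D * (1 + S) ≤ Cg * D * (L ^ 3 * (2 + C1)) := by gcongr
  have h11 : 0 ≤ D * L ^ 3 * (1 + C1) := by positivity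
  calc Z ≤ Real.pi * Z := h7
    _ ≤ 3 * D * (L / 2) * (L ^ 2 * (1 + C1)) + Cg * D * (L ^ 3 * (2 + C1)) := by linarith
    _ = 3 / 2 * (D * L ^ 3 * (1 + C1)) + Cg * (2 + C1) * D * L ^ 3 := by ring
    _ ≤ 2 * (D * L ^ 3 * (1 + C1)) + Cg * (2 + C1) * D * L ^ 3 := by linarith
    _ = _ := by ring

/-- the Sobolev error over a set of zeros -/
theorem sob2 (hRH : RHs) : ∃ C T0 : ℝ, 0 < C ∧ 100 ≤ T0 ∧ ∀ T : ℝ, T0 ≤ T → ∀ t0 h : ℝ, 0 < h →
    T + Real.log T + T / 20 ≤ t0 → t0 + T / 20 ≤ 2 * T - Real.log T →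
    ∀ A : Finset ℂ, (∀ s ∈ A, s ∈ ZZ T) →
    ∑ s ∈ A, (mu s : ℝ) * (wt t0 (dd κ T) s.im * (2 * h * ∫ x in (-h)..h,
      ‖QD (PQ κ hκ hκ1) T (s.im + x)‖ ^ 2)) ≤ C * h ^ 2 * dd κ T * Real.log T ^ 3 := by
  obtain ⟨C, T0, hC, hT0, hd⟩ := der2 hκ hκ1 hRH
  refine ⟨4 * C, T0, by positivity, hT0, ?_⟩
  intro T hT t0 h hh ht1 ht2 A hA
  have hT1 : (1 : ℝ) ≤ T := by linarith
  set P := PQ κ hκ hκ1 with hP
  set D := dd κ T with hD
  have hw : ∀ x : ℝ, 0 ≤ wt t0 D x := fun x => (Real.exp_pos _).le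
  have hcont : ∀ s ∈ A, Continuous (fun x : ℝ => (mu s : ℝ) * (wt t0 D s.im *
      ‖QD P T (s.im + x)‖ ^ 2)) := by
    intro s _
    have := QD_cont P T
    fun_prop
  have h1 : ∑ s ∈ A, (mu s : ℝ) * (wt t0 D s.im * (2 * h * ∫ x in (-h)..h,
      ‖QD P T (s.im + x)‖ ^ 2)) = 2 * h * ∫ x in (-h)..h, ∑ s ∈ A,
        (mu s : ℝ) * (wt t0 D s.im * ‖QD P T (s.im + x)‖ ^ 2) := by
    rw [intervalIntegral.integral_finsetSum (fun s hs => (hcont s hs).intervalIntegrable _ _),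
      Finset.mul_sum]
    refine Finset.sum_congr rfl fun s _ => ?_
    rw [intervalIntegral.integral_const_mul, intervalIntegral.integral_const_mul]
    ring
  rw [h1]
  have h2 : ∀ x : ℝ, ∑ s ∈ A, (mu s : ℝ) * (wt t0 D s.im *
      ‖QD P T (s.im + x)‖ ^ 2) ≤ C * D * Real.log T ^ 3 := by
    intro x
    refine le_trans ?_ (hd T hT t0 x ht1 ht2)
    rw [ZZ_toF hT1]
    have h3 : A ⊆ (ZZ_fin hT1).toFinset := by
      intro s hs
      rw [Set.Finite.mem_toFinset]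
      exact hA s hs
    refine Finset.sum_le_sum_of_subset_of_nonneg h3 fun s _ _ => ?_
    have := hw s.im
    positivity
  have h3 : ∫ x in (-h)..h, ∑ s ∈ A,
        (mu s : ℝ) * (wt t0 D s.im * ‖QD P T (s.im + x)‖ ^ 2) ≤
      ∫ _x in (-h)..h, C * D * Real.log T ^ 3 := by
    refine intervalIntegral.integral_mono_on (by linarith)
      ((continuous_finsetSum _ hcont).intervalIntegrable _ _) (by simp) fun x _ => h2 x
  rw [intervalIntegral.integral_const, smul_eq_mul] at h3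
  calc 2 * h * ∫ x in (-h)..h, ∑ s ∈ A,
        (mu s : ℝ) * (wt t0 D s.im * ‖QD P T (s.im + x)‖ ^ 2)
      ≤ 2 * h * ((h - -h) * (C * D * Real.log T ^ 3)) := by gcongr
    _ = _ := by ring

end

end Pool.Agent.V7H88.DT
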