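import Pool.Agent.V7H88.DT.I

/-! The matched zeros and the far zeros. -/

set_option autoImplicit false

open Complex Filter Topology Set MeasureTheory

namespace Pool.Agent.V7H88.DT

open Pool.Agent.V7H88.DZ
open SG (hh nn dd dl ord NZ)
open SP (RHs ZZ mu wt Mk Ya Par Eb PS chi qq tt)
open LG (fam nA yp prs QT tm IsQ)

/-- the matched zeros -/
theorem mat2 (P : Par) (T X c r ε κ1 t0 D K : ℝ) (hr : r = 1 ∨ r = -1) (hε : 0 < ε)
    (hκ1 : 0 < κ1) (hκ11 : κ1 ≤ 1) (hL : 1 ≤ Real.log T) (hD : 0 < D) (A BX : Finset ℂ)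
    (hK : ∀ s ∈ A, |s.im - t0| + 1 ≤ K) (hε2 : Real.exp (K / D ^ 2) ≤ 1 + ε)
    (hBX : ∀ s, s ∈ BX ↔ s ∈ ZZ X)
    (hX : ∀ s ∈ A, ∀ v : ℝ, |v - (r * s.im + c)| ≤ 1 → X < v ∧ v ≤ 2 * X) (σ : ℂ × ℕ → ℂ × ℕ)
    (hinj : ∀ s ∈ A, ∀ j < mu s, ∀ s' ∈ A, ∀ j' < mu s', σ (s, j) = σ (s', j') → s = s' ∧ j = j')
    (hσ : ∀ s ∈ A, ∀ j < mu s, (σ (s, j)).1.re = 1 / 2 ∧ (σ (s, j)).2 < mu (σ (s, j)).1 ∧
      |(σ (s, j)).1.im - (r * s.im + c)| ≤ κ1 / Real.log T) :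
    ∑ s ∈ A, (mu s : ℝ) * (wt t0 D s.im * ‖QQ P T 0 s.im‖ ^ 2) ≤
    (1 + ε) ^ 2 * (∑ s ∈ BX, (mu s : ℝ) * (wt (r * t0 + c) D s.im * ‖QQ P T c s.im‖ ^ 2)) +
    (1 + 1 / ε) * ∑ s ∈ A, (mu s : ℝ) * (wt t0 D s.im * (2 * (κ1 / Real.log T) *
      ∫ x in (-(κ1 / Real.log T))..(κ1 / Real.log T), ‖QD P T (s.im + x)‖ ^ 2)) := by
  set h := κ1 / Real.log T with hh
  have hL0 : 0 < Real.log T := by linarith
  have hh0 : 0 < h := by positivity
  have hh1 : h ≤ 1 := by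
    rw [hh, div_le_one hL0]
    linarith
  have hr2 : r * r = 1 := by
    rcases hr with rfl | rfl <;> norm_num
  have hra : |r| = 1 := by
    rcases hr with rfl | rfl <;> norm_num
  have hw : ∀ a b x : ℝ, 0 ≤ wt a b x := fun a b x => (Real.exp_pos _).le
  refine (match_sum A BX mu σ (fun s => wt t0 D s.im * ‖QQ P T 0 s.im‖ ^ 2)
    (fun s => (1 + ε) ^ 2 * (wt (r * t0 + c) D s.im * ‖QQ P T c s.im‖ ^ 2))
    (fun s => (1 + 1 / ε) * (wt t0 D s.im * (2 * h * ∫ x in (-h)..h,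
      ‖QD P T (s.im + x)‖ ^ 2))) (fun s _ => by
        have := hw (r * t0 + c) D s.im
        positivity) hinj (fun s hs j hj => ?_)).trans (le_of_eq ?_)
  · obtain ⟨k1, k2, k3⟩ := hσ s hs j hj
    set v := (σ (s, j)).1 with hv
    obtain ⟨m1, m2⟩ := hX s hs v.im (k3.trans hh1)
    have hvZ : v ∈ ZZ X := mem_ZZ_of_mu X v k1 m1 m2 (by omega)
    refine ⟨(hBX v).2 hvZ, k2, ?_⟩
    set u := r * (v.im - c) with hu
    have hus : |u - s.im| ≤ h := by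
      have e : u - s.im = r * (v.im - (r * s.im + c)) := by
        rw [hu]
        linear_combination s.im * hr2
      rw [e, abs_mul, hra, one_mul]
      exact k3
    have hK1 := hK s hs
    have hut : |u - t0| ≤ K := by
      have : u - t0 = (u - s.im) + (s.im - t0) := by ring
      rw [this]
      have := abs_add_le (u - s.im) (s.im - t0)
      linarith
    have hst : |s.im - t0| ≤ K := by linarith
    have hK0 : 0 ≤ K := (abs_nonneg _).trans hst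
    have k5 : wt t0 D s.im ≤ (1 + ε) * wt (r * t0 + c) D v.im := by
      have e : wt (r * t0 + c) D v.im = wt t0 D u := by
        unfold wt
        congr 1
        have e2 : (v.im - (r * t0 + c)) ^ 2 = (u - t0) ^ 2 := by
          rw [hu]
          linear_combination (-(v.im - c) ^ 2 + t0 ^ 2) * hr2
        rw [e2]
      rw [e]
      have k6 := wt_near t0 D s.im u h K hD (by rw [abs_sub_comm]; exact hus) hst hut
      refine k6.trans (mul_le_mul_of_nonneg_right (le_trans ?_ hε2) (hw _ _ _))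
      apply Real.exp_le_exp.2
      have : h * K ≤ K := by nlinarith
      gcongr
    set d := Real.sqrt (2 * h * ∫ x in (-h)..h, ‖QD P T (s.im + x)‖ ^ 2) with hd
    have hint : 0 ≤ 2 * h * ∫ x in (-h)..h, ‖QD P T (s.im + x)‖ ^ 2 := by
      have : 0 ≤ ∫ x in (-h)..h, ‖QD P T (s.im + x)‖ ^ 2 :=
        intervalIntegral.integral_nonneg (by linarith) fun x _ => sq_nonneg _
      positivity
    have hd2 : d ^ 2 = 2 * h * ∫ x in (-h)..h, ‖QD P T (s.im + x)‖ ^ 2 :=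
      Real.sq_sqrt hint
    have k7 : ‖QQ P T 0 s.im‖ ≤ ‖QQ P T c v.im‖ + d := by
      rw [QQ_r P T c v.im r hr, ← hu]
      have k8 := PP_sob (insert 1 (BB P T)) (cc P T 0) lg s.im u h hh0 hus
      have k9 : ‖QQ P T 0 s.im - QQ P T 0 u‖ ≤ d := by
        rw [hd]
        apply Real.le_sqrt_of_sq_le
        exact k8
      have k10 := norm_sub_norm_le (QQ P T 0 s.im) (QQ P T 0 u)
      linarith
    have k11 := pt_comp ε (wt t0 D s.im) (wt (r * t0 + c) D v.im) _ _ d hε (hw _ _ _) k5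
      (norm_nonneg _) (norm_nonneg _) k7
    rw [hd2] at k11
    exact k11
  · rw [Finset.mul_sum, Finset.mul_sum]
    congr 1
    · exact Finset.sum_congr rfl fun s _ => by ring
    · exact Finset.sum_congr rfl fun s _ => by ring

section

variable {κ : ℝ} (hκ : 0 < κ) (hκ1 : κ < 1 / 2)

/-- far zeros contribute nothing -/
theorem far2 (θ : ℝ) (hθ : 2 - 2 * θ < κ) : ∃ T0 : ℝ, 100 ≤ T0 ∧ ∀ T : ℝ, T0 ≤ T →
    ∀ t0 H : ℝ, T ^ θ ≤ H → ∀ A : Finset ℂ, (∀ s ∈ A, s ∈ ZZ T ∧ H / 4 ≤ |s.im - t0|) →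
    ∑ s ∈ A, (mu s : ℝ) * (wt t0 (dd κ T) s.im * ‖QQ (PQ κ hκ hκ1) T 0 s.im‖ ^ 2) ≤ 1 := by
  obtain ⟨C2, T2, hC2, hT2, hcount⟩ := ZZ_count
  obtain ⟨C1, T1, hC1, hT1, hfac⟩ := BB_facts (PQ κ hκ hκ1)
  set e : ℝ := 2 * θ - 2 + κ with he
  have he0 : 0 < e := by linarith
  have ev : ∀ᶠ T : ℝ in atTop, 100 ≤ T ∧ C2 ≤ T ∧ 81 ≤ T ∧
      T ^ (5 : ℝ) * Real.exp (-(1 / 32) * T ^ e) ≤ 1 := by
    have h := SG.Deep.tendsto_pow_exp 5 (1 / 32) (2 * e) (by norm_num) (by linarith)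
    have e2 : 2 * e / 2 = e := by ring
    rw [e2] at h
    filter_upwards [eventually_ge_atTop 100, eventually_ge_atTop C2, eventually_ge_atTop 81,
      h.eventually_lt_const (one_pos)] with T x1 x2 x3 x4
    exact ⟨x1, x2, x3, x4.le⟩
  obtain ⟨T4, hT4⟩ := Filter.eventually_atTop.1 ev
  refine ⟨max (max T1 T2) (max T4 100), (le_max_right _ _).trans (le_max_right _ _), ?_⟩
  intro T hT t0 H hH A hA
  simp only [max_le_iff] at hT
  obtain ⟨⟨hTT1, hTT2⟩, hTT4, hT100⟩ := hT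
  obtain ⟨-, x2, x3, x4⟩ := hT4 T hTT4
  obtain ⟨f1, f2, f3⟩ := hfac T hTT1
  have hTp : 0 < T := by linarith
  have hT1' : (1 : ℝ) ≤ T := by linarith
  have hD0 : 0 < dd κ T := Real.rpow_pos_of_pos hTp _
  have hQ : ∀ u : ℝ, ‖QQ (PQ κ hκ hκ1) T 0 u‖ ^ 2 ≤ T ^ 2 := by
    intro u
    have h1 := sum_cc hκ hκ1 T 0 (by linarith) f1 (fun _ => 1) 1 le_rfl
      (fun n _ => ⟨zero_le_one, le_rfl⟩)
    simp only [mul_one] at h1
    have k1 : ‖QQ (PQ κ hκ hκ1) T 0 u‖ ≤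
        ∑ n ∈ insert 1 (BB (PQ κ hκ hκ1) T), ‖cc (PQ κ hκ hκ1) T 0 n‖ := PP_le _ _ _ _
    have k3 : T ^ ((1 - κ) / 8) ≤ T := by
      calc T ^ ((1 - κ) / 8) ≤ T ^ (1 : ℝ) :=
            Real.rpow_le_rpow_of_exponent_le hT1' (by linarith)
        _ = T := Real.rpow_one _
    calc ‖QQ (PQ κ hκ hκ1) T 0 u‖ ^ 2 ≤
          (∑ n ∈ insert 1 (BB (PQ κ hκ hκ1) T), ‖cc (PQ κ hκ hκ1) T 0 n‖) ^ 2 :=
          pow_le_pow_left₀ (norm_nonneg _) k1 2
      _ ≤ 81 * 1 ^ 2 * T ^ ((1 - κ) / 8) := h1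
      _ ≤ T * 1 ^ 2 * T := by gcongr
      _ = T ^ 2 := by ring
  have hw : ∀ s ∈ A, wt t0 (dd κ T) s.im ≤ Real.exp (-(1 / 32) * T ^ e) := by
    intro s hs
    obtain ⟨-, h1⟩ := hA s hs
    have hTθ : 0 < T ^ θ := Real.rpow_pos_of_pos hTp _
    have h2 : (T ^ θ / 4) ^ 2 ≤ (s.im - t0) ^ 2 := by
      rw [← sq_abs (s.im - t0)]
      exact pow_le_pow_left₀ (by positivity) (by linarith) 2
    unfold wt
    apply Real.exp_le_exp.2
    have h3 : T ^ e * dd κ T ^ 2 = (T ^ θ) ^ 2 := by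
      unfold dd
      rw [← Real.rpow_natCast, ← Real.rpow_natCast, ← Real.rpow_mul hTp.le,
        ← Real.rpow_mul hTp.le, ← Real.rpow_add hTp]
      congr 1
      push_cast
      rw [he]
      ring
    have h4 : 1 / 32 * T ^ e ≤ (s.im - t0) ^ 2 / (2 * dd κ T ^ 2) := by
      rw [le_div_iff₀ (by positivity)]
      calc 1 / 32 * T ^ e * (2 * dd κ T ^ 2) = (T ^ e * dd κ T ^ 2) / 16 := by ring
        _ = (T ^ θ / 4) ^ 2 := by
            rw [h3]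
            ring
        _ ≤ _ := h2
    rw [neg_div]
    linarith
  have hsub : A ⊆ (ZZ_fin hT1').toFinset := by
    intro s hs
    rw [Set.Finite.mem_toFinset]
    exact (hA s hs).1
  have hmu : ∑ s ∈ A, (mu s : ℝ) ≤ T ^ 3 := by
    have h1 := hcount T hTT2
    rw [ZZ_toF hT1'] at h1
    have h2 : Real.log T ≤ T := by
      have := Real.log_le_sub_one_of_pos hTp
      linarith
    have h3 : 0 ≤ Real.log T := Real.log_nonneg hT1'
    calc ∑ s ∈ A, (mu s : ℝ) ≤ ∑ s ∈ (ZZ_fin hT1').toFinset, (mu s : ℝ) :=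
          Finset.sum_le_sum_of_subset_of_nonneg hsub fun s _ _ => by positivity
      _ ≤ C2 * (T * Real.log T) := h1
      _ ≤ T * (T * T) := by gcongr
      _ = T ^ 3 := by ring
  calc ∑ s ∈ A, (mu s : ℝ) * (wt t0 (dd κ T) s.im * ‖QQ (PQ κ hκ hκ1) T 0 s.im‖ ^ 2)
      ≤ ∑ s ∈ A, (mu s : ℝ) * (Real.exp (-(1 / 32) * T ^ e) * T ^ 2) := by
        refine Finset.sum_le_sum fun s hs => ?_
        have := hw s hs
        have := hQ s.im
        gcongr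
    _ = (∑ s ∈ A, (mu s : ℝ)) * (Real.exp (-(1 / 32) * T ^ e) * T ^ 2) := by
        rw [Finset.sum_mul]
    _ ≤ T ^ 3 * (Real.exp (-(1 / 32) * T ^ e) * T ^ 2) := by gcongr
    _ = T ^ (5 : ℝ) * Real.exp (-(1 / 32) * T ^ e) := by
        have : T ^ (5 : ℝ) = T ^ 5 := by
          rw [← Real.rpow_natCast]
          norm_num
        rw [this]
        ring
    _ ≤ 1 := x4

end

end Pool.Agent.V7H88.DT
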