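import Pool.Agent.V7H88.DT.J

/-! The number of the zeros which cannot be matched. -/

set_option autoImplicit false

open Complex Filter Topology Set MeasureTheory

namespace Pool.Agent.V7H88.DT

open Pool.Agent.V7H88.DZ
open SG (hh nn dd dl ord NZ)
open SP (RHs ZZ mu wt Mk Ya Par Eb PS chi qq tt)
open LG (fam nA yp prs QT tm IsQ)

theorem ev_k (κ δ ε : ℝ) (hκ : 0 < κ) (hκ1 : κ < 1 / 2) (hδ : 0 < δ) (hε : 0 < ε) :
    ∃ T0 : ℝ, 100 ≤ T0 ∧ ∀ T : ℝ, T0 ≤ T → 4 ≤ Real.log T ∧ 1000 * Real.log T ≤ T ∧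
    1 ≤ dd κ T ∧ Real.exp (T / dd κ T ^ 2) ≤ 1 + ε ∧ 1 ≤ δ / 4 * (dd κ T * Real.log T) := by
  obtain ⟨T1, hT1, h1⟩ := ev_w1 κ hκ1
  have h2 : Tendsto (fun T : ℝ => T / dd κ T ^ 2) atTop (𝓝 0) := by
    have h3 := tendsto_rpow_neg_atTop (show 0 < 1 - κ by linarith)
    refine h3.congr' ?_
    filter_upwards [eventually_gt_atTop 0] with T hT
    have h5 : dd κ T ^ 2 = T ^ (1 - κ) * T := by
      unfold dd
      rw [← Real.rpow_natCast, ← Real.rpow_mul hT.le, ← Real.rpow_add_one hT.ne']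
      congr 1
      push_cast
      ring
    rw [h5, Real.rpow_neg hT.le]
    have h6 : T ^ (1 - κ) ≠ 0 := by positivity
    field_simp
  have ev1 : ∀ᶠ T : ℝ in atTop, Real.exp (T / dd κ T ^ 2) ≤ 1 + ε := by
    have h3 := (Real.continuous_exp.tendsto 0).comp h2
    rw [Real.exp_zero] at h3
    exact (h3.eventually_lt_const (by linarith : (1 : ℝ) < 1 + ε)).mono fun T hT => hT.le
  obtain ⟨T2, hT2⟩ := Filter.eventually_atTop.1
    (ev1.and (Real.tendsto_log_atTop.eventually_ge_atTop (4 / δ)))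
  refine ⟨max T1 T2, hT1.trans (le_max_left _ _), fun T hT => ?_⟩
  obtain ⟨w1, w3, w7, w8⟩ := h1 T ((le_max_left _ _).trans hT)
  obtain ⟨v1, v2⟩ := hT2 T ((le_max_right _ _).trans hT)
  refine ⟨w1, w3, w8, v1, ?_⟩
  rw [div_le_iff₀ hδ] at v2
  have hL : 0 < Real.log T := by linarith
  have h3 : Real.log T ≤ dd κ T * Real.log T := le_mul_of_one_le_left hL.le w8
  nlinarith

theorem log_small (X : ℝ) (hX : 40000 ≤ X) : 100 * Real.log X ≤ X := by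
  have h1 : Real.log X = 2 * Real.log (Real.sqrt X) := by
    rw [Real.log_sqrt (by linarith)]
    ring
  have h2 : 200 ≤ Real.sqrt X := by
    apply Real.le_sqrt_of_sq_le
    linarith
  have h3 := Real.log_le_sub_one_of_pos (show 0 < Real.sqrt X by linarith)
  have h4 := Real.mul_self_sqrt (show 0 ≤ X by linarith)
  nlinarith

/-- numerical part -/
theorem num_good (S1 S2 good mat far err δ C ε DL : ℝ) (h1 : δ * DL ≤ S1 - S2) (h2 : S2 ≤ C * DL)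
    (h3 : S1 = good + mat + far) (h4 : mat ≤ (1 + ε) ^ 2 * S2 + err) (h5 : far ≤ 1)
    (h6 : err ≤ δ / 4 * DL) (h7 : 1 ≤ δ / 4 * DL) (hε : 0 < ε) (hε1 : ε ≤ 1) (hC : 0 < C)
    (hε2 : 3 * ε * C ≤ δ / 4) (hDL : 0 < DL) :
    δ / 4 * DL ≤ good := by
  have k1 : (2 * ε + ε ^ 2) * S2 ≤ δ / 4 * DL := by
    have k2 : 2 * ε + ε ^ 2 ≤ 3 * ε := by nlinarith
    have k3 : 0 ≤ 2 * ε + ε ^ 2 := by positivity
    calc (2 * ε + ε ^ 2) * S2 ≤ (2 * ε + ε ^ 2) * (C * DL) := mul_le_mul_of_nonneg_left h2 k3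
      _ ≤ 3 * ε * (C * DL) := by
          apply mul_le_mul_of_nonneg_right k2
          positivity
      _ = 3 * ε * C * DL := by ring
      _ ≤ _ := mul_le_mul_of_nonneg_right hε2 hDL.le
  have k4 : (1 + ε) ^ 2 * S2 = S2 + (2 * ε + ε ^ 2) * S2 := by ring
  linarith

/-- the zeros which cannot be matched carry a positive proportion of the mean square -/
theorem good2 (hRH : RHs) (κ : ℝ) (hκ : 0 < κ) (hκ1 : κ < 1 / 2) (θ K : ℝ) (hθ : 2 - 2 * θ < κ)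
    (hK : 0 < K) :
    ∃ c0 κ1 k T0 : ℝ, 0 < c0 ∧ 0 < κ1 ∧ κ1 ≤ 1 ∧ 0 < k ∧ k ≤ 1 / 2 ∧ 100 ≤ T0 ∧
    ∀ T : ℝ, T0 ≤ T → ∀ X c r H a : ℝ, (r = 1 ∨ r = -1) → a = 3 / 2 * T → r * a + c = 3 / 2 * X →
    40000 ≤ X → T ^ (1 - k) ≤ X → X ≤ T ^ (1 + k) → K / Real.log T ≤ |c| →
    |c| ≤ Real.exp (3 * Real.log T) → T ^ θ ≤ H → H ≤ T / 40 → H ≤ X / 40 →
    ∀ t0 : ℝ, a + H / 4 ≤ t0 → t0 ≤ a + 3 * H / 4 →
    ∀ Bk A : Finset ℂ, (∀ s, s ∈ Bk ↔ s ∈ ZZ T ∧ a ≤ s.im ∧ s.im ≤ a + H) →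
    A ⊆ Bk → ∀ σ : ℂ × ℕ → ℂ × ℕ,
    (∀ s ∈ A, ∀ j < mu s, ∀ s' ∈ A, ∀ j' < mu s', σ (s, j) = σ (s', j') → s = s' ∧ j = j') →
    (∀ s ∈ A, ∀ j < mu s, (σ (s, j)).1.re = 1 / 2 ∧ (σ (s, j)).2 < mu (σ (s, j)).1 ∧
      |(σ (s, j)).1.im - (r * s.im + c)| ≤ κ1 / Real.log T) →
    c0 * (dd κ T * Real.log T) ≤ ∑ s ∈ Bk \ A, (mu s : ℝ) *
      (wt t0 (dd κ T) s.im * ‖QQ (PQ κ hκ hκ1) T 0 s.im‖ ^ 2) := by
  classical
  obtain ⟨δ, k, C, T1, hδ, hk0, hk1, hC, hT1, hdiff⟩ := diff_low hκ hκ1 hRH K hK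
  obtain ⟨C6, T2, hC6, hT2, hsob⟩ := sob2 hκ hκ1 hRH
  obtain ⟨T3, hT3, hfar⟩ := far2 hκ hκ1 θ hθ
  set ε : ℝ := min 1 (δ / (12 * C)) with hε
  have hε0 : 0 < ε := lt_min one_pos (by positivity)
  have hε1 : ε ≤ 1 := min_le_left _ _
  have hε2 : 3 * ε * C ≤ δ / 4 := by
    have h1 : ε ≤ δ / (12 * C) := min_le_right _ _
    calc 3 * ε * C ≤ 3 * (δ / (12 * C)) * C := by gcongr
      _ = δ / 4 := by
          field_simp
          norm_num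
  obtain ⟨κ1, hκ10, hκ11, hκ12⟩ : ∃ κ1 : ℝ, 0 < κ1 ∧ κ1 ≤ 1 ∧
      (1 + 1 / ε) * (C6 * κ1 ^ 2) ≤ δ / 4 := by
    have k1 : 0 < (1 + 1 / ε) * C6 := by positivity
    have k2 : 0 < δ / 4 / ((1 + 1 / ε) * C6) := by positivity
    refine ⟨min 1 (δ / 4 / ((1 + 1 / ε) * C6)), lt_min one_pos k2, min_le_left _ _, ?_⟩
    set x := min 1 (δ / 4 / ((1 + 1 / ε) * C6)) with hx
    have hx0 : 0 < x := lt_min one_pos k2
    have hx1 : x ≤ 1 := min_le_left _ _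
    have hx2 : x ≤ δ / 4 / ((1 + 1 / ε) * C6) := min_le_right _ _
    rw [le_div_iff₀ k1] at hx2
    have k3 : x ^ 2 ≤ x := by nlinarith
    calc (1 + 1 / ε) * (C6 * x ^ 2) ≤ (1 + 1 / ε) * (C6 * x) := by gcongr
      _ = x * ((1 + 1 / ε) * C6) := by ring
      _ ≤ _ := hx2
  obtain ⟨T4, hT4, hev⟩ := ev_k κ δ ε hκ hκ1 hδ hε0
  refine ⟨δ / 4, κ1, k, max (max T1 T2) (max T3 T4), by positivity, hκ10, hκ11, hk0, hk1,
    hT1.trans ((le_max_left _ _).trans (le_max_left _ _)), ?_⟩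
  intro T hT X c r H a hr ha hX0 hX40 hX1 hX2 hc1 hc2 hH1 hH2 hH3 t0 ht1 ht2 Bk A hBk hAB σ hinj hσ
  simp only [max_le_iff] at hT
  obtain ⟨⟨hTT1, hTT2⟩, hTT3, hTT4⟩ := hT
  obtain ⟨w1, w2, w3, w4, w5⟩ := hev T hTT4
  have hT100 : 100 ≤ T := hT1.trans hTT1
  have hTp : 0 < T := by linarith
  have hT1' : (1 : ℝ) ≤ T := by linarith
  have hX1' : (1 : ℝ) ≤ X := by linarith
  have hlX := log_small X hX40
  have hH0 : 0 < H := lt_of_lt_of_le (Real.rpow_pos_of_pos hTp _) hH1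
  have hLT : 0 < Real.log T := by linarith
  set D := dd κ T with hD
  have hD0 : 0 < D := by linarith
  have hrr : ∀ x : ℝ, |x| ≤ H → |r * x| ≤ H := by
    intro x hx
    rw [abs_mul]
    rcases hr with rfl | rfl
    · simpa using hx
    · simpa using hx
  have himg : ∀ x : ℝ, a ≤ x → x ≤ a + H → 3 / 2 * X - H ≤ r * x + c ∧
      r * x + c ≤ 3 / 2 * X + H := by
    intro x h1 h2
    have h3 := hrr (x - a) (by rw [abs_le]; constructor <;> linarith)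
    have h4 := abs_le.1 h3
    have h5 : r * x + c = 3 / 2 * X + r * (x - a) := by
      rw [← hX0]
      ring
    constructor <;> linarith
  obtain ⟨g1, g2⟩ := himg t0 (by linarith) (by linarith)
  obtain ⟨m1, m2⟩ := hdiff T hTT1 X c hX1 hX2 hc1 hc2 t0 (r * t0 + c) (by linarith) (by linarith)
    (by linarith) (by linarith)
  set f : ℂ → ℝ := fun s => (mu s : ℝ) * (wt t0 D s.im *
    ‖QQ (PQ κ hκ hκ1) T 0 s.im‖ ^ 2) with hf
  set ZT := (ZZ_fin hT1').toFinset with hZT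
  have hmemT : ∀ s, s ∈ ZT ↔ s ∈ ZZ T := fun s => by rw [hZT, Set.Finite.mem_toFinset]
  have hmemX : ∀ s, s ∈ (ZZ_fin hX1').toFinset ↔ s ∈ ZZ X :=
    fun s => by rw [Set.Finite.mem_toFinset]
  have hBZ : Bk ⊆ ZT := fun s hs => (hmemT s).2 ((hBk s).1 hs).1
  have m3 := hfar T hTT3 t0 H hH1 (ZT \ Bk) (fun s hs => by
    rw [Finset.mem_sdiff, hmemT, hBk] at hs
    refine ⟨hs.1, ?_⟩
    by_contra hcon
    push Not at hcon
    have h5 := abs_lt.1 hcon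
    exact hs.2 ⟨hs.1, by linarith, by linarith⟩)
  have hAI : ∀ s ∈ A, a ≤ s.im ∧ s.im ≤ a + H := fun s hs => ((hBk s).1 (hAB hs)).2
  have m4 := mat2 (PQ κ hκ hκ1) T X c r ε κ1 t0 D T hr hε0 hκ10 hκ11 (by linarith) hD0 A
    (ZZ_fin hX1').toFinset (fun s hs => by
      obtain ⟨h1, h2⟩ := hAI s hs
      have : |s.im - t0| ≤ H := by
        rw [abs_le]
        constructor <;> linarith
      linarith) w4 hmemX (fun s hs v hv => by
      obtain ⟨h1, h2⟩ := hAI s hs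
      obtain ⟨h3, h4⟩ := himg s.im h1 h2
      have h5 := abs_le.1 hv
      constructor <;> linarith) σ hinj hσ
  have m5 := hsob T hTT2 t0 (κ1 / Real.log T) (by positivity) (by linarith) (by linarith)
    A (fun s hs => ((hBk s).1 (hAB hs)).1)
  rw [ZZ_toF hT1', ZZ_toF hX1'] at m1
  rw [ZZ_toF hX1'] at m2
  have m6 : ∑ s ∈ ZT, f s = ∑ s ∈ Bk \ A, f s + ∑ s ∈ A, f s + ∑ s ∈ ZT \ Bk, f s := by
    rw [Finset.sum_sdiff hAB, add_comm, Finset.sum_sdiff hBZ]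
  set err := (1 + 1 / ε) * ∑ s ∈ A, (mu s : ℝ) * (wt t0 D s.im * (2 * (κ1 / Real.log T) *
      ∫ x in (-(κ1 / Real.log T))..(κ1 / Real.log T), ‖QD (PQ κ hκ hκ1) T (s.im + x)‖ ^ 2))
    with herr
  have m7 : err ≤ δ / 4 * (D * Real.log T) := by
    calc err ≤ (1 + 1 / ε) * (C6 * (κ1 / Real.log T) ^ 2 * D * Real.log T ^ 3) := by
          rw [herr]
          gcongr
      _ = ((1 + 1 / ε) * (C6 * κ1 ^ 2)) * (D * Real.log T) := by
          field_simp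
      _ ≤ _ := by gcongr
  exact num_good _ _ _ _ _ err δ C ε (D * Real.log T) m1 m2 m6 m4 m3 m7 w5 hε0 hε1 hC hε2
    (by positivity)

end Pool.Agent.V7H88.DT
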