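import Pool.Agent.V7H88.DT.K

/-! The number of the zeros which cannot be matched. -/

set_option autoImplicit false

open Complex Filter Topology Set MeasureTheory

namespace Pool.Agent.V7H88.DT

open Pool.Agent.V7H88.DZ
open SG (hh nn dd dl ord NZ)
open SP (RHs ZZ mu wt Mk Ya Par Eb PS chi qq tt)
open LG (fam nA yp prs QT tm IsQ)

/-- a positive proportion of the zeros cannot be matched -/
theorem count2 (hRH : RHs) (κ : ℝ) (hκ : 0 < κ) (hκ1 : κ < 1 / 2) (θ K : ℝ) (hθ : 2 - 2 * θ < κ)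
    (hK : 0 < K) :
    ∃ κ1 κ2 k T0 : ℝ, 0 < κ1 ∧ κ1 ≤ 1 ∧ 0 < κ2 ∧ 0 < k ∧ k ≤ 1 / 2 ∧ 100 ≤ T0 ∧
    ∀ T : ℝ, T0 ≤ T → ∀ X c r H a : ℝ, (r = 1 ∨ r = -1) → a = 3 / 2 * T → r * a + c = 3 / 2 * X →
    40000 ≤ X → T ^ (1 - k) ≤ X → X ≤ T ^ (1 + k) → K / Real.log T ≤ |c| →
    |c| ≤ Real.exp (3 * Real.log T) → T ^ θ ≤ H → H ≤ T / 40 → H ≤ X / 40 →
    ∀ Bk A : Finset ℂ, (∀ s, s ∈ Bk ↔ s ∈ ZZ T ∧ a ≤ s.im ∧ s.im ≤ a + H) →
    A ⊆ Bk → ∀ σ : ℂ × ℕ → ℂ × ℕ,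
    (∀ s ∈ A, ∀ j < mu s, ∀ s' ∈ A, ∀ j' < mu s', σ (s, j) = σ (s', j') → s = s' ∧ j = j') →
    (∀ s ∈ A, ∀ j < mu s, (σ (s, j)).1.re = 1 / 2 ∧ (σ (s, j)).2 < mu (σ (s, j)).1 ∧
      |(σ (s, j)).1.im - (r * s.im + c)| ≤ κ1 / Real.log T) →
    κ2 * (H * Real.log T) ≤ ((Bk \ A).card : ℝ) := by
  classical
  obtain ⟨c0, κ1, k, T1, hc0, hκ10, hκ11, hk0, hk1, hT1, hmass⟩ := good2 hRH κ hκ hκ1 θ K hθ hK
  obtain ⟨Cq, T2, hCq, hT2, hq⟩ := qn_bound hRH (PQ_dat hκ hκ1)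
  obtain ⟨C, T3, hC, hT3, hmom⟩ := mom4 hRH κ (Cq + 2) 2 hκ hκ1 (by linarith)
  obtain ⟨T4, hT4, hev⟩ := ev_k κ 1 1 hκ hκ1 one_pos one_pos
  refine ⟨κ1, c0 ^ 2 / (6 * C), k, max (max T1 T2) (max T3 T4), hκ10, hκ11, by positivity, hk0,
    hk1, hT1.trans ((le_max_left _ _).trans (le_max_left _ _)), ?_⟩
  intro T hT X c r H a hr ha hX0 hX40 hX1 hX2 hc1 hc2 hH1 hH2 hH3 Bk A hBk hAB σ hinj hσ
  simp only [max_le_iff] at hT
  obtain ⟨⟨hTT1, hTT2⟩, hTT3, hTT4⟩ := hT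
  obtain ⟨w1, w2, w3, -, -⟩ := hev T hTT4
  have hT100 : 100 ≤ T := hT1.trans hTT1
  have hTp : 0 < T := by linarith
  have hH0 : 0 < H := lt_of_lt_of_le (Real.rpow_pos_of_pos hTp _) hH1
  set L := Real.log T with hL
  set D := dd κ T with hD
  have hD0 : 0 < D := by linarith
  have hL0 : 0 < L := by linarith
  set G := Bk \ A with hG
  have hGB : ∀ s ∈ G, s ∈ ZZ T ∧ a ≤ s.im ∧ s.im ≤ a + H := fun s hs =>
    (hBk s).1 (Finset.mem_sdiff.1 hs).1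
  have key : ∀ t0 ∈ Icc (a + H / 4) (a + 3 * H / 4),
      c0 ^ 2 / C * (D * L) ≤ ∑ s ∈ G, wt t0 D s.im := by
    intro t0 ht0
    have h1 := hmass T hTT1 X c r H a hr ha hX0 hX40 hX1 hX2 hc1 hc2 hH1 hH2 hH3 t0 ht0.1 ht0.2
      Bk A hBk hAB σ hinj hσ
    have h2 := hmom T hTT3 t0 (by linarith [ht0.1]) (by linarith [ht0.2]) G (fun s hs => by
      obtain ⟨h3, h4, h5⟩ := hGB s hs
      refine ⟨h3, ?_, ?_⟩ <;> linarith) (fun s => ‖QQ (PQ κ hκ hκ1) T 0 s.im‖) (fun s hs => by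
      obtain ⟨h3, h4, h5⟩ := hGB s hs
      refine ⟨norm_nonneg _, ?_⟩
      have h6 := hq T hTT2 s.im (by linarith) (by linarith)
      rw [Qn2] at h6
      have h7 : ‖QQ (PQ κ hκ hκ1) T 0 s.im‖ ≤ 2 + ‖2 - QQ (PQ κ hκ hκ1) T 0 s.im‖ := by
        have h8 := norm_sub_norm_le (QQ (PQ κ hκ hκ1) T 0 s.im) 2
        rw [norm_sub_rev] at h8
        have h9 : ‖(2 : ℂ)‖ = 2 := by simp
        rw [h9] at h8
        linarith
      have h8 : 0 ≤ Mk T 1 s.im := SP.DpB_Mk_nonneg _ _ _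
      have h9 : (1 : ℝ) ≤ (1 + Mk T 1 s.im) ^ 2 := one_le_pow₀ (by linarith)
      calc ‖QQ (PQ κ hκ hκ1) T 0 s.im‖ ≤ 2 * (1 + Mk T 1 s.im) ^ 2 +
            Cq * (1 + Mk T 1 s.im) ^ 2 := by linarith
        _ = _ := by ring)
    have h3 := cs_sum G (fun s => (mu s : ℝ)) (fun s => wt t0 D s.im)
      (fun s => ‖QQ (PQ κ hκ hκ1) T 0 s.im‖) (fun s => (Real.exp_pos _).le)
    have hW0 : 0 ≤ ∑ s ∈ G, wt t0 D s.im := Finset.sum_nonneg fun s _ => (Real.exp_pos _).le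
    have hdL : 0 < D * L := mul_pos hD0 hL0
    have h4 : (c0 * (D * L)) ^ 2 ≤ (∑ s ∈ G, wt t0 D s.im) * (C * D * L) := by
      calc (c0 * (D * L)) ^ 2 ≤ (∑ s ∈ G, (mu s : ℝ) *
            (wt t0 D s.im * ‖QQ (PQ κ hκ hκ1) T 0 s.im‖ ^ 2)) ^ 2 :=
            pow_le_pow_left₀ (by positivity) h1 2
        _ ≤ _ := h3
        _ ≤ _ := mul_le_mul_of_nonneg_left h2 hW0
    have h5 : c0 ^ 2 * (D * L) * (D * L) ≤ ((∑ s ∈ G, wt t0 D s.im) * C) * (D * L) := by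
      calc c0 ^ 2 * (D * L) * (D * L) = (c0 * (D * L)) ^ 2 := by ring
        _ ≤ _ := h4
        _ = _ := by ring
    have h6 := le_of_mul_le_mul_right h5 hdL
    rw [div_mul_eq_mul_div, div_le_iff₀ hC]
    exact h6
  have hab : a + H / 4 ≤ a + 3 * H / 4 := by linarith
  have hcont : ∀ s ∈ G, Continuous (fun t0 : ℝ => wt t0 D s.im) := by
    intro s _
    unfold wt
    fun_prop
  have hint1 : ∫ _t0 in (a + H / 4)..(a + 3 * H / 4), c0 ^ 2 / C * (D * L) ≤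
      ∫ t0 in (a + H / 4)..(a + 3 * H / 4), ∑ s ∈ G, wt t0 D s.im :=
    intervalIntegral.integral_mono_on hab (by simp)
      ((continuous_finsetSum _ hcont).intervalIntegrable _ _) key
  rw [intervalIntegral.integral_const, smul_eq_mul,
    intervalIntegral.integral_finsetSum (fun s hs => (hcont s hs).intervalIntegrable _ _)] at hint1
  have hint2 : ∑ s ∈ G, ∫ t0 in (a + H / 4)..(a + 3 * H / 4), wt t0 D s.im ≤
      G.card * (3 * D) := by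
    rw [← nsmul_eq_mul]
    exact Finset.sum_le_card_nsmul _ _ _ fun s _ => wt_int3 s.im D _ _ hD0 hab
  have h7 := hint1.trans hint2
  have h8 : (1 / 2 * (c0 ^ 2 / C) * (H * L)) * D ≤ (3 * (G.card : ℝ)) * D := by
    calc (1 / 2 * (c0 ^ 2 / C) * (H * L)) * D =
          (a + 3 * H / 4 - (a + H / 4)) * (c0 ^ 2 / C * (D * L)) := by ring
      _ ≤ G.card * (3 * D) := h7
      _ = _ := by ring
  have h9 := le_of_mul_le_mul_right h8 hD0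
  have h10 : c0 ^ 2 / (6 * C) * (H * L) = 1 / 3 * (1 / 2 * (c0 ^ 2 / C) * (H * L)) := by
    field_simp
    norm_num
  rw [h10]
  linarith

end Pool.Agent.V7H88.DT
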